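import Pool.Agent.N23.KP.Stm

/-!
Project KP (helper23): an even permutation is a product of three commutators of involutions.
Author: helper645.
-/

namespace KP23
open Finset Equiv Equiv.Perm

namespace COMM_

lemma swap_sq {X : Type} [DecidableEq X] (a b : X) : swap a b * swap a b = (1 : Perm X) := swap_mul_self a b

lemma swap_inv' {X : Type} [DecidableEq X] (a b : X) : (swap a b)⁻¹ = (swap a b : Perm X) := swap_inv a b

variable {X : Type} [Fintype X] [DecidableEq X]

lemma cube {G : Type} [Group G] (z : G) (h : z ^ 3 = 1) : z = z⁻¹ * z⁻¹ := by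
  calc z = z ^ 3 * (z⁻¹ * z⁻¹) := by group
    _ = z⁻¹ * z⁻¹ := by rw [h, one_mul]

lemma three (p q r : X) (hpq : p ≠ q) (hpr : p ≠ r) :
    (swap p q * swap p r : Perm X) ^ 3 = 1 := by
  by_cases hqr : q = r
  · subst hqr
    rw [swap_sq, one_pow]
  · have h := isThreeCycle_swap_mul_swap_same hpq hpr hqr
    have := pow_orderOf_eq_one (swap p q * swap p r : Perm X)
    rwa [h.orderOf] at this

lemma disj {a b c d : X} (h1 : a ≠ c) (h2 : a ≠ d) (h3 : b ≠ c) (h4 : b ≠ d) :
    (swap a b * swap c d : Perm X) * (swap a b * swap c d) = 1 := by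
  have hd : Equiv.Perm.Disjoint (swap a b) (swap c d) := by
    intro x
    by_cases hx : x = a
    · right
      subst hx
      exact swap_apply_of_ne_of_ne h1 h2
    · by_cases hx' : x = b
      · right
        subst hx'
        exact swap_apply_of_ne_of_ne h3 h4
      · left
        exact swap_apply_of_ne_of_ne hx hx'
  have hc : swap c d * swap a b = swap a b * swap c d := hd.commute.eq.symm
  calc (swap a b * swap c d : Perm X) * (swap a b * swap c d)
      = swap a b * (swap c d * swap a b) * swap c d := by group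
    _ = swap a b * (swap a b * swap c d) * swap c d := by rw [hc]
    _ = (swap a b * swap a b) * (swap c d * swap c d) := by group
    _ = 1 := by rw [swap_sq, swap_sq, one_mul]

lemma mid (hE : ST_EVI) {a b c d : X} (hab : a ≠ b) (hcd : c ≠ d) :
    ∃ x y : Perm X, x * x = 1 ∧ y * y = 1 ∧ swap a b * swap c d = cm x y := by
  by_cases hz : (swap a b * swap c d : Perm X) * (swap a b * swap c d) = 1
  · refine hE X _ hz ?_
    rw [Perm.sign_mul, sign_swap hab, sign_swap hcd]
    rfl
  · refine ⟨swap c d, swap a b, swap_sq c d, swap_sq a b, ?_⟩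
    have h3 : (swap a b * swap c d : Perm X) ^ 3 = 1 := by
      by_cases h1 : a = c
      · subst h1
        exact three a b d hab hcd
      by_cases h2 : a = d
      · subst h2
        rw [swap_comm c a]
        exact three a b c hab h1
      by_cases h4 : b = c
      · subst h4
        rw [swap_comm a b]
        exact three b a d (Ne.symm hab) hcd
      by_cases h5 : b = d
      · subst h5
        rw [swap_comm a b, swap_comm c b]
        exact three b a c (Ne.symm hab) h4
      exact absurd (disj h1 h2 h4 h5) hz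
    unfold cm
    rw [swap_inv', swap_inv']
    have h6 : (swap c d * swap a b : Perm X) = (swap a b * swap c d)⁻¹ := by
      rw [mul_inv_rev, swap_inv', swap_inv']
    calc (swap a b * swap c d : Perm X)
        = (swap a b * swap c d)⁻¹ * (swap a b * swap c d)⁻¹ := cube _ h3
      _ = swap c d * swap a b * swap c d * swap a b := by
          rw [← h6]; simp only [mul_assoc]

/-- an odd involution is an even involution times a transposition -/
lemma split {s : Perm X} (hs : s * s = 1) (h : sign s = -1) :
    ∃ (a b : X) (s' : Perm X), a ≠ b ∧ s' * s' = 1 ∧ sign s' = 1 ∧ s = s' * swap a b ∧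
      s = swap a b * s' := by
  have h1 : s ≠ 1 := by
    rintro rfl
    rw [Perm.sign_one] at h
    exact absurd h (by decide)
  obtain ⟨a, ha⟩ : ∃ a, s a ≠ a := by
    by_contra hc
    push Not at hc
    exact h1 (Equiv.ext hc)
  have hsa : s (s a) = a := by
    have := congrArg (fun f : Perm X => f a) hs
    simpa using this
  have hc : s * swap a (s a) = swap a (s a) * s := by
    have h2 := Equiv.mul_swap_eq_swap_mul s a (s a)
    rw [h2, hsa, swap_comm]
  refine ⟨a, s a, s * swap a (s a), Ne.symm ha, ?_, ?_, ?_, ?_⟩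
  · calc s * swap a (s a) * (s * swap a (s a))
        = s * (swap a (s a) * s) * swap a (s a) := by group
      _ = s * (s * swap a (s a)) * swap a (s a) := by rw [hc]
      _ = (s * s) * (swap a (s a) * swap a (s a)) := by group
      _ = 1 := by rw [hs, swap_sq, one_mul]
  · rw [Perm.sign_mul, h, sign_swap (Ne.symm ha)]
    rfl
  · rw [mul_assoc, swap_sq, mul_one]
  · rw [hc, ← mul_assoc, swap_sq, one_mul]

end COMM_

open COMM_ in
theorem COMM (hI : ST_INV) (hE : ST_EVI) : ST_COMM := by
  intro X _ _ g hg
  obtain ⟨s, t, hs, ht, rfl⟩ := hI X g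
  rw [Perm.sign_mul] at hg
  have hst : sign t = sign s := by
    have := eq_inv_of_mul_eq_one_right hg
    rw [this, Int.units_inv_eq_self]
  rcases Int.units_eq_one_or (sign s) with h | h
  · obtain ⟨x1, y1, a1, b1, c1⟩ := hE X s hs h
    obtain ⟨x2, y2, a2, b2, c2⟩ := hE X t ht (hst.trans h)
    refine ⟨![x1, 1, x2], ![y1, 1, y2], ?_, ?_⟩
    · intro k
      fin_cases k
      · exact ⟨a1, b1⟩
      · exact ⟨one_mul 1, one_mul 1⟩
      · exact ⟨a2, b2⟩
    · show s * t = cm x1 y1 * cm 1 1 * cm x2 y2
      rw [← c1, ← c2]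
      simp [cm]
  · obtain ⟨a, b, s', hab, hs', es, ess, -⟩ := split hs h
    obtain ⟨c, d, t', hcd, ht', et, -, ett⟩ := split ht (hst.trans h)
    obtain ⟨x1, y1, a1, b1, c1⟩ := hE X s' hs' es
    obtain ⟨x2, y2, a2, b2, c2⟩ := hE X t' ht' et
    obtain ⟨x3, y3, a3, b3, c3⟩ := mid hE hab hcd
    refine ⟨![x1, x3, x2], ![y1, y3, y2], ?_, ?_⟩
    · intro k
      fin_cases k
      · exact ⟨a1, b1⟩
      · exact ⟨a3, b3⟩
      · exact ⟨a2, b2⟩
    · show s * t = cm x1 y1 * cm x3 y3 * cm x2 y2
      rw [← c1, ← c2, ← c3]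
      calc s * t = (s' * swap a b) * (swap c d * t') := by rw [← ess, ← ett]
        _ = s' * (swap a b * swap c d) * t' := by group

end KP23
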