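import Pool.Agent.N23.KP.Stm

/-!
Project KP: an even involution is a commutator of two involutions.
-/

set_option autoImplicit false

namespace KP23
open Finset Equiv Equiv.Perm

theorem EVI_cm {G : Type} [Group G] {s t x y : G} (h1 : Commute s x) (h2 : Commute s y)
    (h3 : Commute t x) (h4 : Commute t y) : cm (s * x) (t * y) = cm s t * cm x y := by
  unfold cm
  have e1 : s * x * (t * y) = s * t * (x * y) := by
    rw [mul_assoc s x, ← mul_assoc x t, ← h3.eq, mul_assoc t, ← mul_assoc s]
  have e2 : (s * x)⁻¹ = s⁻¹ * x⁻¹ := by rw [h1.eq, mul_inv_rev]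
  have e3 : (t * y)⁻¹ = t⁻¹ * y⁻¹ := by rw [h4.eq, mul_inv_rev]
  rw [e1, e2, e3]
  have c1 : Commute s⁻¹ (x * y) := (h1.mul_right h2).inv_left
  have c2 : Commute t⁻¹ (x * y * x⁻¹) :=
    ((h3.mul_right h4).mul_right h3.inv_right).inv_left
  calc s * t * (x * y) * (s⁻¹ * x⁻¹) * (t⁻¹ * y⁻¹)
      = s * t * ((x * y) * s⁻¹) * x⁻¹ * (t⁻¹ * y⁻¹) := by group
    _ = s * t * (s⁻¹ * (x * y)) * x⁻¹ * (t⁻¹ * y⁻¹) := by rw [c1.eq]
    _ = s * t * s⁻¹ * ((x * y * x⁻¹) * t⁻¹) * y⁻¹ := by group
    _ = s * t * s⁻¹ * (t⁻¹ * (x * y * x⁻¹)) * y⁻¹ := by rw [c2.eq]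
    _ = s * t * s⁻¹ * t⁻¹ * (x * y * x⁻¹ * y⁻¹) := by group

theorem EVI_aux (X : Type) [Fintype X] [DecidableEq X] : ∀ (n : ℕ) (g : Perm X),
    #g.support ≤ n → g * g = 1 → sign g = 1 →
    ∃ x y : Perm X, x * x = 1 ∧ y * y = 1 ∧ g = cm x y ∧ ∀ z, g z = z → x z = z ∧ y z = z := by
  intro n
  induction n with
  | zero =>
    intro g hg _ _
    have h1 : g = 1 := by
      rw [← support_eq_empty_iff, ← card_eq_zero]
      omega
    subst h1
    exact ⟨1, 1, by simp, by simp, by simp [cm], fun z _ => ⟨rfl, rfl⟩⟩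
  | succ n ih =>
    intro g hg hgg hs
    by_cases h1 : g = 1
    · subst h1
      exact ⟨1, 1, by simp, by simp, by simp [cm], fun z _ => ⟨rfl, rfl⟩⟩
    have hinv : ∀ z, g (g z) = z := fun z => by
      have := congrArg (fun f : Perm X => f z) hgg
      simpa using this
    obtain ⟨a, ha⟩ : ∃ a, g a ≠ a := by
      by_contra hc
      push Not at hc
      exact h1 (Equiv.ext hc)
    set b := g a with hb
    have hgb : g b = a := hinv a
    have h2 : swap a b * g ≠ 1 := by
      intro h
      have h3 := congrArg sign h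
      rw [map_mul, sign_swap (Ne.symm ha), hs, map_one] at h3
      exact absurd h3 (by decide)
    obtain ⟨c, hc⟩ : ∃ c, (swap a b * g) c ≠ c := by
      by_contra hc
      push Not at hc
      exact h2 (Equiv.ext hc)
    rw [Perm.mul_apply] at hc
    have hca : c ≠ a := by
      rintro rfl
      apply hc
      rw [← hb, swap_apply_right]
    have hcb : c ≠ b := by
      rintro rfl
      apply hc
      rw [hgb, swap_apply_left]
    set d := g c with hd
    have hgd : g d = c := hinv c
    have hda : d ≠ a := by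
      intro h
      apply hcb
      rw [hb, ← h, hgd]
    have hdb : d ≠ b := by
      intro h
      apply hca
      rw [← hgb, ← h, hgd]
    have hdc : d ≠ c := by
      intro h
      apply hc
      rw [h, swap_apply_of_ne_of_ne hca hcb]
    -- the remaining involution
    set g2 : Perm X := swap c d * swap a b * g with hg2
    have v_a : g2 a = a := by
      rw [hg2, Perm.mul_apply, Perm.mul_apply, ← hb, swap_apply_right,
        swap_apply_of_ne_of_ne (Ne.symm hca) (Ne.symm hda)]
    have v_b : g2 b = b := by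
      rw [hg2, Perm.mul_apply, Perm.mul_apply, hgb, swap_apply_left,
        swap_apply_of_ne_of_ne (Ne.symm hcb) (Ne.symm hdb)]
    have v_c : g2 c = c := by
      rw [hg2, Perm.mul_apply, Perm.mul_apply, ← hd, swap_apply_of_ne_of_ne hda hdb,
        swap_apply_right]
    have v_d : g2 d = d := by
      rw [hg2, Perm.mul_apply, Perm.mul_apply, hgd, swap_apply_of_ne_of_ne hca hcb,
        swap_apply_left]
    have v_z : ∀ z, z ≠ a → z ≠ b → z ≠ c → z ≠ d → g2 z = g z := by
      intro z h3 h4 h5 h6
      have h7 : g z ≠ a := fun h => h4 (by rw [← hinv z, h])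
      have h8 : g z ≠ b := fun h => h3 (by rw [← hinv z, h, hgb])
      have h9 : g z ≠ c := fun h => h6 (by rw [← hinv z, h])
      have h10 : g z ≠ d := fun h => h5 (by rw [← hinv z, h, hgd])
      rw [hg2, Perm.mul_apply, Perm.mul_apply, swap_apply_of_ne_of_ne h7 h8,
        swap_apply_of_ne_of_ne h9 h10]
    have w_z : ∀ z, g z = z → g2 z = z := by
      intro z hz
      by_cases h3 : z = a
      · rw [h3, v_a]
      by_cases h4 : z = b
      · rw [h4, v_b]
      by_cases h5 : z = c
      · rw [h5, v_c]
      by_cases h6 : z = d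
      · rw [h6, v_d]
      rw [v_z z h3 h4 h5 h6, hz]
    have hsup : #g2.support < #g.support := by
      apply card_lt_card
      rw [ssubset_iff_of_subset]
      · refine ⟨a, ?_, ?_⟩
        · rw [mem_support]
          exact ha
        · rw [mem_support, not_not]
          exact v_a
      · intro z hz
        rw [mem_support] at hz ⊢
        exact fun h => hz (w_z z h)
    have hsq : g2 * g2 = 1 := by
      ext z
      rw [Perm.mul_apply, Perm.one_apply]
      by_cases h3 : z = a
      · rw [h3, v_a, v_a]
      by_cases h4 : z = b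
      · rw [h4, v_b, v_b]
      by_cases h5 : z = c
      · rw [h5, v_c, v_c]
      by_cases h6 : z = d
      · rw [h6, v_d, v_d]
      have h7 : g z ≠ a := fun h => h4 (by rw [← hinv z, h])
      have h8 : g z ≠ b := fun h => h3 (by rw [← hinv z, h, hgb])
      have h9 : g z ≠ c := fun h => h6 (by rw [← hinv z, h])
      have h10 : g z ≠ d := fun h => h5 (by rw [← hinv z, h, hgd])
      rw [v_z z h3 h4 h5 h6, v_z _ h7 h8 h9 h10, hinv]
    have hs2 : sign g2 = 1 := by
      rw [hg2, map_mul, map_mul, sign_swap (Ne.symm hdc), sign_swap (Ne.symm ha), hs]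
      decide
    obtain ⟨x, y, hx, hy, hxy, hfix⟩ := ih g2 (by omega) hsq hs2
    have xa := hfix a v_a
    have xb := hfix b v_b
    have xc := hfix c v_c
    have xd := hfix d v_d
    have dj : ∀ (p q : X) (f : Perm X), f p = p → f q = q → Commute (swap p q) f := by
      intro p q f hp hq
      apply Disjoint.commute
      intro z
      by_cases h3 : z = p
      · right
        rw [h3, hp]
      by_cases h4 : z = q
      · right
        rw [h4, hq]
      left
      exact swap_apply_of_ne_of_ne h3 h4
    set t : Perm X := swap a c * swap b d with ht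
    have c1 := dj a b x xa.1 xb.1
    have c2 := dj a b y xa.2 xb.2
    have c3 : Commute t x := (dj a c x xa.1 xc.1).mul_left (dj b d x xb.1 xd.1)
    have c4 : Commute t y := (dj a c y xa.2 xc.2).mul_left (dj b d y xb.2 xd.2)
    have c5 : Commute (swap a c) (swap b d) := by
      apply dj a c
      · exact swap_apply_of_ne_of_ne (Ne.symm ha) (Ne.symm hda)
      · exact swap_apply_of_ne_of_ne hcb (Ne.symm hdc)
    have ht2 : t * t = 1 := by
      rw [ht, mul_assoc, ← mul_assoc (swap b d), ← c5.eq, mul_assoc (swap a c) (swap b d),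
        swap_mul_self, mul_one, swap_mul_self]
    have t_a : t a = c := by
      rw [ht, Perm.mul_apply, swap_apply_of_ne_of_ne (Ne.symm ha) (Ne.symm hda), swap_apply_left]
    have t_b : t b = d := by
      rw [ht, Perm.mul_apply, swap_apply_left, swap_apply_of_ne_of_ne hda hdc]
    have hcm : cm (swap a b) t = swap a b * swap c d := by
      unfold cm
      rw [swap_inv, mul_assoc (swap a b), mul_swap_eq_swap_mul, t_a, t_b, mul_assoc, mul_assoc,
        mul_inv_cancel, mul_one]
    refine ⟨swap a b * x, t * y, ?_, ?_, ?_, ?_⟩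
    · rw [c1.symm.mul_mul_mul_comm, hx, mul_one, swap_mul_self]
    · rw [c4.symm.mul_mul_mul_comm, hy, mul_one, ht2]
    · rw [EVI_cm c1 c2 c3 c4, ← hxy, hcm, hg2]
      rw [mul_assoc (swap c d), mul_assoc (swap a b), ← mul_assoc (swap c d) (swap c d),
        swap_mul_self, one_mul, ← mul_assoc, swap_mul_self, one_mul]
    · intro z hz
      have za : z ≠ a := fun h => ha (by rw [hb, ← h, hz])
      have zb : z ≠ b := by
        intro h
        apply za
        rw [← hgb, ← h, hz]
      have zc : z ≠ c := by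
        intro h
        apply hdc
        rw [hd, ← h, hz]
      have zd : z ≠ d := by
        intro h
        apply zc
        rw [← hgd, ← h, hz]
      obtain ⟨h3, h4⟩ := hfix z (w_z z hz)
      constructor
      · rw [Perm.mul_apply, h3, swap_apply_of_ne_of_ne za zb]
      · rw [Perm.mul_apply, h4, ht, Perm.mul_apply, swap_apply_of_ne_of_ne zb zd,
          swap_apply_of_ne_of_ne za zc]

/-- **EVI** -/
theorem EVI : ST_EVI := by
  intro X _ _ g hg hs
  obtain ⟨x, y, hx, hy, h, -⟩ := EVI_aux X _ g le_rfl hg hs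
  exact ⟨x, y, hx, hy, h⟩

end KP23
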