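import Pool.Agent.N23.KP.Stm

/-!
Project KP (helper23): INV, every permutation is a product of two involutions (helper42)
-/

set_option autoImplicit false

namespace KP23
open Finset Equiv Equiv.Perm

section INVs

variable {X : Type} (g : Perm X)

/-- representatives of the cycles -/
noncomputable def INV_rep (x : X) : X := (Quotient.mk (SameCycle.setoid g) x).out

lemma INV_rep_same (x : X) : ∃ k : ℤ, (g ^ k) (INV_rep g x) = x := by
  have h : (SameCycle.setoid g) (INV_rep g x) x := Quotient.mk_out (s := SameCycle.setoid g) x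
  exact h

lemma INV_rep_eq {x y : X} (k : ℤ) (h : (g ^ k) x = y) : INV_rep g y = INV_rep g x := by
  unfold INV_rep
  congr 1
  apply Quotient.sound
  have h1 : SameCycle g x y := ⟨k, h⟩
  exact h1.symm

/-- the reflection -/
noncomputable def INV_t (x : X) : X := (g ^ (-(INV_rep_same g x).choose)) (INV_rep g x)

lemma INV_t_eq (x : X) (k : ℤ) (h : (g ^ k) (INV_rep g x) = x) :
    INV_t g x = (g ^ (-k)) (INV_rep g x) := by
  unfold INV_t
  have h2 := (INV_rep_same g x).choose_spec
  generalize (INV_rep_same g x).choose = m at h2 ⊢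
  generalize INV_rep g x = c at h h2 ⊢
  have h3 : (g ^ (m - k)) c = c := by
    rw [← h] at h2
    rw [sub_eq_neg_add, zpow_add, Perm.mul_apply, h2, ← Perm.mul_apply, ← zpow_add,
      neg_add_cancel, zpow_zero]
    rfl
  calc (g ^ (-m)) c = (g ^ (-m)) ((g ^ (m - k)) c) := by rw [h3]
    _ = (g ^ (-k)) c := by
      rw [← Perm.mul_apply, ← zpow_add]
      congr 2
      ring

lemma INV_t_pow (x : X) (k : ℤ) : INV_t g ((g ^ k) (INV_rep g x)) = (g ^ (-k)) (INV_rep g x) := by
  obtain ⟨m, hm⟩ := INV_rep_same g x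
  have h : INV_rep g ((g ^ k) (INV_rep g x)) = INV_rep g x := by
    have h1 := INV_rep_eq g (x := x) (y := (g ^ k) (INV_rep g x)) (k - m) (by
      nth_rewrite 1 [← hm]
      rw [← Perm.mul_apply, ← zpow_add]
      congr 2
      ring)
    exact h1
  have h2 := INV_t_eq g ((g ^ k) (INV_rep g x)) k (by rw [h])
  rw [h2, h]

end INVs

theorem INV : ST_INV := by
  intro X _ _ g
  have h1 : Function.Involutive (INV_t g) := by
    intro x
    obtain ⟨k, hk⟩ := INV_rep_same g x
    have h := INV_t_pow g x k
    rw [hk] at h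
    rw [h, INV_t_pow, neg_neg, hk]
  have h2 : Function.Involutive (fun x => g (INV_t g x)) := by
    intro x
    obtain ⟨k, hk⟩ := INV_rep_same g x
    have h := INV_t_pow g x k
    rw [hk] at h
    have e : g (INV_t g x) = (g ^ (1 - k)) (INV_rep g x) := by
      rw [h, ← Perm.mul_apply, ← zpow_one_add]
      rfl
    show g (INV_t g (g (INV_t g x))) = x
    rw [e, INV_t_pow, ← Perm.mul_apply, ← zpow_one_add]
    have e2 : 1 + -(1 - k) = k := by ring
    rw [e2, hk]
  refine ⟨h2.toPerm, h1.toPerm, ?_, ?_, ?_⟩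
  · ext x
    exact h2 x
  · ext x
    exact h1 x
  · ext x
    show g x = g (INV_t g (INV_t g x))
    rw [h1 x]

end KP23
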