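import Pool.Agent.N23.KP.Stm

/-!
Project KP (helper23), MP_75608d_al.  ALLN: bounded expanding sets for all `n` (helper395).
-/

namespace KP23
open Finset Equiv Equiv.Perm Filter Topology

/-- from the spectral form (norm at most `1/2`) to the Kazhdan form with constant `4` -/
lemma nb_half_kz {X : Type} [Fintype X] [DecidableEq X] {L : ℕ} (hL : 0 < L) (U : Fin L → Perm X)
    (hU : Nb U (1 / 2)) : KZ U 4 := by
  classical
  refine ⟨hU.1, ?_⟩
  intro E _ _ ρ v η hη h hh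
  -- the average
  set A := alternatingGroup X with hA
  have hcard : (0 : ℝ) < (Fintype.card A : ℝ) := by
    exact_mod_cast Fintype.card_pos
  set a : E := (Fintype.card A : ℝ)⁻¹ • ∑ k : A, ρ (k : Perm X) v with ha
  have hinv : ∀ g : Perm X, sign g = 1 → ρ g a = a := by
    intro g hg
    have hgA : g ∈ A := by rw [hA, mem_alternatingGroup]; exact hg
    rw [ha, map_smul, map_sum]
    congr 1
    have h1 : ∀ k : A, ρ g (ρ (k : Perm X) v) = ρ (((⟨g, hgA⟩ : A) * k : A) : Perm X) v := by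
      intro k
      rw [Subgroup.coe_mul, map_mul]
      rfl
    rw [Finset.sum_congr rfl (fun k _ => h1 k)]
    exact Fintype.sum_equiv (Equiv.mulLeft (⟨g, hgA⟩ : A)) _ _ (fun k => rfl)
  have hsum : ∑ k : A, ρ (k : Perm X) (v - a) = 0 := by
    have h1 : ∀ k : A, ρ (k : Perm X) (v - a) = ρ (k : Perm X) v - a := by
      intro k
      rw [map_sub, hinv _ (mem_alternatingGroup.1 k.2)]
    rw [Finset.sum_congr rfl (fun k _ => h1 k), Finset.sum_sub_distrib, Finset.sum_const,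
      Finset.card_univ, ← Nat.cast_smul_eq_nsmul ℝ, ha, smul_smul, mul_inv_cancel₀ hcard.ne',
      one_smul, sub_self]
  have hN := hU.2 E ρ (v - a) hsum
  rw [Fintype.card_fin] at hN
  have hdiff : ∀ i, ρ (U i) (v - a) - (v - a) = ρ (U i) v - v := by
    intro i
    rw [map_sub, hinv _ (hU.1 i)]
    abel
  have h2 : ‖∑ i, (ρ (U i) (v - a) - (v - a))‖ ≤ (L : ℝ) * η := by
    refine (norm_sum_le _ _).trans ?_
    calc ∑ i, ‖ρ (U i) (v - a) - (v - a)‖ ≤ ∑ _i : Fin L, η :=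
          Finset.sum_le_sum fun i _ => by rw [hdiff]; exact hη i
      _ = (L : ℝ) * η := by simp
  have h3 : (L : ℝ) * ‖v - a‖ ≤ ‖∑ i, ρ (U i) (v - a)‖ +
      ‖∑ i, (ρ (U i) (v - a) - (v - a))‖ := by
    have h4 : (L : ℝ) • (v - a) = ∑ i, ρ (U i) (v - a) - ∑ i, (ρ (U i) (v - a) - (v - a)) := by
      rw [Finset.sum_sub_distrib, sub_sub_cancel, Finset.sum_const, Finset.card_univ,
        Fintype.card_fin, Nat.cast_smul_eq_nsmul ℝ]
    have h5 : ‖(L : ℝ) • (v - a)‖ = (L : ℝ) * ‖v - a‖ := by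
      rw [norm_smul, Real.norm_of_nonneg (Nat.cast_nonneg L)]
    rw [← h5, h4]
    exact norm_sub_le _ _
  have hLpos : (0 : ℝ) < L := by exact_mod_cast hL
  have h6 : ‖v - a‖ ≤ 2 * η := by
    have h7 : (L : ℝ) * ‖v - a‖ ≤ (L : ℝ) * (1 / 2 * ‖v - a‖ + η) := by
      calc (L : ℝ) * ‖v - a‖ ≤ 1 / 2 * (L : ℝ) * ‖v - a‖ + (L : ℝ) * η := by linarith
        _ = (L : ℝ) * (1 / 2 * ‖v - a‖ + η) := by ring
    have h8 := le_of_mul_le_mul_left h7 hLpos
    linarith
  have h9 : ρ h v - v = ρ h (v - a) - (v - a) := by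
    rw [map_sub, hinv _ hh]
    abel
  rw [h9]
  calc ‖ρ h (v - a) - (v - a)‖ ≤ ‖ρ h (v - a)‖ + ‖v - a‖ := norm_sub_le _ _
    _ = 2 * ‖v - a‖ := by rw [(ρ h).norm_map]; ring
    _ ≤ 4 * η := by linarith

/-- translation of a near-invariance -/
lemma NIon.conj {X : Type} [Fintype X] [DecidableEq X] {E : Type} [NormedAddCommGroup E]
    [InnerProductSpace ℝ E] {ρ : Perm X →* (E ≃ₗᵢ[ℝ] E)} {v : E} {Δ : Finset X} {η η' : ℝ}
    (h : NIon ρ v Δ η) (σ : Perm X) (hσ : ‖ρ σ v - v‖ ≤ η') :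
    NIon ρ v (Δ.map σ.toEmbedding) (η + 2 * η') := by
  intro g hg hfix
  have h1 : ‖ρ (σ⁻¹ * g * σ) v - v‖ ≤ η := by
    apply h
    · rw [map_mul, map_mul, hg, mul_one, sign_inv]
      exact Int.units_mul_self _
    · intro x hx
      have h2 : σ x ∉ Δ.map σ.toEmbedding := by
        intro hc
        rw [Finset.mem_map] at hc
        obtain ⟨y, hy, hyx⟩ := hc
        have : y = x := σ.injective hyx
        exact hx (this ▸ hy)
      rw [Perm.mul_apply, Perm.mul_apply, hfix _ h2]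
      simp
  have h3 := disp_conj' ρ v (σ⁻¹ * g * σ) σ
  have h4 : σ * (σ⁻¹ * g * σ) * σ⁻¹ = g := by group
  rw [h4] at h3
  linarith

theorem ALLN (hR : ST_REC) (hE : ST_EXT) : ST_ALLN := by
  obtain ⟨q, L₀, hq, hL₀, hU⟩ := hR
  refine ⟨L₀ + 1, 14, 4 * q, by norm_num, ?_⟩
  intro n hn
  -- the level
  have hn4 : q ≤ n / 4 := by omega
  have hn4pos : n / 4 ≠ 0 := by omega
  set J := Nat.log q (n / 4) with hJ
  have hJ1 : 1 ≤ J := by
    have := Nat.log_pos (b := q) (by omega) hn4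
    omega
  have hlow : q ^ J ≤ n / 4 := Nat.pow_log_le_self q hn4pos
  have hup : n / 4 < q ^ (J + 1) := Nat.lt_pow_succ_log_self (by omega) _
  have hqJ : 0 < q ^ J := Nat.pow_pos (by omega)
  set m := n / q ^ J with hm
  have hm4 : 4 ≤ m := by
    rw [hm, Nat.le_div_iff_mul_le hqJ]
    omega
  have hmq : m < 4 * q := by
    rw [hm, Nat.div_lt_iff_lt_mul hqJ]
    have : q ^ (J + 1) = q * q ^ J := by ring
    rw [this] at hup
    nlinarith [Nat.div_add_mod n 4, Nat.mod_lt n (show 4 > 0 by norm_num)]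
  have hJJ : J - 1 + 1 = J := by omega
  obtain ⟨n₀, hn₀, U, hUN⟩ : ∃ n₀ : ℕ, n₀ = m * q ^ (J - 1 + 1) ∧
      ∃ U : Fin L₀ → Perm (Fin n₀), Nb U (1 / 2) := ⟨_, rfl, hU m hm4 hmq (J - 1)⟩
  have hn₀' : n₀ = m * q ^ J := by rw [hn₀, hJJ]
  have hle : n₀ ≤ n := by rw [hn₀', hm]; exact Nat.div_mul_le_self n _
  have hk : n - n₀ < q ^ J := by
    have h1 := Nat.div_add_mod n (q ^ J)
    have h2 := Nat.mod_lt n hqJ
    rw [← hm] at h1
    have h3 : q ^ J * m = n₀ := by rw [hn₀']; ring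
    rw [h3] at h1
    omega
  have h4n₀ : 4 * q ^ J ≤ n₀ := by rw [hn₀']; exact Nat.mul_le_mul_right _ hm4
  set k := n - n₀ with hkdef
  have hkk : 4 * k + 4 ≤ n₀ := by omega
  have hnk : n = n₀ + k := by omega
  have : NeZero n := ⟨by omega⟩
  let e : Fin n₀ ↪ Fin n := Fin.castLEEmb hle
  have he : ∀ i, (e i).val = i.val := fun i => rfl
  let τ : Perm (Fin n) := Equiv.addRight (Fin.ofNat n k)
  let σ : Perm (Fin n) := τ * τ
  have hσsign : sign σ = 1 := by
    change sign (τ * τ) = 1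
    rw [map_mul]
    exact Int.units_mul_self _
  have hKZ := nb_half_kz hL₀ U hUN
  refine ⟨Fin.cons σ fun i => embP e (U i), ?_, ?_⟩
  · intro i
    refine Fin.cases ?_ ?_ i
    · exact hσsign
    · intro i
      rw [Fin.cons_succ, sign_embP]
      exact hUN.1 i
  intro E _ _ ρ v η hη h hh
  have hσd : ‖ρ σ v - v‖ ≤ η := hη 0
  have hUd : ∀ i, ‖ρ (embP e (U i)) v - v‖ ≤ η := fun i => hη i.succ
  set Δ₁ : Finset (Fin n) := univ.map e with hΔ₁
  have hmem : ∀ x : Fin n, x ∈ Δ₁ ↔ x.val < n₀ := by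
    intro x
    rw [hΔ₁, Finset.mem_map]
    constructor
    · rintro ⟨y, -, rfl⟩
      rw [he]; exact y.2
    · intro hx
      exact ⟨⟨x.val, hx⟩, Finset.mem_univ _, rfl⟩
  have hN1 : NIon ρ v Δ₁ (4 * η) := by
    intro g hg hfix
    obtain ⟨w, hw⟩ := exists_embP e g (fun y hy => hfix y (by
      rw [hΔ₁, Finset.mem_map]
      rintro ⟨z, -, rfl⟩
      exact hy ⟨z, rfl⟩))
    have h1 := hKZ.2 E (ρ.comp (embP e)) v η hUd w (by rw [← hg, ← hw, sign_embP])
    rw [← hw]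
    exact h1
  have hN2 : NIon ρ v (Δ₁.map σ.toEmbedding) (4 * η + 2 * η) := hN1.conj σ hσd
  have hcomp : ∀ x : Fin n, x ∉ Δ₁ → x ∈ Δ₁.map σ.toEmbedding := by
    intro x hx
    rw [hmem] at hx
    have hxn := x.2
    rw [Finset.mem_map]
    refine ⟨⟨x.val - 2 * k, by omega⟩, ?_, ?_⟩
    · rw [hmem]; dsimp only; omega
    · apply Fin.ext
      change (((⟨x.val - 2 * k, by omega⟩ : Fin n) + Fin.ofNat n k) + Fin.ofNat n k).val = x.val
      have h1 : (Fin.ofNat n k).val = k := by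
        change k % n = k
        exact Nat.mod_eq_of_lt (by omega)
      rw [Fin.val_add, Fin.val_add, h1]
      dsimp only
      rw [Nat.mod_eq_of_lt (a := x.val - 2 * k + k) (by omega), Nat.mod_eq_of_lt (by omega)]
      omega
  have hcard1 : #Δ₁ = n₀ := by rw [hΔ₁, Finset.card_map, Finset.card_univ, Fintype.card_fin]
  have hcard2 : #(Δ₁.map σ.toEmbedding) = n₀ := by rw [Finset.card_map, hcard1]
  have hsd : #((Δ₁.map σ.toEmbedding) \ Δ₁) ≤ k := by
    have h1 : (Δ₁.map σ.toEmbedding) \ Δ₁ ⊆ univ \ Δ₁ :=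
      Finset.sdiff_subset_sdiff (Finset.subset_univ _) (le_refl _)
    have h2 := Finset.card_le_card h1
    rw [Finset.card_sdiff_of_subset (Finset.subset_univ _), Finset.card_univ, Fintype.card_fin,
      hcard1] at h2
    exact h2
  have hint : #(Δ₁ ∩ (Δ₁.map σ.toEmbedding)) + #((Δ₁.map σ.toEmbedding) \ Δ₁) = n₀ := by
    rw [Finset.inter_comm, Finset.card_inter_add_card_sdiff, hcard2]
  have hN3 := hE (Fin n) Δ₁ (Δ₁.map σ.toEmbedding) (by omega) E ρ v (4 * η) (4 * η + 2 * η) hN1 hN2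
  have := hN3 h hh (by
    intro x hx
    exfalso
    rw [Finset.mem_union, not_or] at hx
    exact hx.2 (hcomp x hx.1))
  linarith

end KP23
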