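import Pool.Agent.N23.KP.Stm

/-!
Project KP (helper23): ARR, arrangement of the labels (by helper999).
-/

set_option autoImplicit false

namespace KP23
open Finset Equiv Equiv.Perm

/-- a permutation which maps one injective family to another -/
theorem exists_perm_of_inj {Q T : Type} [Fintype Q] [DecidableEq Q] (g g' : T → Q)
    (hg : Function.Injective g) (hg' : Function.Injective g') :
    ∃ k : Perm Q, (∀ t, k (g t) = g' t) ∧ ∀ x, x ∉ Set.range g → k x ∉ Set.range g' := by
  classical
  let e : {x // x ∈ Set.range g} ≃ {x // x ∈ Set.range g'} :=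
    (Equiv.ofInjective g hg).symm.trans (Equiv.ofInjective g' hg')
  refine ⟨e.extendSubtype, fun t => ?_, fun x hx => e.extendSubtype_not_mem x hx⟩
  rw [Equiv.extendSubtype_apply_of_mem e (g t) ⟨t, rfl⟩]
  have h1 : (Equiv.ofInjective g hg).symm ⟨g t, ⟨t, rfl⟩⟩ = t :=
    (Equiv.ofInjective g hg).symm_apply_apply t
  change ((Equiv.ofInjective g' hg' ((Equiv.ofInjective g hg).symm ⟨g t, ⟨t, rfl⟩⟩) :
    Set.range g') : Q) = g' t
  rw [h1]
  rfl

/-- an injection with prescribed labels -/
theorem exists_emb_lab {Q Λ : Type} [Fintype Q] [DecidableEq Q] [Fintype Λ] [DecidableEq Λ]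
    (lab : Q → Option Λ) (M₀ r : ℕ) (l : Fin r → Λ)
    (h1 : ∀ a, #(univ.filter fun j => lab j = some a) = M₀)
    (h2 : ∀ a, #(univ.filter fun i => l i = a) ≤ M₀) :
    ∃ e : Fin r → Q, Function.Injective e ∧ ∀ i, lab (e i) = some (l i) := by
  classical
  have h3 : ∀ a, Nonempty ({i // l i = a} ↪ {j // lab j = some a}) := by
    intro a
    apply Function.Embedding.nonempty_of_card_le
    rw [Fintype.card_subtype, Fintype.card_subtype, h1]
    exact h2 a
  let emb : ∀ a, ({i // l i = a} ↪ {j // lab j = some a}) := fun a => (h3 a).some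
  have hemb : ∀ (i : Fin r) (a : Λ) (h : l i = a),
      ((emb (l i) ⟨i, rfl⟩ : {j // lab j = some (l i)}) : Q) = emb a ⟨i, h⟩ := by
    rintro i _ rfl
    rfl
  refine ⟨fun i => emb (l i) ⟨i, rfl⟩, fun i i' hii => ?_, fun i => (emb (l i) ⟨i, rfl⟩).2⟩
  have e1 : l i = l i' := by
    have a1 := (emb (l i) ⟨i, rfl⟩).2
    have a2 := (emb (l i') ⟨i', rfl⟩).2
    simp only at hii
    rw [hii, a2] at a1
    exact (Option.some.inj a1).symm
  simp only at hii
  rw [hemb i (l i') e1] at hii
  have e2 := (emb (l i')).injective (Subtype.ext hii)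
  exact congrArg Subtype.val e2

theorem ARR : ST_ARR := by
  classical
  intro Q Λ _ _ _ _ lab M₀ r J l J₁ hM hl hJ hc hQ
  obtain ⟨e, he, hel⟩ := exists_emb_lab lab M₀ r l hM hl
  obtain ⟨NT, hNT⟩ : ∃ NT : Finset Q, ∀ j, j ∈ NT ↔ lab j ≠ none :=
    ⟨univ.filter fun j => lab j ≠ none, fun j => by simp⟩
  have hNTc : #NT = Fintype.card Λ * M₀ := by
    have h1 : ∀ j ∈ NT, lab j ∈ (univ.image (some : Λ → Option Λ)) := by
      intro j hj
      rw [hNT] at hj
      obtain ⟨a, ha⟩ := Option.ne_none_iff_exists'.1 hj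
      rw [ha]
      exact mem_image_of_mem _ (mem_univ _)
    rw [card_eq_sum_card_fiberwise h1, sum_image (fun a _ b _ h => Option.some.inj h)]
    have h2 : ∀ a : Λ, #(NT.filter fun j => lab j = some a) = M₀ := by
      intro a
      rw [← hM a]
      congr 1
      ext j
      simp only [mem_filter, mem_univ, true_and, hNT]
      constructor
      · exact fun h => h.2
      · intro h
        exact ⟨by rw [h]; simp, h⟩
    rw [sum_congr rfl fun a _ => h2 a, sum_const, card_univ, smul_eq_mul]
  have heNT : ∀ i, e i ∈ NT := fun i => (hNT _).2 (by rw [hel]; simp)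
  -- the remaining labels
  have hrest : #J₁ = #(NT \ univ.image e) := by
    rw [card_sdiff_of_subset (by
      intro x hx
      obtain ⟨i, _, rfl⟩ := mem_image.1 hx
      exact heNT i), card_image_of_injective _ he, hNTc, card_univ, Fintype.card_fin]
    omega
  let q : J₁ ≃ (NT \ univ.image e : Finset Q) := Finset.equivOfCardEq hrest
  let g : Fin r ⊕ J₁ → Q := Sum.elim J (fun x => (x : Q))
  let g' : Fin r ⊕ J₁ → Q := Sum.elim e (fun x => ((q x : (NT \ univ.image e : Finset Q)) : Q))
  have hg : Function.Injective g := by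
    apply Function.Injective.sumElim J.injective Subtype.val_injective
    intro i x h
    exact hJ i (by rw [h]; exact x.2)
  have hg' : Function.Injective g' := by
    apply Function.Injective.sumElim he (Subtype.val_injective.comp q.injective)
    intro i x h
    have h1 := (mem_sdiff.1 (q x).2).2
    exact h1 (mem_image.2 ⟨i, mem_univ _, h⟩)
  have hrange : ∀ j, lab j ≠ none → j ∈ Set.range g' := by
    intro j hj
    have h1 : (univ : Finset (Fin r ⊕ J₁)).image g' = NT := by
      apply eq_of_subset_of_card_le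
      · intro x hx
        obtain ⟨t, _, rfl⟩ := mem_image.1 hx
        rcases t with i | x
        · exact heNT i
        · exact (mem_sdiff.1 (q x).2).1
      · rw [card_image_of_injective _ hg', card_univ, Fintype.card_sum, Fintype.card_fin,
          Fintype.card_coe, hNTc]
        omega
    have h2 : j ∈ (univ : Finset (Fin r ⊕ J₁)).image g' := by
      rw [h1, hNT]
      exact hj
    obtain ⟨t, _, ht⟩ := mem_image.1 h2
    exact ⟨t, ht⟩
  obtain ⟨k, hk1, hk2⟩ := exists_perm_of_inj g g' hg hg'
  have hkJ : ∀ i, lab (k (J i)) = some (l i) := by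
    intro i
    have := hk1 (Sum.inl i)
    change k (J i) = e i at this
    rw [this, hel]
  have hkn : ∀ j, j ∉ Set.range J → j ∉ J₁ → lab (k j) = none := by
    intro j h1 h2
    by_contra h3
    refine hk2 j ?_ (hrange _ h3)
    rintro ⟨t, ht⟩
    rcases t with i | x
    · exact h1 ⟨i, ht⟩
    · apply h2
      rw [← ht]
      exact x.2
  by_cases hsgn : sign k = 1
  · exact ⟨k, hsgn, hkJ, hkn⟩
  · have hsgn' : sign k = -1 := by
      rcases Int.units_eq_one_or (sign k) with h | h
      · exact absurd h hsgn
      · exact h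
    -- two points outside
    have hout : 1 < #(univ \ (univ.image J ∪ J₁)) := by
      rw [card_sdiff_of_subset (subset_univ _), card_univ]
      have h1 : #(univ.image J ∪ J₁) ≤ r + #J₁ := by
        refine (card_union_le _ _).trans ?_
        rw [card_image_of_injective _ J.injective, card_univ, Fintype.card_fin]
      omega
    obtain ⟨a, ha, b, hb, hab⟩ := one_lt_card.1 hout
    have hmem : ∀ x, x ∈ univ \ (univ.image J ∪ J₁) ↔ x ∉ Set.range J ∧ x ∉ J₁ := by
      intro x
      simp only [mem_sdiff, mem_univ, true_and, mem_union, mem_image, not_or, Set.mem_range]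
    rw [hmem] at ha hb
    refine ⟨k * swap a b, ?_, fun i => ?_, fun j h1 h2 => ?_⟩
    · rw [map_mul, hsgn', sign_swap hab]
      rfl
    · have h1 : swap a b (J i) = J i :=
        swap_apply_of_ne_of_ne (fun h => ha.1 ⟨i, h⟩) (fun h => hb.1 ⟨i, h⟩)
      rw [Perm.mul_apply, h1, hkJ]
    · rw [Perm.mul_apply]
      rcases eq_or_ne j a with rfl | h3
      · rw [swap_apply_left]
        exact hkn b hb.1 hb.2
      · rcases eq_or_ne j b with rfl | h4
        · rw [swap_apply_right]
          exact hkn a ha.1 ha.2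
        · rw [swap_apply_of_ne_of_ne h3 h4]
          exact hkn j h1 h2

end KP23
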