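import Pool.Agent.N23.KP.Stm

/-!
Project KP (helper23), part AUX (helper56): spectral inequality for a polynomial Cayley graph.
-/

namespace KP23
open Finset

namespace AUXX

noncomputable section

variable {p : ℕ} [Fact p.Prime]

/-- real part of the standard character -/
def C (u : ZMod p) : ℝ := (ZMod.stdAddChar (N := p) u).re
/-- imaginary part of the standard character -/
def S (u : ZMod p) : ℝ := (ZMod.stdAddChar (N := p) u).im

lemma C_zero : C (0 : ZMod p) = 1 := by simp [C]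
lemma S_zero : S (0 : ZMod p) = 0 := by simp [S]

lemma C_sub (u v : ZMod p) : C (u - v) = C u * C v + S u * S v := by
  unfold C S
  rw [sub_eq_add_neg, AddChar.map_add_eq_mul, AddChar.map_neg_eq_conj]
  simp [Complex.mul_re]

lemma sum_char (w : ZMod p) :
    ∑ α : ZMod p, ZMod.stdAddChar (N := p) (α * w) = if w = 0 then (p : ℂ) else 0 := by
  have h := AddChar.sum_mulShift (R := ZMod p) (R' := ℂ) (ψ := ZMod.stdAddChar (N := p)) w
    (ZMod.isPrimitive_stdAddChar p)
  rw [h]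
  split_ifs <;> simp [ZMod.card]

lemma sum_C (w : ZMod p) : ∑ α : ZMod p, C (α * w) = if w = 0 then (p : ℝ) else 0 := by
  have h := congrArg Complex.re (sum_char w)
  rw [Complex.re_sum] at h
  unfold C
  rw [h]
  split_ifs <;> simp

lemma sum_S (w : ZMod p) : ∑ α : ZMod p, S (α * w) = 0 := by
  have h := congrArg Complex.im (sum_char w)
  rw [Complex.im_sum] at h
  unfold S
  rw [h]
  split_ifs <;> simp

variable {s : ℕ}

/-- the scalar product -/
def dot (c i : Ix p s) : ZMod p := ∑ t, c t * i t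

lemma dot_sub (c i j : Ix p s) : dot c (i - j) = dot c i - dot c j := by
  simp [dot, mul_sub, Finset.sum_sub_distrib]

lemma dot_zero_left (i : Ix p s) : dot (0 : Ix p s) i = 0 := by simp [dot]

lemma char_sum (f : Fin s → ZMod p) :
    ZMod.stdAddChar (N := p) (∑ t, f t) = ∏ t, ZMod.stdAddChar (N := p) (f t) := by
  have h := map_prod (ZMod.stdAddChar (N := p)).toMonoidHom
    (fun t => Multiplicative.ofAdd (f t)) (univ : Finset (Fin s))
  rw [← ofAdd_sum] at h
  exact h

lemma sum_dot (d : Ix p s) :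
    ∑ c : Ix p s, C (dot c d) = if d = 0 then (p : ℝ) ^ s else 0 := by
  have h : ∑ c : Ix p s, ZMod.stdAddChar (N := p) (dot c d) =
      if d = 0 then (p : ℂ) ^ s else 0 := by
    have h1 : ∀ c : Ix p s, ZMod.stdAddChar (N := p) (dot c d) =
        ∏ t, ZMod.stdAddChar (N := p) (c t * d t) := by
      intro c
      unfold dot
      exact AUXX.char_sum (fun t => c t * d t)
    simp_rw [h1]
    rw [← Fintype.piFinset_univ, ← Finset.prod_univ_sum (fun _ : Fin s => (univ : Finset (ZMod p)))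
      (fun t u => ZMod.stdAddChar (N := p) (u * d t))]
    simp_rw [sum_char]
    split_ifs with hd
    · subst hd; simp
    · obtain ⟨t, ht⟩ := Function.ne_iff.1 hd
      exact Finset.prod_eq_zero (Finset.mem_univ t) (if_neg ht)
  have h2 := congrArg Complex.re h
  rw [Complex.re_sum] at h2
  unfold C
  rw [h2]
  split_ifs
  · norm_cast
  · simp

/-- the point of the moment curve -/
def mv (s : ℕ) (x : ZMod p) : Ix p s := fun t => x ^ (t : ℕ)

lemma card_roots (c : Ix p s) (hs : 1 ≤ s) (hc : c ≠ 0) :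
    ((univ.filter fun x : ZMod p => dot c (mv s x) = 0).card : ℝ) ≤ (s : ℝ) - 1 := by
  set P : Polynomial (ZMod p) := ∑ t : Fin s, Polynomial.monomial (t : ℕ) (c t) with hP
  have hcoeff : ∀ t : Fin s, P.coeff t = c t := by
    intro t
    rw [hP, Polynomial.finsetSum_coeff]
    simp only [Polynomial.coeff_monomial]
    rw [Finset.sum_eq_single t]
    · simp
    · intro b _ hb
      rw [if_neg]
      intro h
      exact hb (Fin.ext h)
    · intro h; exact absurd (Finset.mem_univ t) h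
  have hP0 : P ≠ 0 := by
    intro h
    apply hc
    funext t
    rw [← hcoeff t, h]; simp
  have hdeg : P.natDegree ≤ s - 1 := by
    rw [hP]
    apply Polynomial.natDegree_sum_le_of_forall_le
    intro t _
    refine (Polynomial.natDegree_monomial_le _).trans ?_
    have := t.2
    omega
  have heval : ∀ x, P.eval x = dot c (mv s x) := by
    intro x
    rw [hP, Polynomial.eval_finsetSum]
    simp [dot, mv, Polynomial.eval_monomial]
  have hsub : (univ.filter fun x : ZMod p => dot c (mv s x) = 0) ⊆ P.roots.toFinset := by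
    intro x hx
    rw [Finset.mem_filter] at hx
    rw [Multiset.mem_toFinset, Polynomial.mem_roots hP0, Polynomial.IsRoot, heval]
    exact hx.2
  have h1 : (univ.filter fun x : ZMod p => dot c (mv s x) = 0).card ≤ s - 1 :=
    (Finset.card_le_card hsub).trans ((Multiset.toFinset_card_le _).trans
      ((Polynomial.card_roots' P).trans hdeg))
  have h2 : ((univ.filter fun x : ZMod p => dot c (mv s x) = 0).card : ℝ) ≤ ((s - 1 : ℕ) : ℝ) := by
    exact_mod_cast h1
  rwa [Nat.cast_sub hs, Nat.cast_one] at h2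

variable {E : Type} [NormedAddCommGroup E] [InnerProductSpace ℝ E]

/-- cosine transform -/
def FC (a : Ix p s → E) (c : Ix p s) : E := ∑ j, C (dot c j) • a j
/-- sine transform -/
def FS (a : Ix p s → E) (c : Ix p s) : E := ∑ j, S (dot c j) • a j

lemma inner_FC (a b : Ix p s → E) (c : Ix p s) :
    (inner ℝ (FC a c) (FC b c) : ℝ) + inner ℝ (FS a c) (FS b c) =
      ∑ i, ∑ j, C (dot c (j - i)) * inner ℝ (a j) (b i) := by
  unfold FC FS
  rw [inner_sum, inner_sum, ← Finset.sum_add_distrib]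
  refine Finset.sum_congr rfl fun i _ => ?_
  rw [sum_inner, sum_inner, ← Finset.sum_add_distrib]
  refine Finset.sum_congr rfl fun j _ => ?_
  rw [real_inner_smul_left, real_inner_smul_right, real_inner_smul_left, real_inner_smul_right,
    dot_sub, C_sub]
  ring

lemma parseval (a : Ix p s → E) :
    ∑ c, (‖FC a c‖ ^ 2 + ‖FS a c‖ ^ 2) = (p : ℝ) ^ s * ∑ i, ‖a i‖ ^ 2 := by
  have h : ∀ c, ‖FC a c‖ ^ 2 + ‖FS a c‖ ^ 2 =
      ∑ i, ∑ j, C (dot c (j - i)) * inner ℝ (a j) (a i) := by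
    intro c
    rw [← inner_FC, real_inner_self_eq_norm_sq, real_inner_self_eq_norm_sq]
  simp_rw [h]
  rw [Finset.sum_comm, Finset.mul_sum]
  refine Finset.sum_congr rfl fun i _ => ?_
  rw [Finset.sum_comm]
  simp_rw [← Finset.sum_mul, sum_dot]
  rw [Finset.sum_eq_single i]
  · simp
  · intro j _ hj
    rw [if_neg (sub_ne_zero.2 hj), zero_mul]
  · intro h; exact absurd (Finset.mem_univ i) h

lemma main_id (a b : Ix p s → E) :
    (p : ℝ) ^ s * (∑ i : Ix p s, ∑ α : ZMod p, ∑ x : ZMod p,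
        inner ℝ (a (fun t => i t + α * x ^ (t : ℕ))) (b i)) =
      ∑ c : Ix p s, ((p : ℝ) * ((univ.filter fun x : ZMod p => dot c (mv s x) = 0).card : ℝ)) *
        (inner ℝ (FC a c) (FC b c) + inner ℝ (FS a c) (FS b c)) := by
  have h1 : ∀ (i : Ix p s) (α x : ZMod p),
      (p : ℝ) ^ s * inner ℝ (a (fun t => i t + α * x ^ (t : ℕ))) (b i) =
      ∑ c : Ix p s, ∑ j : Ix p s, C (dot c (j - i) - α * dot c (mv s x)) * inner ℝ (a j) (b i) := by
    intro i α x
    rw [Finset.sum_comm]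
    have h2 : ∀ j c : Ix p s, dot c (j - i) - α * dot c (mv s x) =
        dot c (j - (fun t => i t + α * x ^ (t : ℕ))) := by
      intro j c
      simp only [dot, mv, Pi.sub_apply, Finset.mul_sum, ← Finset.sum_sub_distrib]
      refine Finset.sum_congr rfl fun t _ => ?_
      ring
    simp_rw [h2, ← Finset.sum_mul, sum_dot]
    rw [Finset.sum_eq_single (fun t => i t + α * x ^ (t : ℕ))]
    · simp
    · intro j _ hj
      rw [if_neg (sub_ne_zero.2 hj), zero_mul]
    · intro h; exact absurd (Finset.mem_univ _) h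
  have h3 : (p : ℝ) ^ s * (∑ i : Ix p s, ∑ α : ZMod p, ∑ x : ZMod p,
        inner ℝ (a (fun t => i t + α * x ^ (t : ℕ))) (b i)) =
      ∑ i : Ix p s, ∑ x : ZMod p, ∑ c : Ix p s, ∑ j : Ix p s,
        (∑ α : ZMod p, C (dot c (j - i) - α * dot c (mv s x))) * inner ℝ (a j) (b i) := by
    rw [Finset.mul_sum]
    refine Finset.sum_congr rfl fun i _ => ?_
    rw [Finset.sum_comm, Finset.mul_sum]
    refine Finset.sum_congr rfl fun x _ => ?_
    rw [Finset.mul_sum]
    simp_rw [h1]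
    rw [Finset.sum_comm]
    refine Finset.sum_congr rfl fun c _ => ?_
    rw [Finset.sum_comm]
    refine Finset.sum_congr rfl fun j _ => ?_
    rw [Finset.sum_mul]
  have h4 : ∀ (i j c : Ix p s) (x : ZMod p),
      ∑ α : ZMod p, C (dot c (j - i) - α * dot c (mv s x)) =
        C (dot c (j - i)) * (if dot c (mv s x) = 0 then (p : ℝ) else 0) := by
    intro i j c x
    simp_rw [C_sub]
    rw [Finset.sum_add_distrib, ← Finset.mul_sum, ← Finset.mul_sum]
    have e1 := sum_C (dot c (mv s x))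
    have e2 := sum_S (dot c (mv s x))
    rw [e1, e2, mul_zero, add_zero]
  rw [h3]
  simp_rw [h4]
  have h5 : ∀ c : Ix p s, (p : ℝ) * ((univ.filter fun x : ZMod p => dot c (mv s x) = 0).card : ℝ) =
      ∑ x : ZMod p, (if dot c (mv s x) = 0 then (p : ℝ) else 0) := by
    intro c
    rw [← Finset.sum_filter, Finset.sum_const, nsmul_eq_mul, mul_comm]
  simp_rw [h5, inner_FC]
  calc ∑ i : Ix p s, ∑ x : ZMod p, ∑ c : Ix p s, ∑ j : Ix p s,
        (C (dot c (j - i)) * (if dot c (mv s x) = 0 then (p : ℝ) else 0)) * inner ℝ (a j) (b i)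
      = ∑ i : Ix p s, ∑ c : Ix p s, ∑ x : ZMod p, ∑ j : Ix p s,
        (C (dot c (j - i)) * (if dot c (mv s x) = 0 then (p : ℝ) else 0)) * inner ℝ (a j) (b i) :=
        Finset.sum_congr rfl fun i _ => Finset.sum_comm
    _ = ∑ c : Ix p s, ∑ i : Ix p s, ∑ x : ZMod p, ∑ j : Ix p s,
        (C (dot c (j - i)) * (if dot c (mv s x) = 0 then (p : ℝ) else 0)) * inner ℝ (a j) (b i) :=
        Finset.sum_comm
    _ = _ := by
        refine Finset.sum_congr rfl fun c _ => ?_
        rw [Finset.mul_sum]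
        refine Finset.sum_congr rfl fun i _ => ?_
        rw [Finset.sum_mul]
        refine Finset.sum_congr rfl fun x _ => ?_
        rw [Finset.mul_sum]
        refine Finset.sum_congr rfl fun j _ => ?_
        ring

lemma cs2 (x y z w : ℝ) :
    |x * y + z * w| ≤ Real.sqrt (x ^ 2 + z ^ 2) * Real.sqrt (y ^ 2 + w ^ 2) := by
  rw [← Real.sqrt_mul (by positivity)]
  apply Real.abs_le_sqrt
  nlinarith [sq_nonneg (x * w - z * y)]

end

end AUXX

open AUXX in
theorem AUX : ST_AUX := by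
  intro p _ s hs E _ _ a b
  have hp : (0 : ℝ) < p := by exact_mod_cast (Fact.out : p.Prime).pos
  have hN : (0 : ℝ) < (p : ℝ) ^ s := by positivity
  have hs1 : (0 : ℝ) ≤ (s : ℝ) - 1 := by
    have : (1 : ℝ) ≤ s := by exact_mod_cast hs
    linarith
  set L := ∑ i : Ix p s, ∑ α : ZMod p, ∑ x : ZMod p,
        (inner ℝ (a (fun t => i t + α * x ^ (t : ℕ))) (b i) : ℝ) with hL
  set lam : Ix p s → ℝ := fun c =>
    (p : ℝ) * ((univ.filter fun x : ZMod p => dot c (mv s x) = 0).card : ℝ) with hlam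
  set T : Ix p s → ℝ := fun c =>
    (inner ℝ (FC a c) (FC b c) + inner ℝ (FS a c) (FS b c) : ℝ) with hT
  have hmain : (p : ℝ) ^ s * L = ∑ c, lam c * T c := main_id a b
  have hlam0 : lam 0 = (p : ℝ) ^ 2 := by
    simp only [hlam, dot_zero_left]
    simp [ZMod.card]
    ring
  have hT0 : T 0 = inner ℝ (∑ i, a i) (∑ i, b i) := by
    simp only [hT, FC, FS, dot_zero_left, C_zero, S_zero]
    simp
  have hlamc : ∀ c, c ≠ 0 → |lam c| ≤ p * ((s : ℝ) - 1) := by
    intro c hc
    have h0 : 0 ≤ lam c := by simp only [hlam]; positivity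
    rw [abs_of_nonneg h0]
    exact mul_le_mul_of_nonneg_left (card_roots c hs hc) hp.le
  have hTc : ∀ c, |T c| ≤ Real.sqrt (‖FC a c‖ ^ 2 + ‖FS a c‖ ^ 2) *
      Real.sqrt (‖FC b c‖ ^ 2 + ‖FS b c‖ ^ 2) := by
    intro c
    have e1 := abs_real_inner_le_norm (FC a c) (FC b c)
    have e2 := abs_real_inner_le_norm (FS a c) (FS b c)
    have e3 := cs2 ‖FC a c‖ ‖FC b c‖ ‖FS a c‖ ‖FS b c‖
    have e4 : |T c| ≤ ‖FC a c‖ * ‖FC b c‖ + ‖FS a c‖ * ‖FS b c‖ :=
      (abs_add_le _ _).trans (add_le_add e1 e2)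
    exact e4.trans ((le_abs_self _).trans e3)
  have hsplit : ∑ c, lam c * T c = lam 0 * T 0 + ∑ c ∈ univ.erase (0 : Ix p s), lam c * T c := by
    rw [Finset.add_sum_erase _ (fun c => lam c * T c) (Finset.mem_univ 0)]
  have hrest : |∑ c ∈ univ.erase (0 : Ix p s), lam c * T c| ≤
      p * ((s : ℝ) - 1) * ((p : ℝ) ^ s * (Real.sqrt (∑ i, ‖a i‖ ^ 2) *
        Real.sqrt (∑ i, ‖b i‖ ^ 2))) := by
    calc |∑ c ∈ univ.erase (0 : Ix p s), lam c * T c|
        ≤ ∑ c ∈ univ.erase (0 : Ix p s), |lam c * T c| := Finset.abs_sum_le_sum_abs _ _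
      _ ≤ ∑ c ∈ univ.erase (0 : Ix p s), p * ((s : ℝ) - 1) *
          (Real.sqrt (‖FC a c‖ ^ 2 + ‖FS a c‖ ^ 2) *
            Real.sqrt (‖FC b c‖ ^ 2 + ‖FS b c‖ ^ 2)) := by
          refine Finset.sum_le_sum fun c hc => ?_
          rw [abs_mul]
          exact mul_le_mul (hlamc c (Finset.ne_of_mem_erase hc)) (hTc c) (abs_nonneg _)
            (by positivity)
      _ ≤ ∑ c, p * ((s : ℝ) - 1) *
          (Real.sqrt (‖FC a c‖ ^ 2 + ‖FS a c‖ ^ 2) *
            Real.sqrt (‖FC b c‖ ^ 2 + ‖FS b c‖ ^ 2)) := by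
          refine Finset.sum_le_sum_of_subset_of_nonneg (Finset.erase_subset _ _) fun c _ _ => ?_
          positivity
      _ = p * ((s : ℝ) - 1) * ∑ c,
          (Real.sqrt (‖FC a c‖ ^ 2 + ‖FS a c‖ ^ 2) *
            Real.sqrt (‖FC b c‖ ^ 2 + ‖FS b c‖ ^ 2)) := by rw [Finset.mul_sum]
      _ ≤ p * ((s : ℝ) - 1) * (Real.sqrt (∑ c, (‖FC a c‖ ^ 2 + ‖FS a c‖ ^ 2)) *
            Real.sqrt (∑ c, (‖FC b c‖ ^ 2 + ‖FS b c‖ ^ 2))) := by
          refine mul_le_mul_of_nonneg_left ?_ (by positivity)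
          exact Real.sum_sqrt_mul_sqrt_le _ (fun c => by positivity) (fun c => by positivity)
      _ = _ := by
          rw [parseval, parseval, Real.sqrt_mul hN.le, Real.sqrt_mul hN.le]
          have := Real.mul_self_sqrt hN.le
          linear_combination (p * ((s : ℝ) - 1) * (Real.sqrt (∑ i, ‖a i‖ ^ 2) *
            Real.sqrt (∑ i, ‖b i‖ ^ 2))) * this
  have hdiff : (p : ℝ) ^ s * (L - (p : ℝ) ^ 2 / (p : ℝ) ^ s * inner ℝ (∑ i, a i) (∑ i, b i)) =
      ∑ c ∈ univ.erase (0 : Ix p s), lam c * T c := by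
    rw [mul_sub, hmain, hsplit, hlam0, hT0]
    field_simp
    ring
  have hfin : (p : ℝ) ^ s *
      |L - (p : ℝ) ^ 2 / (p : ℝ) ^ s * inner ℝ (∑ i, a i) (∑ i, b i)| ≤
      (p : ℝ) ^ s * (((s : ℝ) - 1) * p * Real.sqrt (∑ i, ‖a i‖ ^ 2) *
        Real.sqrt (∑ i, ‖b i‖ ^ 2)) := by
    have h1 : (p : ℝ) ^ s *
      |L - (p : ℝ) ^ 2 / (p : ℝ) ^ s * inner ℝ (∑ i, a i) (∑ i, b i)| =
      |∑ c ∈ univ.erase (0 : Ix p s), lam c * T c| := by
      rw [← hdiff, abs_mul, abs_of_pos hN]
    rw [h1]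
    refine hrest.trans (le_of_eq ?_)
    ring
  exact le_of_mul_le_mul_left hfin hN

end KP23
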