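import Pool.Agent.N23.KP.Stm
import Pool.Agent.H14R2.RD.R4f

/-!
Project KP (helper23), BASE (helper475): from random generators of `Alt(n)` to `Nb`.
-/

namespace KP23
open Finset Equiv Equiv.Perm Filter Topology

/-- norm of a symmetric positive operator on an invariant subspace -/
lemma base_op {E : Type} [NormedAddCommGroup E] [InnerProductSpace ℝ E] (Q : E →ₗ[ℝ] E)
    (V : Submodule ℝ E) (hV : ∀ v ∈ V, Q v ∈ V)
    (hs : ∀ u w, inner ℝ (Q u) w = inner ℝ u (Q w)) (hp : ∀ u, 0 ≤ inner ℝ (Q u) u)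
    (L : ℝ) (hL : 0 < L) (hb : ∀ v ∈ V, inner ℝ (Q v) v ≤ L * ‖v‖ ^ 2) :
    ∀ v ∈ V, ‖Q v‖ ≤ L * ‖v‖ := by
  intro v hv
  have h1 := hp (v - (1 / L) • Q v)
  have h2 := hb v hv
  have h3 := hb (Q v) (hV v hv)
  have h4 : inner ℝ (Q v) (Q v) = ‖Q v‖ ^ 2 := real_inner_self_eq_norm_sq _
  have h5 : inner ℝ (Q (Q v)) v = ‖Q v‖ ^ 2 := by rw [hs (Q v) v, h4]
  rw [map_sub, map_smul, inner_sub_left, inner_sub_right, inner_sub_right, inner_smul_left,
    inner_smul_right, inner_smul_left, inner_smul_right, h4, h5] at h1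
  simp only [conj_trivial] at h1
  have h6 : (0 : ℝ) < L ^ 2 := by positivity
  have h7 : ‖Q v‖ ^ 2 ≤ (L * ‖v‖) ^ 2 := by
    have h8 : 1 / L * (1 / L * inner ℝ (Q (Q v)) (Q v)) ≤ 1 / L * ‖Q v‖ ^ 2 := by
      have h9 : 1 / L * inner ℝ (Q (Q v)) (Q v) ≤ ‖Q v‖ ^ 2 := by
        rw [one_div, inv_mul_le_iff₀ hL]
        exact h3
      exact mul_le_mul_of_nonneg_left h9 (by positivity)
    have h10 : 1 / L * ‖Q v‖ ^ 2 ≤ L * ‖v‖ ^ 2 := by linarith
    rw [one_div, inv_mul_le_iff₀ hL] at h10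
    calc ‖Q v‖ ^ 2 ≤ L * (L * ‖v‖ ^ 2) := h10
      _ = (L * ‖v‖) ^ 2 := by ring
  exact (pow_le_pow_iff_left₀ (norm_nonneg _) (by positivity) two_ne_zero).1 h7

section

variable {n k : ℕ} {E : Type} [NormedAddCommGroup E] [InnerProductSpace ℝ E]

lemma base_inner (ρ : Perm (Fin n) →* (E ≃ₗᵢ[ℝ] E)) (g : Perm (Fin n)) (u w : E) :
    inner ℝ (ρ g u) w = inner ℝ u (ρ g⁻¹ w) := by
  have h1 : w = ρ g (ρ g⁻¹ w) := by
    change w = (ρ g * ρ g⁻¹) w
    rw [← map_mul, mul_inv_cancel, map_one]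
    rfl
  conv_lhs => rw [h1]
  exact (ρ g).inner_map_map _ _

/-- from functions on the group to representations -/
lemma base_key (hk : 0 < k) {ε : ℝ} {x : Fin k → RC14.Alt n} (hx : RC14.Expanding ε x)
    (ρ : Perm (Fin n) →* (E ≃ₗᵢ[ℝ] E)) (v : E)
    (hv : ∑ h : alternatingGroup (Fin n), ρ (h : Perm (Fin n)) v = 0) :
    ∑ i, (inner ℝ v (ρ (x i : Perm (Fin n)) v) + inner ℝ v (ρ ((x i : Perm (Fin n))⁻¹) v)) ≤
      (1 - ε) * (2 * k) * ‖v‖ ^ 2 := by
  classical
  have hk' : (0 : ℝ) < k := by exact_mod_cast hk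
  let y : RC14.Alt n → E := fun h => ρ (h : Perm (Fin n)) v
  let S : Submodule ℝ E := Submodule.span ℝ (Set.range y)
  have hfin : FiniteDimensional ℝ S := FiniteDimensional.span_of_finite ℝ (Set.finite_range y)
  have hyS : ∀ h, y h ∈ S := fun h => Submodule.subset_span ⟨h, rfl⟩
  let b := stdOrthonormalBasis ℝ S
  let f : Fin (Module.finrank ℝ S) → RC14.Alt n → ℝ := fun a h => inner ℝ (y h) (b a : E)
  have hpars : ∀ h h' : RC14.Alt n, ∑ a, f a h * f a h' = inner ℝ (y h) (y h') := by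
    intro h h'
    have h1 := b.sum_inner_mul_inner (⟨y h, hyS h⟩ : S) (⟨y h', hyS h'⟩ : S)
    rw [Submodule.coe_inner] at h1
    rw [← h1]
    refine Finset.sum_congr rfl fun a _ => ?_
    rw [Submodule.coe_inner, Submodule.coe_inner]
    show inner ℝ (y h) (b a : E) * inner ℝ (y h') (b a : E) = _
    rw [real_inner_comm (b a : E) (y h')]
  have hsum : ∀ a, ∑ h, f a h = 0 := by
    intro a
    show ∑ h, inner ℝ (y h) (b a : E) = 0
    rw [← sum_inner]
    have h1 : ∑ h, y h = 0 := hv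
    rw [h1, inner_zero_left]
  have hineq : ∑ a, ∑ h, f a h * RC14.walk x (f a) h ≤ ∑ a, (1 - ε) * ∑ h, f a h ^ 2 :=
    Finset.sum_le_sum fun a _ => hx.2 (f a) (hsum a)
  -- inner products in the orbit
  have hmul : ∀ h g : RC14.Alt n, inner ℝ (y h) (y (h * g)) =
      inner ℝ v (ρ (g : Perm (Fin n)) v) := by
    intro h g
    show inner ℝ (ρ (h : Perm (Fin n)) v) (ρ ((h * g : RC14.Alt n) : Perm (Fin n)) v) = _
    rw [Subgroup.coe_mul, map_mul]
    exact (ρ (h : Perm (Fin n))).inner_map_map _ _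
  have hleft : ∑ a, ∑ h, f a h * RC14.walk x (f a) h =
      (Fintype.card (RC14.Alt n) : ℝ) * ((∑ i, (inner ℝ v (ρ (x i : Perm (Fin n)) v) +
        inner ℝ v (ρ ((x i : Perm (Fin n))⁻¹) v))) / (2 * k)) := by
    rw [Finset.sum_comm]
    have h1 : ∀ h : RC14.Alt n, ∑ a, f a h * RC14.walk x (f a) h =
        (∑ i, (inner ℝ v (ρ (x i : Perm (Fin n)) v) +
          inner ℝ v (ρ ((x i : Perm (Fin n))⁻¹) v))) / (2 * k) := by
      intro h
      have h2 : ∀ a, f a h * RC14.walk x (f a) h =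
          (∑ i, (f a h * f a (h * x i) + f a h * f a (h * (x i)⁻¹))) / (2 * k) := by
        intro a
        unfold RC14.walk
        rw [mul_div_assoc', Finset.mul_sum]
        simp only [mul_add]
      rw [Finset.sum_congr rfl fun a _ => h2 a, ← Finset.sum_div, Finset.sum_comm]
      congr 1
      refine Finset.sum_congr rfl fun i _ => ?_
      rw [Finset.sum_add_distrib, hpars, hpars, hmul, hmul]
      rfl
    rw [Finset.sum_congr rfl fun h _ => h1 h, Finset.sum_const, nsmul_eq_mul, Finset.card_univ]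
  have hright : ∑ a, (1 - ε) * ∑ h, f a h ^ 2 =
      (Fintype.card (RC14.Alt n) : ℝ) * ((1 - ε) * ‖v‖ ^ 2) := by
    rw [← Finset.mul_sum, Finset.sum_comm]
    have h1 : ∀ h : RC14.Alt n, ∑ a, f a h ^ 2 = ‖v‖ ^ 2 := by
      intro h
      have h2 := hpars h h
      rw [real_inner_self_eq_norm_sq] at h2
      have h3 : ‖y h‖ = ‖v‖ := (ρ (h : Perm (Fin n))).norm_map v
      rw [h3] at h2
      rw [← h2]
      exact Finset.sum_congr rfl fun a _ => sq _
    rw [Finset.sum_congr rfl fun h _ => h1 h, Finset.sum_const, nsmul_eq_mul, Finset.card_univ]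
    ring
  rw [hleft, hright] at hineq
  have hcard : (0 : ℝ) < Fintype.card (RC14.Alt n) := by exact_mod_cast Fintype.card_pos
  have h1 := le_of_mul_le_mul_left hineq hcard
  rw [div_le_iff₀ (by positivity)] at h1
  calc _ ≤ (1 - ε) * ‖v‖ ^ 2 * (2 * k) := h1
    _ = _ := by ring

/-- the vectors with average zero -/
def bV (ρ : Perm (Fin n) →* (E ≃ₗᵢ[ℝ] E)) : Submodule ℝ E where
  carrier := {v | ∑ h : alternatingGroup (Fin n), ρ (h : Perm (Fin n)) v = 0}
  add_mem' := by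
    intro a b ha hb
    show ∑ h : alternatingGroup (Fin n), ρ (h : Perm (Fin n)) (a + b) = 0
    simp only [map_add, Finset.sum_add_distrib]
    rw [show ∑ h : alternatingGroup (Fin n), ρ (h : Perm (Fin n)) a = 0 from ha,
      show ∑ h : alternatingGroup (Fin n), ρ (h : Perm (Fin n)) b = 0 from hb, add_zero]
  zero_mem' := by
    show ∑ h : alternatingGroup (Fin n), ρ (h : Perm (Fin n)) 0 = 0
    simp only [map_zero, Finset.sum_const_zero]
  smul_mem' := by
    intro c a ha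
    show ∑ h : alternatingGroup (Fin n), ρ (h : Perm (Fin n)) (c • a) = 0
    simp only [map_smul]
    rw [← Finset.smul_sum, show ∑ h : alternatingGroup (Fin n), ρ (h : Perm (Fin n)) a = 0 from ha,
      smul_zero]

lemma bV_map (ρ : Perm (Fin n) →* (E ≃ₗᵢ[ℝ] E)) (g : RC14.Alt n) {v : E} (hv : v ∈ bV ρ) :
    ρ (g : Perm (Fin n)) v ∈ bV ρ := by
  show ∑ h : alternatingGroup (Fin n), ρ (h : Perm (Fin n)) (ρ (g : Perm (Fin n)) v) = 0
  have h1 : ∑ h : alternatingGroup (Fin n), ρ (h : Perm (Fin n)) v = 0 := hv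
  rw [← h1]
  refine Fintype.sum_equiv (Equiv.mulRight g) _ _ fun h => ?_
  show _ = ρ ((h * g : RC14.Alt n) : Perm (Fin n)) v
  rw [Subgroup.coe_mul, map_mul]
  rfl

/-- the operator `2 k + ∑ (ρ x_i + ρ x_i⁻¹)` -/
def bQ (ρ : Perm (Fin n) →* (E ≃ₗᵢ[ℝ] E)) (x : Fin k → RC14.Alt n) : E →ₗ[ℝ] E where
  toFun v := (2 * k : ℝ) • v +
    ∑ i, (ρ (x i : Perm (Fin n)) v + ρ ((x i : Perm (Fin n))⁻¹) v)
  map_add' u w := by
    simp only [map_add, smul_add, Finset.sum_add_distrib]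
    abel
  map_smul' c u := by
    simp only [map_smul, RingHom.id_apply, smul_add, Finset.sum_add_distrib, Finset.smul_sum]
    rw [smul_comm c]

lemma bQ_apply (ρ : Perm (Fin n) →* (E ≃ₗᵢ[ℝ] E)) (x : Fin k → RC14.Alt n) (v : E) :
    bQ ρ x v = (2 * k : ℝ) • v +
      ∑ i, (ρ (x i : Perm (Fin n)) v + ρ ((x i : Perm (Fin n))⁻¹) v) := rfl

/-- the spectral gap -/
lemma base_gap (hk : 0 < k) {ε : ℝ} (hε : ε < 2) {x : Fin k → RC14.Alt n}
    (hx : RC14.Expanding ε x) (ρ : Perm (Fin n) →* (E ≃ₗᵢ[ℝ] E)) (v : E)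
    (hv : ∑ h : alternatingGroup (Fin n), ρ (h : Perm (Fin n)) v = 0) :
    ‖bQ ρ x v‖ ≤ (2 * k * (2 - ε)) * ‖v‖ := by
  have hk' : (0 : ℝ) < k := by exact_mod_cast hk
  refine base_op (bQ ρ x) (bV ρ) ?_ ?_ ?_ _ (by nlinarith [mul_pos hk' (sub_pos.2 hε)]) ?_ v hv
  · intro w hw
    rw [bQ_apply]
    refine (bV ρ).add_mem ((bV ρ).smul_mem _ hw) ((bV ρ).sum_mem fun i _ =>
      (bV ρ).add_mem (bV_map ρ _ hw) ?_)
    have := bV_map ρ (x i)⁻¹ hw
    rwa [Subgroup.coe_inv] at this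
  · intro u w
    rw [bQ_apply, bQ_apply, inner_add_left, inner_add_right, inner_smul_left, inner_smul_right,
      sum_inner, inner_sum]
    simp only [conj_trivial]
    congr 1
    refine Finset.sum_congr rfl fun i _ => ?_
    rw [inner_add_left, inner_add_right, base_inner, base_inner, inv_inv, add_comm]
  · intro u
    rw [bQ_apply, inner_add_left, inner_smul_left, sum_inner, real_inner_self_eq_norm_sq]
    simp only [conj_trivial]
    have h1 : ∀ i, -(2 * ‖u‖ ^ 2) ≤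
        inner ℝ (ρ (x i : Perm (Fin n)) u + ρ ((x i : Perm (Fin n))⁻¹) u) u := by
      intro i
      rw [inner_add_left]
      have h2 := abs_le.1 (abs_real_inner_le_norm (ρ (x i : Perm (Fin n)) u) u)
      have h3 := abs_le.1 (abs_real_inner_le_norm (ρ ((x i : Perm (Fin n))⁻¹) u) u)
      rw [(ρ _).norm_map] at h2 h3
      nlinarith [h2.1, h3.1]
    have h2 : ∑ _i : Fin k, -(2 * ‖u‖ ^ 2) ≤
        ∑ i, inner ℝ (ρ (x i : Perm (Fin n)) u + ρ ((x i : Perm (Fin n))⁻¹) u) u :=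
      Finset.sum_le_sum fun i _ => h1 i
    rw [Finset.sum_const, Finset.card_univ, Fintype.card_fin, nsmul_eq_mul] at h2
    linarith
  · intro w hw
    have h1 := base_key hk hx ρ w hw
    rw [bQ_apply, inner_add_left, inner_smul_left, sum_inner, real_inner_self_eq_norm_sq]
    simp only [conj_trivial]
    have h2 : ∑ i, inner ℝ (ρ (x i : Perm (Fin n)) w + ρ ((x i : Perm (Fin n))⁻¹) w) w =
        ∑ i, (inner ℝ w (ρ (x i : Perm (Fin n)) w) +
          inner ℝ w (ρ ((x i : Perm (Fin n))⁻¹) w)) := by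
      refine Finset.sum_congr rfl fun i _ => ?_
      rw [inner_add_left, real_inner_comm, real_inner_comm w]
    rw [h2]
    nlinarith

end

/-- from an expanding tuple to `Nb` -/
lemma base_nb {n k r : ℕ} (hk : 0 < k) (hr : r ≤ 3) {ε : ℝ} (hε0 : 0 < ε) (hε : ε < 2)
    {x : Fin k → RC14.Alt n} (hx : RC14.Expanding ε x) {ι : Type} [Fintype ι]
    (hι : Fintype.card ι = 4 * k + r) :
    ∃ g : ι → Perm (Fin n), Nb g (1 - ε / 4) := by
  have hk' : (1 : ℝ) ≤ k := by exact_mod_cast hk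
  have hr' : (r : ℝ) ≤ 3 := by exact_mod_cast hr
  have hcard : Fintype.card ι = Fintype.card (Fin k ⊕ (Fin k ⊕ Fin (2 * k + r))) := by
    rw [hι]
    simp only [Fintype.card_sum, Fintype.card_fin]
    ring
  let e := Fintype.equivOfCardEq hcard
  let g0 : Fin k ⊕ (Fin k ⊕ Fin (2 * k + r)) → RC14.Alt n :=
    Sum.elim x (Sum.elim (fun i => (x i)⁻¹) (fun _ => 1))
  refine ⟨fun i => (g0 (e i) : Perm (Fin n)), fun i => ?_, ?_⟩
  · exact Equiv.Perm.mem_alternatingGroup.1 (g0 (e i)).2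
  · intro E _ _ ρ v hv
    have h1 : ∑ i, ρ (g0 (e i) : Perm (Fin n)) v = bQ ρ x v + (r : ℝ) • v := by
      rw [Equiv.sum_comp e (fun j => ρ (g0 j : Perm (Fin n)) v), Fintype.sum_sum_type,
        Fintype.sum_sum_type]
      have e3 : ∑ j : Fin (2 * k + r), ρ (g0 (Sum.inr (Sum.inr j)) : Perm (Fin n)) v =
          ((2 * k + r : ℕ) : ℝ) • v := by
        have : ∀ j : Fin (2 * k + r), ρ (g0 (Sum.inr (Sum.inr j)) : Perm (Fin n)) v = v := by
          intro j
          show ρ ((1 : RC14.Alt n) : Perm (Fin n)) v = v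
          rw [Subgroup.coe_one, map_one]
          rfl
        rw [Finset.sum_congr rfl fun j _ => this j, Finset.sum_const, Finset.card_univ,
          Fintype.card_fin, Nat.cast_smul_eq_nsmul]
      rw [e3, bQ_apply]
      have e1 : ∑ j : Fin k, ρ (g0 (Sum.inl j) : Perm (Fin n)) v =
          ∑ j, ρ (x j : Perm (Fin n)) v := rfl
      have e2 : ∑ j : Fin k, ρ (g0 (Sum.inr (Sum.inl j)) : Perm (Fin n)) v =
          ∑ j, ρ ((x j : Perm (Fin n))⁻¹) v := by
        refine Finset.sum_congr rfl fun j _ => ?_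
        show ρ (((x j)⁻¹ : RC14.Alt n) : Perm (Fin n)) v = _
        rw [Subgroup.coe_inv]
      rw [e1, e2, Finset.sum_add_distrib]
      push_cast
      rw [add_smul]
      abel
    rw [h1, hι]
    have h2 := base_gap hk hε hx ρ v hv
    refine (norm_add_le _ _).trans ?_
    rw [norm_smul, Real.norm_eq_abs, abs_of_nonneg (Nat.cast_nonneg r)]
    push_cast
    have h3 : 0 ≤ (ε * k - ε / 4 * r) * ‖v‖ := by
      refine mul_nonneg ?_ (norm_nonneg _)
      nlinarith
    nlinarith [h2, h3]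

theorem BASE : ST_BASE := by
  obtain ⟨N0, hN0⟩ := eventually_atTop.1 RC14.R4uni
  refine ⟨1 / 288000 / 4, by norm_num, by norm_num, 4 * 10 ^ 12, by norm_num, max N0 9, ?_⟩
  intro n hn p hp s hps
  have hn9 : 9 ≤ n := (le_max_right _ _).trans hn
  have hn0 : N0 ≤ n := (le_max_left _ _).trans hn
  have hnR : (9 : ℝ) ≤ n := by exact_mod_cast hn9
  obtain ⟨k, hk⟩ : ∃ k, k = p ^ s / 4 := ⟨_, rfl⟩
  obtain ⟨r, hr⟩ : ∃ r, r = p ^ s % 4 := ⟨_, rfl⟩
  have hN : p ^ s = 4 * k + r := by omega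
  have hr3 : r ≤ 3 := by omega
  have hNR : (p : ℝ) ^ s = 4 * k + r := by exact_mod_cast hN
  have hr3' : (r : ℝ) ≤ 3 := by exact_mod_cast hr3
  have hone : (1 : ℝ) ≤ (n : ℝ) ^ (1 / 24 : ℝ) :=
    Real.one_le_rpow (by linarith) (by norm_num)
  have hkk : 4 * 10 ^ 10 * ((24 : ℕ) : ℝ) * (n : ℝ) ^ (1 / ((24 : ℕ) : ℝ)) ≤ k := by
    rw [hNR] at hps
    push_cast
    nlinarith
  have hk0 : 0 < k := by
    rcases Nat.eq_zero_or_pos k with h | h
    · exfalso
      rw [h] at hkk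
      push_cast at hkk
      nlinarith
    · exact h
  have hcount := hN0 n hn0 24 k (by norm_num) hkk
  obtain ⟨x, hx⟩ : ∃ x : Fin k → RC14.Alt n,
      RC14.Expanding (1 / 12000 / ((24 : ℕ) : ℝ)) x := by
    by_contra hno
    push Not at hno
    have h1 : Nat.card {x : Fin k → RC14.Alt n //
        ¬ RC14.Expanding (1 / 12000 / ((24 : ℕ) : ℝ)) x} = Fintype.card (RC14.Alt n) ^ k := by
      rw [Nat.card_congr (Equiv.subtypeUnivEquiv hno), Nat.card_eq_fintype_card,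
        Fintype.card_fun, Fintype.card_fin]
    rw [h1] at hcount
    push_cast at hcount
    have h2 : (0 : ℝ) < (Fintype.card (RC14.Alt n) : ℝ) ^ k := by
      have : (0 : ℝ) < Fintype.card (RC14.Alt n) := by exact_mod_cast Fintype.card_pos
      positivity
    have h3 : (8 : ℝ) / n < 1 := by
      rw [div_lt_one (by linarith)]
      linarith
    nlinarith
  have hcard : Fintype.card (Ix p s) = 4 * k + r := by
    rw [← hN]
    simp [Ix, ZMod.card]
  have h4 : (1 / 12000 / ((24 : ℕ) : ℝ)) = 1 / 288000 := by norm_num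
  rw [h4] at hx
  exact base_nb hk0 hr3 (by norm_num) (by norm_num) hx hcard

end KP23
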