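import Pool.Agent.N23.KP.Stm

/-!
Project KP (helper23), MP_75608d_al: iteration of derandomized squaring (helper756).
-/

namespace KP23
open Finset Equiv Equiv.Perm Filter Topology

lemma Nb_mono {X : Type} [Fintype X] [DecidableEq X] {ι : Type} [Fintype ι] {g : ι → Perm X}
    {κ κ' : ℝ} (h : κ ≤ κ') (hg : Nb g κ) : Nb g κ' := by
  refine ⟨hg.1, fun E _ _ ρ v hv => (hg.2 E ρ v hv).trans ?_⟩
  have h1 : (0 : ℝ) ≤ Fintype.card ι := Nat.cast_nonneg _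
  have h2 := norm_nonneg v
  gcongr

/-- iteration along a sequence of bounds -/
lemma boost_iter (hD : ST_DSQ) (p : ℕ) [Fact p.Prime] (s : ℕ) (hs : 1 ≤ s) (X : Type) [Fintype X]
    [DecidableEq X] (g : Ix p s → Perm X) (c : ℕ → ℝ) (J : ℕ) (h0 : Nb g (c 0))
    (hc0 : ∀ j ≤ J, 0 ≤ c j)
    (hc : ∀ j < J, c j ^ 2 + (((s + 2 * j : ℕ) : ℝ) - 1) / p ≤ c (j + 1)) :
    ∀ j ≤ J, ∃ g' : Ix p (s + 2 * j) → Perm X, Nb g' (c j) := by
  intro j
  induction j with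
  | zero => exact fun _ => ⟨g, h0⟩
  | succ j ih =>
    intro hj
    obtain ⟨g', hg'⟩ := ih (by omega)
    have h1 := hD p (s + 2 * j) (by omega) X g' (c j) (hc0 j (by omega)) hg'
    have h2 := Nb_mono (hc j (by omega)) h1
    have e : s + 2 * (j + 1) = (s + 2 * j) + 2 := by ring
    rw [e]
    exact ⟨dsq g', h2⟩

theorem BOOST (hD : ST_DSQ) : ST_BOOST := by
  intro κ₀ hκ₀
  obtain ⟨k, hk⟩ : ∃ k, k = min κ₀ (1 / 4) := ⟨_, rfl⟩
  have hk0 : 0 < k := by rw [hk]; exact lt_min hκ₀ (by norm_num)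
  have hk1 : k ≤ 1 / 4 := by rw [hk]; exact min_le_right _ _
  have hkκ : k ≤ κ₀ := by rw [hk]; exact min_le_left _ _
  obtain ⟨J, hJ⟩ := pow_unbounded_of_one_lt (1 / k) (show (1 : ℝ) < 3 / 2 by norm_num)
  have hJk : 1 ≤ (3 / 2 : ℝ) ^ J * k := by
    rw [div_lt_iff₀ hk0] at hJ
    exact hJ.le
  refine ⟨J + 2, fun s hs => ?_⟩
  obtain ⟨μ, hμ⟩ : ∃ μ, μ = min (k / 4) (1 / 20) := ⟨_, rfl⟩
  have hμ0 : 0 < μ := by rw [hμ]; exact lt_min (by positivity) (by norm_num)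
  have hμ1 : μ ≤ k / 4 := by rw [hμ]; exact min_le_left _ _
  have hμ2 : μ ≤ 1 / 20 := by rw [hμ]; exact min_le_right _ _
  obtain ⟨p₀, hp₀⟩ := exists_nat_gt (((s + 2 * (J + 2) : ℕ) : ℝ) / μ)
  refine ⟨p₀, fun p _ hp X _ _ g hg => ?_⟩
  have hpp : (0 : ℝ) < p := by exact_mod_cast (Fact.out : p.Prime).pos
  have herr : ∀ j < J + 2, (((s + 2 * j : ℕ) : ℝ) - 1) / p ≤ μ := by
    intro j hj
    rw [div_le_iff₀ hpp]
    have h1 : (p₀ : ℝ) ≤ p := by exact_mod_cast hp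
    have h2 : ((s + 2 * (J + 2) : ℕ) : ℝ) < p * μ := by
      rw [div_lt_iff₀ hμ0] at hp₀
      calc ((s + 2 * (J + 2) : ℕ) : ℝ) < p₀ * μ := hp₀
        _ ≤ p * μ := by gcongr
    have h3 : ((s + 2 * j : ℕ) : ℝ) ≤ ((s + 2 * (J + 2) : ℕ) : ℝ) := by
      exact_mod_cast (by omega : s + 2 * j ≤ s + 2 * (J + 2))
    nlinarith
  obtain ⟨kk, hkk⟩ : ∃ kk : ℕ → ℝ, kk = fun j => min (1 / 4) ((3 / 2 : ℝ) ^ j * k) := ⟨_, rfl⟩
  have kk1 : ∀ j, kk j ≤ 1 / 4 := fun j => by rw [hkk]; exact min_le_left _ _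
  have kk2 : ∀ j, k ≤ kk j := fun j => by
    rw [hkk]
    refine le_min hk1 ?_
    have h1 : (1 : ℝ) ≤ (3 / 2 : ℝ) ^ j := one_le_pow₀ (by norm_num)
    nlinarith
  have kk3 : ∀ j, kk (j + 1) ≤ 3 / 2 * kk j := fun j => by
    rw [hkk]
    beta_reduce
    rcases le_total (1 / 4 : ℝ) ((3 / 2 : ℝ) ^ j * k) with h | h
    · rw [min_eq_left h]
      refine (min_le_left _ _).trans (by norm_num)
    · rw [min_eq_right h]
      refine (min_le_right _ _).trans (le_of_eq ?_)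
      rw [pow_succ]
      ring
  have kk4 : kk J = 1 / 4 := by
    rw [hkk]
    exact min_eq_left (by linarith)
  obtain ⟨c, hc⟩ : ∃ c : ℕ → ℝ, c = fun j => if j ≤ J then 1 - kk j else
    if j = J + 1 then 5 / 8 else 1 / 2 := ⟨_, rfl⟩
  have c1 : ∀ j, j ≤ J → c j = 1 - kk j := fun j hj => by rw [hc]; exact if_pos hj
  have c2 : c (J + 1) = 5 / 8 := by
    rw [hc]
    beta_reduce
    rw [if_neg (by omega), if_pos rfl]
  have c3 : c (J + 2) = 1 / 2 := by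
    rw [hc]
    beta_reduce
    rw [if_neg (by omega), if_neg (by omega)]
  have hck : c 0 = 1 - k := by
    rw [c1 0 (by omega), hkk]
    beta_reduce
    rw [pow_zero, one_mul, min_eq_right hk1]
  have h0 : Nb g (c 0) := Nb_mono (by rw [hck]; linarith) hg
  have hcs : ∀ j ≤ J + 2, 0 ≤ c j := by
    intro j hj
    rcases Nat.lt_or_ge J j with h | h
    · rcases (by omega : j = J + 1 ∨ j = J + 2) with rfl | rfl
      · rw [c2]; norm_num
      · rw [c3]; norm_num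
    · rw [c1 j h]
      have := kk1 j
      linarith
  obtain ⟨g', hg'⟩ := boost_iter hD p s hs X g c (J + 2) h0 hcs (fun j hj => by
    have he := herr j hj
    rcases Nat.lt_or_ge j J with h | h
    · rw [c1 j h.le, c1 (j + 1) h]
      have a1 := kk1 j
      have a2 := kk2 j
      have a3 := kk3 j
      nlinarith
    · rcases (by omega : j = J ∨ j = J + 1) with rfl | rfl
      · rw [c1 j le_rfl, kk4, c2]
        linarith
      · rw [c2, c3]
        linarith) (J + 2) le_rfl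
  rw [c3] at hg'
  exact ⟨g', hg'⟩

end KP23
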