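import Pool.Agent.N23.KP.Stm

set_option autoImplicit false

/-!
Project KP (helper23), task CHAIN (helper468): from the block groups to `Alt(X)`.
-/

namespace KP23
open Finset Equiv Equiv.Perm Filter Topology

lemma perm_ai {X : Type} (x : Perm X) (z : X) : x (x⁻¹ z) = z := x.apply_symm_apply z

lemma perm_ia {X : Type} (x : Perm X) (z : X) : x⁻¹ (x z) = z := x.symm_apply_apply z

section chainRules
variable {X : Type} [Fintype X] [DecidableEq X] {E : Type} [NormedAddCommGroup E]
  [InnerProductSpace ℝ E] {ρ : Perm X →* (E ≃ₗᵢ[ℝ] E)} {v : E}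

lemma NIon_mono {Δ Δ' : Finset X} {k k' : ℝ} (h : NIon ρ v Δ k) (hs : Δ' ⊆ Δ) (hk : k ≤ k') :
    NIon ρ v Δ' k' := by
  intro g hg hfix
  exact (h g hg (fun x hx => hfix x (fun hx' => hx (hs hx')))).trans hk

lemma NIon_conj {Δ Δ' : Finset X} {k k' : ℝ} (h : NIon ρ v Δ k) (a : Perm X)
    (ha : ‖ρ a v - v‖ ≤ k') (hs : ∀ z, a z ∈ Δ' → z ∈ Δ) : NIon ρ v Δ' (k + 2 * k') := by
  intro g hg hfix
  have h1 : a * (a⁻¹ * g * a) * a⁻¹ = g := by group
  have h2 : sign (a⁻¹ * g * a) = 1 := by
    rw [Equiv.Perm.sign_mul, Equiv.Perm.sign_mul, Equiv.Perm.sign_inv, hg, mul_one, Int.units_mul_self]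
  have h3 := h (a⁻¹ * g * a) h2 (fun z hz => by
    have h : g (a z) = a z := hfix _ (fun hh => hz (hs z hh))
    rw [Perm.mul_apply, Perm.mul_apply, h, perm_ia])
  have h4 := disp_conj' ρ v (a⁻¹ * g * a) a
  rw [h1] at h4
  linarith

lemma NIon_union (hE : ST_EXT) {Δ₁ Δ₂ Δ : Finset X} {k₁ k₂ k : ℝ} (h₁ : NIon ρ v Δ₁ k₁)
    (h₂ : NIon ρ v Δ₂ k₂) (hs : Δ ⊆ Δ₁ ∪ Δ₂) (W V : Finset X) (hW1 : W ⊆ Δ₁) (hW2 : W ⊆ Δ₂)
    (hV : Δ₂ \ Δ₁ ⊆ V) (hc : #V + 2 ≤ #W) (hk : 2 * k₁ + k₂ ≤ k) : NIon ρ v Δ k := by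
  have h := hE X Δ₁ Δ₂ ?_ E ρ v k₁ k₂ h₁ h₂
  · exact NIon_mono h hs hk
  · have h1 := card_le_card hV
    have h2 := card_le_card (subset_inter hW1 hW2)
    omega

end chainRules

lemma row_addRight_pow {Q : Type} (p T : ℕ) :
    (row fun _ : Q => Equiv.addRight (1 : ZMod p)) ^ T =
      row fun _ : Q => Equiv.addRight (T : ZMod p) := by
  induction T with
  | zero => ext z <;> simp
  | succ T ih =>
    rw [pow_succ, ih]
    ext z
    · simp [Perm.mul_apply]
    · simp only [Perm.mul_apply, row_apply, Equiv.coe_addRight, Nat.cast_add, Nat.cast_one]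
      ring

lemma blk_addRight_pow {M : Type} (q T : ℕ) :
    (blk (Equiv.addRight (1 : ZMod q)) : Perm (ZMod q × M)) ^ T =
      blk (Equiv.addRight (T : ZMod q)) := by
  induction T with
  | zero => ext z <;> simp
  | succ T ih =>
    rw [pow_succ, ih]
    ext z
    · simp only [Perm.mul_apply, blk_apply, Equiv.coe_addRight, Nat.cast_add, Nat.cast_one]
      ring
    · simp [Perm.mul_apply]

/-- the constants of the first chain -/
def chA : ℕ → ℝ
  | 0 => 3
  | (T + 1) => 2 * chA T + (3 + 2 * (T + 1))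

/-- the constants of the second chain -/
def chB (K : ℝ) : ℕ → ℝ
  | 0 => K
  | (i + 1) => 2 * chB K i + (K + 2 * ((i + 1) + 2))

lemma chA_pos (T : ℕ) : 0 < chA T := by
  induction T with
  | zero => norm_num [chA]
  | succ T ih =>
    rw [chA]
    positivity

lemma chB_pos {K : ℝ} (hK : 0 < K) (i : ℕ) : 0 < chB K i := by
  induction i with
  | zero => rwa [chB]
  | succ i ih =>
    rw [chB]
    positivity

theorem CHAIN (hE : ST_EXT) : ST_CHAIN := by
  intro q p hq hp
  refine ⟨3 * chB (chA (p - 1)) (q - 1) + 2, by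
    have := chB_pos (chA_pos (p - 1)) (q - 1)
    positivity, ?_⟩
  intro X _ _ n' Nc hNc x e e₂ j₀ hn1 hn2 h1 h2 h3 h4 h5 E _ _ ρ v η hrow hx hb hc
  have hη : 0 ≤ η := (norm_nonneg _).trans hx
  -- the blocks
  have hB : ∀ j : ZMod q, NIon ρ v (univ.image fun m : Fin n' => e (j, m)) η := by
    intro j g hg hfix
    let ej : Fin n' ↪ X := ⟨fun m => e (j, m), fun m m' h => by
      have := e.injective h
      simpa using this⟩
    have hej : ∀ m, ej m = e (j, m) := fun m => rfl
    obtain ⟨w, hw⟩ := exists_embP ej g (fun y hy => hfix y (fun hmem => hy (by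
      obtain ⟨m, _, hm⟩ := mem_image.mp hmem
      exact ⟨m, hm⟩)))
    have hsw : sign w = 1 := by rw [← sign_embP ej w, hw, hg]
    have heq : embP e (rowAt j w) = g := by
      rw [← hw]
      ext y
      by_cases hy : y ∈ Set.range e
      · obtain ⟨⟨i, m⟩, rfl⟩ := hy
        rw [embP_apply, rowAt_apply', row_apply]
        by_cases hij : i = j
        · subst hij
          simp only [Pi.mulSingle_eq_same]
          rw [← hej m, embP_apply]
          rfl
        · rw [Pi.mulSingle_eq_of_ne hij, embP_apply_of_notMem]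
          · rfl
          · rintro ⟨m', hm'⟩
            rw [hej] at hm'
            have := e.injective hm'
            simp only [Prod.mk.injEq] at this
            exact hij this.1.symm
      · rw [embP_apply_of_notMem e _ y hy, embP_apply_of_notMem]
        rintro ⟨m', hm'⟩
        exact hy ⟨(j, m'), hm'⟩
    rw [← heq]
    exact hrow j w hsw
  -- the images of the blocks
  have hxB : NIon ρ v (univ.image fun m : Fin n' => x (e (j₀, m))) (3 * η) := by
    have := NIon_conj (hB j₀) x hx (Δ' := univ.image fun m : Fin n' => x (e (j₀, m)))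
      (fun z hz => by
        obtain ⟨m, _, hm⟩ := mem_image.mp hz
        exact mem_image.mpr ⟨m, mem_univ _, x.injective hm⟩)
    exact NIon_mono this (subset_refl _) (by linarith)
  obtain ⟨xB, hxBdef⟩ : ∃ s, s = univ.image fun m : Fin n' => x (e (j₀, m)) := ⟨_, rfl⟩
  rw [← hxBdef] at hxB
  have mem_xB : ∀ z, z ∈ xB ↔ ∃ m, x (e (j₀, m)) = z := by
    intro z
    rw [hxBdef]
    simp
  -- the shift along the cycles
  have hcT : ∀ T : ℕ, ‖ρ (embP e₂ (row fun _ => Equiv.addRight (T : ZMod p))) v - v‖ ≤ T * η := by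
    intro T
    rw [← row_addRight_pow, map_pow]
    exact (disp_pow ρ v _ T).trans (by gcongr)
  have hcT1 : ∀ (T : ℕ) (i : Fin Nc) (s : ZMod p),
      embP e₂ (row fun _ => Equiv.addRight (T : ZMod p)) (e₂ (i, s)) = e₂ (i, s + T) := by
    intro T i s
    rw [embP_apply]
    rfl
  have hcT2 : ∀ (T : ℕ) (m : Fin n'), Nc ≤ m.val →
      embP e₂ (row fun _ => Equiv.addRight (T : ZMod p)) (x (e (j₀, m))) = x (e (j₀, m)) := by
    intro T m hm
    apply embP_apply_of_notMem
    rintro ⟨⟨i, t⟩, hit⟩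
    by_cases ht : t = 0
    · subst ht
      rw [h2 i] at hit
      have h := e.injective (x.injective hit)
      simp only [Prod.mk.injEq, true_and] at h
      have h' : (Fin.castLE hNc i).val = m.val := by rw [h]
      simp only [Fin.val_castLE] at h'
      have := i.isLt
      omega
    · exact (h3 i t ht (j₀, m)).2 hit
  -- the first chain
  have hG : ∀ T : ℕ, NIon ρ v (xB ∪ ((univ : Finset (Fin Nc)) ×ˢ range (T + 1)).image
      (fun y => e₂ (y.1, (y.2 : ZMod p)))) (chA T * η) := by
    intro T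
    induction T with
    | zero =>
      refine NIon_mono hxB ?_ (by rw [chA])
      intro z hz
      rcases mem_union.mp hz with hz | hz
      · exact hz
      · obtain ⟨y, hy, rfl⟩ := mem_image.mp hz
        have hy2 := (mem_product.mp hy).2
        simp only [zero_add, range_one, mem_singleton] at hy2
        rw [hy2, Nat.cast_zero, h2, mem_xB]
        exact ⟨_, rfl⟩
    | succ T ih =>
      have hΔ2 : NIon ρ v (xB.image (embP e₂ (row fun _ => Equiv.addRight ((T + 1 : ℕ) : ZMod p))))
          (3 * η + 2 * (((T + 1 : ℕ) : ℝ) * η)) := by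
        refine NIon_conj hxB _ (hcT (T + 1)) ?_
        intro z hz
        obtain ⟨w, hw, hwz⟩ := mem_image.mp hz
        rwa [← (Equiv.injective _ hwz)]
      let W : Finset X := (univ : Finset (Fin (n' - Nc))).image
        (fun m => x (e (j₀, ⟨Nc + m.val, by have := m.isLt; omega⟩)))
      let V : Finset X := (univ : Finset (Fin Nc)).image (fun i => e₂ (i, ((T + 1 : ℕ) : ZMod p)))
      have hWc : #W = n' - Nc := by
        rw [card_image_of_injective]
        · simp
        · intro m m' h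
          have h' := e.injective (x.injective h)
          simp only [Prod.mk.injEq, true_and, Fin.mk.injEq] at h'
          exact Fin.ext (by omega)
      have hVc : #V ≤ Nc := by
        refine card_image_le.trans ?_
        simp
      refine NIon_union hE ih hΔ2 ?_ W V ?_ ?_ ?_ (by omega) ?_
      · intro z hz
        rcases mem_union.mp hz with hz | hz
        · exact mem_union_left _ (mem_union_left _ hz)
        · obtain ⟨⟨i, s⟩, hy, rfl⟩ := mem_image.mp hz
          have hy2 := mem_range.mp (mem_product.mp hy).2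
          simp only at hy2
          by_cases hs : s < T + 1
          · refine mem_union_left _ (mem_union_right _ (mem_image.mpr ⟨(i, s), ?_, rfl⟩))
            exact mem_product.mpr ⟨mem_univ _, mem_range.mpr hs⟩
          · have hsT : s = T + 1 := by omega
            refine mem_union_right _ (mem_image.mpr ⟨e₂ (i, 0), ?_, ?_⟩)
            · rw [h2, mem_xB]
              exact ⟨_, rfl⟩
            · rw [hcT1, hsT, zero_add]
      · intro z hz
        obtain ⟨m, _, rfl⟩ := mem_image.mp hz
        exact mem_union_left _ ((mem_xB _).mpr ⟨_, rfl⟩)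
      · intro z hz
        obtain ⟨m, _, rfl⟩ := mem_image.mp hz
        have hm := m.isLt
        refine mem_image.mpr ⟨x (e (j₀, ⟨Nc + m.val, by omega⟩)), (mem_xB _).mpr ⟨_, rfl⟩, ?_⟩
        exact hcT2 (T + 1) _ (by simp)
      · intro z hz
        obtain ⟨hz1, hz2⟩ := mem_sdiff.mp hz
        obtain ⟨w, hw, rfl⟩ := mem_image.mp hz1
        obtain ⟨m, rfl⟩ := (mem_xB _).mp hw
        by_cases hm : Nc ≤ m.val
        · exfalso
          rw [hcT2 (T + 1) m hm] at hz2
          exact hz2 (mem_union_left _ hw)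
        · refine mem_image.mpr ⟨⟨m.val, by omega⟩, mem_univ _, ?_⟩
          have hm2 : x (e (j₀, m)) = e₂ (⟨m.val, by omega⟩, 0) := by
            rw [h2]
            rfl
          rw [hm2, hcT1, zero_add]
      · rw [chA]
        push_cast
        nlinarith
  obtain ⟨K₁, hK₁⟩ : ∃ K, K = chA (p - 1) := ⟨_, rfl⟩
  rw [← hK₁]
  have hΓ := hG (p - 1)
  obtain ⟨Γ, hΓdef⟩ : ∃ s, s = xB ∪ ((univ : Finset (Fin Nc)) ×ˢ range (p - 1 + 1)).image
      (fun y => e₂ (y.1, (y.2 : ZMod p))) := ⟨_, rfl⟩
  rw [← hΓdef, ← hK₁] at hΓ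
  have hp1 : p - 1 + 1 = p := by
    have := hp.out.pos
    omega
  have mem_Γ : ∀ z, z ∈ Γ ↔ (∃ m, x (e (j₀, m)) = z) ∨ ∃ i t, e₂ (i, t) = z := by
    intro z
    rw [hΓdef, mem_union, mem_xB]
    refine or_congr Iff.rfl ?_
    constructor
    · intro h
      obtain ⟨y, _, hy⟩ := mem_image.mp h
      exact ⟨_, _, hy⟩
    · rintro ⟨i, t, hit⟩
      refine mem_image.mpr ⟨(i, t.val), ?_, ?_⟩
      · rw [hp1]
        exact mem_product.mpr ⟨mem_univ _, mem_range.mpr (ZMod.val_lt t)⟩
      · simp only [ZMod.natCast_val, ZMod.cast_id', id_eq]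
        exact hit
  -- the shift of the blocks
  have hbT : ∀ i : ℕ, ‖ρ (x * embP e (blk (Equiv.addRight (i : ZMod q))) * x⁻¹) v - v‖ ≤
      (i + 2) * η := by
    intro i
    have h := disp_conj' ρ v (embP e (blk (Equiv.addRight (i : ZMod q)))) x
    have h' : ‖ρ (embP e (blk (Equiv.addRight (i : ZMod q)))) v - v‖ ≤ i * η := by
      rw [← blk_addRight_pow, map_pow]
      exact (disp_pow ρ v _ i).trans (by gcongr)
    linarith
  have hbT1 : ∀ (i : ℕ) (j : ZMod q) (m : Fin n'),
      (x * embP e (blk (Equiv.addRight (i : ZMod q))) * x⁻¹) (x (e (j, m))) =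
        x (e (j + i, m)) := by
    intro i j m
    rw [Perm.mul_apply, Perm.mul_apply, perm_ia, embP_apply]
    rfl
  have hbT2 : ∀ (i : ℕ) (z : X), (∀ y, z ≠ x (e y)) →
      (x * embP e (blk (Equiv.addRight (i : ZMod q))) * x⁻¹) z = z := by
    intro i z hz
    rw [Perm.mul_apply, Perm.mul_apply, embP_apply_of_notMem, perm_ai]
    rintro ⟨y, hy⟩
    exact hz y (by rw [hy, perm_ai])
  let E0 : Finset X := ((univ : Finset (Fin Nc)) ×ˢ (univ.erase (0 : ZMod p))).image e₂
  have hE0c : #E0 = Nc * (p - 1) := by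
    rw [card_image_of_injective _ e₂.injective, card_product, card_erase_of_mem (mem_univ _)]
    simp [ZMod.card]
  have mem_E0 : ∀ i t, t ≠ 0 → e₂ (i, t) ∈ E0 := by
    intro i t ht
    exact mem_image.mpr ⟨(i, t), mem_product.mpr ⟨mem_univ _, mem_erase.mpr ⟨ht, mem_univ _⟩⟩, rfl⟩
  -- the second chain
  have hH : ∀ i : ℕ, NIon ρ v ((range (i + 1) ×ˢ (univ : Finset (Fin n'))).image
      (fun y => x (e (j₀ + (y.1 : ZMod q), y.2))) ∪ E0) (chB K₁ i * η) := by
    intro i
    induction i with
    | zero =>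
      refine NIon_mono hΓ ?_ (by rw [chB])
      intro z hz
      rcases mem_union.mp hz with hz | hz
      · obtain ⟨y, hy, rfl⟩ := mem_image.mp hz
        have hy1 := (mem_product.mp hy).1
        simp only [zero_add, range_one, mem_singleton] at hy1
        rw [hy1, Nat.cast_zero, add_zero, mem_Γ]
        exact Or.inl ⟨_, rfl⟩
      · obtain ⟨⟨i, t⟩, _, rfl⟩ := mem_image.mp hz
        exact (mem_Γ _).mpr (Or.inr ⟨_, _, rfl⟩)
    | succ i ih =>
      have hΔ2 : NIon ρ v (Γ.image (x * embP e (blk (Equiv.addRight ((i + 1 : ℕ) : ZMod q))) * x⁻¹))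
          (K₁ * η + 2 * ((((i + 1 : ℕ) : ℝ) + 2) * η)) := by
        refine NIon_conj hΓ _ (hbT (i + 1)) ?_
        intro z hz
        obtain ⟨w, hw, hwz⟩ := mem_image.mp hz
        rwa [← (Equiv.injective _ hwz)]
      let V : Finset X := (univ : Finset (Fin n')).image
        (fun m => x (e (j₀ + ((i + 1 : ℕ) : ZMod q), m)))
      have hVc : #V ≤ n' := by
        refine card_image_le.trans ?_
        simp
      refine NIon_union hE ih hΔ2 ?_ E0 V ?_ ?_ ?_ (by omega) ?_
      · intro z hz
        rcases mem_union.mp hz with hz | hz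
        · obtain ⟨⟨s, m⟩, hy, rfl⟩ := mem_image.mp hz
          have hy1 := mem_range.mp (mem_product.mp hy).1
          simp only at hy1
          by_cases hs : s < i + 1
          · refine mem_union_left _ (mem_union_left _ (mem_image.mpr ⟨(s, m), ?_, rfl⟩))
            exact mem_product.mpr ⟨mem_range.mpr hs, mem_univ _⟩
          · have hsi : s = i + 1 := by omega
            refine mem_union_right _ (mem_image.mpr ⟨x (e (j₀, m)), ?_, ?_⟩)
            · exact (mem_Γ _).mpr (Or.inl ⟨_, rfl⟩)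
            · rw [hbT1, hsi]
        · exact mem_union_left _ (mem_union_right _ hz)
      · exact subset_union_right
      · intro z hz
        obtain ⟨⟨i', t⟩, hy, rfl⟩ := mem_image.mp hz
        have ht : t ≠ 0 := (mem_erase.mp (mem_product.mp hy).2).1
        refine mem_image.mpr ⟨e₂ (i', t), (mem_Γ _).mpr (Or.inr ⟨_, _, rfl⟩), ?_⟩
        exact hbT2 _ _ (fun y => (h3 i' t ht y).2)
      · intro z hz
        obtain ⟨hz1, hz2⟩ := mem_sdiff.mp hz
        obtain ⟨w, hw, rfl⟩ := mem_image.mp hz1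
        have key : ∀ m, x (e (j₀, m)) = w →
            (x * embP e (blk (Equiv.addRight ((i + 1 : ℕ) : ZMod q))) * x⁻¹) w ∈ V := by
          rintro m rfl
          rw [hbT1]
          exact mem_image.mpr ⟨m, mem_univ _, rfl⟩
        rcases (mem_Γ _).mp hw with ⟨m, hm⟩ | ⟨i', t, hit⟩
        · exact key m hm
        · by_cases ht : t = 0
          · subst ht
            rw [h2] at hit
            exact key _ hit
          · exfalso
            apply hz2
            rw [← hit, hbT2 _ _ (fun y => (h3 i' t ht y).2)]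
            exact mem_union_right _ (mem_E0 _ _ ht)
      · rw [chB]
        push_cast
        nlinarith
  have hF0 := hH (q - 1)
  obtain ⟨K₂, hK₂⟩ : ∃ K, K = chB K₁ (q - 1) := ⟨_, rfl⟩
  rw [← hK₂] at hF0 ⊢
  have hq1 : q - 1 + 1 = q := by
    have := hq.out.pos
    omega
  obtain ⟨U0, hU0⟩ : ∃ s, s = univ.filter fun z : X => (∀ y, x (e y) ≠ z) ∧ (∀ y, e₂ y ≠ z) :=
    ⟨_, rfl⟩
  rw [← hU0] at h5
  have hF : NIon ρ v U0ᶜ (K₂ * η) := by
    refine NIon_mono hF0 ?_ le_rfl
    intro z hz
    rw [mem_compl, hU0, mem_filter] at hz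
    simp only [mem_univ, true_and, not_and_or, not_forall, not_not] at hz
    have key : ∀ j m, x (e (j, m)) = z → z ∈ (range (q - 1 + 1) ×ˢ (univ : Finset (Fin n'))).image
      (fun y => x (e (j₀ + (y.1 : ZMod q), y.2))) ∪ E0 := by
      rintro j m rfl
      refine mem_union_left _ (mem_image.mpr ⟨((j - j₀).val, m), ?_, ?_⟩)
      · rw [hq1]
        exact mem_product.mpr ⟨mem_range.mpr (ZMod.val_lt _), mem_univ _⟩
      · simp
    rcases hz with ⟨⟨j, m⟩, hjm⟩ | ⟨⟨i, t⟩, hit⟩
    · exact key j m hjm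
    · by_cases ht : t = 0
      · subst ht
        rw [h2] at hit
        exact key _ _ hit
      · rw [← hit]
        exact mem_union_right _ (mem_E0 _ _ ht)
  have hF' : NIon ρ v (univ.filter fun z => x z ∈ U0ᶜ) (K₂ * η + 2 * η) := by
    refine NIon_conj hF x⁻¹ (by rw [disp_inv]; exact hx) ?_
    intro z hz
    have := (mem_filter.mp hz).2
    rwa [perm_ai] at this
  have hcard1 : #(U0ᶜ) = Fintype.card X - #U0 := card_compl _
  have hcard2 : #(univ.filter fun z => x z ∈ U0ᶜ) = #(U0ᶜ) := by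
    rw [← card_image_of_injective (univ.filter fun z => x z ∈ U0ᶜ) x.injective]
    congr 1
    ext z
    constructor
    · intro hz
      obtain ⟨w, hw, rfl⟩ := mem_image.mp hz
      exact (mem_filter.mp hw).2
    · intro hz
      refine mem_image.mpr ⟨x⁻¹ z, mem_filter.mpr ⟨mem_univ _, ?_⟩, perm_ai _ _⟩
      rwa [perm_ai]
  have hcard3 := card_union_add_card_inter (U0ᶜ) (univ.filter fun z => x z ∈ U0ᶜ)
  have hcard4 : #(U0ᶜ ∪ (univ.filter fun z => x z ∈ U0ᶜ)) ≤ Fintype.card X := card_le_univ _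
  have hU0card : #U0 ≤ Fintype.card X := card_le_univ _
  have hall : NIon ρ v univ ((3 * K₂ + 2) * η) := by
    refine NIon_union hE hF hF' ?_ (U0ᶜ ∩ (univ.filter fun z => x z ∈ U0ᶜ)) U0
      inter_subset_left inter_subset_right ?_ (by omega) (by nlinarith)
    · intro z _
      by_cases hz : z ∈ U0
      · refine mem_union_right _ (mem_filter.mpr ⟨mem_univ _, ?_⟩)
        rw [hU0, mem_filter] at hz
        have h := h4 z hz.2.1 hz.2.2
        rw [mem_compl, hU0, mem_filter]
        rintro ⟨_, ha, hb⟩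
        rcases h with ⟨y, hy⟩ | ⟨y, hy⟩
        · exact ha y hy
        · exact hb y hy
      · exact mem_union_left _ (mem_compl.mpr hz)
    · intro z hz
      have := (mem_sdiff.mp hz).2
      simpa using this
  intro g hg
  exact hall g hg (fun z hz => absurd (mem_univ z) hz)

end KP23
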