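import Pool.Agent.N23.KP.Stm

/-!
Project KP (helper23), task CHEB (subtask 2323), by helper87: most assignments use no value more
than twice the average.
-/

namespace KP23
open Finset Equiv Equiv.Perm Filter Topology

/-- second moment of a centred sum over all functions -/
lemma cheb_mom (Λ : Type) [Fintype Λ] [DecidableEq Λ] (f : Λ → ℝ) (h0 : ∑ x, f x = 0)
    (h1 : ∑ x, f x ^ 2 ≤ 1) (r : ℕ) :
    (Fintype.card Λ : ℝ) * ∑ l : Fin r → Λ, (∑ i, f (l i)) ^ 2 ≤
      r * (Fintype.card Λ : ℝ) ^ r := by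
  induction r with
  | zero => simp
  | succ r ih =>
    have e1 : ∑ l : Fin (r + 1) → Λ, (∑ i, f (l i)) ^ 2 =
        (Fintype.card Λ : ℝ) * (∑ l : Fin r → Λ, (∑ i, f (l i)) ^ 2) +
          (Fintype.card Λ : ℝ) ^ r * ∑ x, f x ^ 2 := by
      rw [← (Fin.consEquiv (fun _ => Λ)).sum_comp, Fintype.sum_prod_type]
      have e2 : ∀ (x : Λ) (l : Fin r → Λ),
          (∑ i, f ((Fin.consEquiv (fun _ : Fin (r + 1) => Λ)) (x, l) i)) ^ 2 =
            (∑ i, f (l i)) ^ 2 + 2 * f x * (∑ i, f (l i)) + f x ^ 2 := by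
        intro x l
        rw [Fin.sum_univ_succ]
        simp only [Fin.consEquiv_apply, Fin.cons_zero, Fin.cons_succ]
        ring
      simp only [e2]
      simp only [Finset.sum_add_distrib, Finset.sum_const, Finset.card_univ, nsmul_eq_mul]
      have e3 : ∑ x : Λ, ∑ l : Fin r → Λ, 2 * f x * ∑ i, f (l i) = 0 := by
        have : ∀ x : Λ, ∑ l : Fin r → Λ, 2 * f x * ∑ i, f (l i) =
            f x * (2 * ∑ l : Fin r → Λ, ∑ i, f (l i)) := by
          intro x
          rw [← Finset.mul_sum]
          ring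
        simp only [this]
        rw [← Finset.sum_mul, h0, zero_mul]
      rw [e3, ← Finset.mul_sum]
      simp only [Fintype.card_fun, Fintype.card_fin]
      push_cast
      ring
    rw [e1]
    have hL : (0 : ℝ) ≤ Fintype.card Λ := by positivity
    have hLr : (0 : ℝ) ≤ (Fintype.card Λ : ℝ) ^ r := by positivity
    have h2 : (Fintype.card Λ : ℝ) * ((Fintype.card Λ : ℝ) *
        ∑ l : Fin r → Λ, (∑ i, f (l i)) ^ 2) ≤
        (Fintype.card Λ : ℝ) * (r * (Fintype.card Λ : ℝ) ^ r) :=
      mul_le_mul_of_nonneg_left ih hL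
    have h3 : (Fintype.card Λ : ℝ) * ((Fintype.card Λ : ℝ) ^ r * ∑ x, f x ^ 2) ≤
        (Fintype.card Λ : ℝ) * ((Fintype.card Λ : ℝ) ^ r * 1) :=
      mul_le_mul_of_nonneg_left (mul_le_mul_of_nonneg_left h1 hLr) hL
    push_cast
    rw [pow_succ]
    nlinarith

theorem CHEB : ST_CHEB := by
  intro Λ _ _ r M₀ θ hθ hr hLM hLθ
  have hLpos : 0 < Fintype.card Λ := by
    rcases Nat.eq_zero_or_pos (Fintype.card Λ) with h | h
    · rw [h, zero_mul] at hLM
      omega
    · exact h
  set L : ℝ := (Fintype.card Λ : ℝ) with hL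
  have hL0 : (0 : ℝ) < L := by rw [hL]; exact_mod_cast hLpos
  have hr0 : (0 : ℝ) < r := by exact_mod_cast hr
  have hLM' : L * M₀ = 2 * r := by rw [hL]; exact_mod_cast hLM
  -- the bound for one value
  have key : ∀ a : Λ, (#(univ.filter fun l : Fin r → Λ => M₀ < #(univ.filter fun i => l i = a)) :
      ℝ) ≤ L ^ r * L / r := by
    intro a
    set f : Λ → ℝ := fun x => (if x = a then 1 else 0) - 1 / L with hf
    have hf0 : ∑ x, f x = 0 := by
      rw [hf]
      simp only [Finset.sum_sub_distrib, Finset.sum_ite_eq', Finset.mem_univ, if_true,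
        Finset.sum_const, Finset.card_univ, nsmul_eq_mul]
      rw [← hL]
      field_simp
      ring
    have hf1 : ∑ x, f x ^ 2 ≤ 1 := by
      have : ∀ x, f x ^ 2 = (if x = a then 1 else 0) * (1 - 2 / L) + 1 / L ^ 2 := by
        intro x
        rw [hf]
        simp only
        split_ifs
        · field_simp
          ring
        · field_simp
          ring
      simp only [this]
      rw [Finset.sum_add_distrib, ← Finset.sum_mul, Finset.sum_ite_eq', if_pos (Finset.mem_univ _),
        Finset.sum_const, Finset.card_univ, nsmul_eq_mul, ← hL]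
      have : L * (1 / L ^ 2) = 1 / L := by field_simp
      rw [this]
      have : 0 < 1 / L := by positivity
      have h2 : 2 / L = 2 * (1 / L) := by ring
      rw [h2]
      linarith
    have hm := cheb_mom Λ f hf0 hf1 r
    rw [← hL] at hm
    set T := univ.filter fun l : Fin r → Λ => M₀ < #(univ.filter fun i => l i = a) with hT
    have hlow : (#T : ℝ) * (r / L) ^ 2 ≤ ∑ l : Fin r → Λ, (∑ i, f (l i)) ^ 2 := by
      have h1 : (#T : ℝ) * (r / L) ^ 2 = ∑ l ∈ T, (r / L) ^ 2 := by
        rw [Finset.sum_const, nsmul_eq_mul]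
      rw [h1]
      refine (Finset.sum_le_sum (fun l hl => ?_)).trans
        (Finset.sum_le_sum_of_subset_of_nonneg (Finset.subset_univ T)
          (fun l _ _ => sq_nonneg _))
      have h2 : M₀ < #(univ.filter fun i => l i = a) := (Finset.mem_filter.1 hl).2
      have h3 : ∑ i, f (l i) = (#(univ.filter fun i => l i = a) : ℝ) - r / L := by
        rw [hf]
        simp only [Finset.sum_sub_distrib, Finset.sum_const, Finset.card_univ, nsmul_eq_mul,
          Fintype.card_fin, Finset.sum_boole]
        ring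
      rw [h3]
      have h4 : (M₀ : ℝ) ≤ (#(univ.filter fun i => l i = a) : ℝ) := by exact_mod_cast h2.le
      have h5 : (M₀ : ℝ) = 2 * (r / L) := by
        field_simp
        linarith
      have h6 : r / L ≤ (#(univ.filter fun i => l i = a) : ℝ) - r / L := by linarith
      exact pow_le_pow_left₀ (by positivity) h6 2
    have h7 : L * ((#T : ℝ) * (r / L) ^ 2) ≤ r * L ^ r :=
      (mul_le_mul_of_nonneg_left hlow hL0.le).trans hm
    have h8 : L * ((#T : ℝ) * (r / L) ^ 2) = (#T : ℝ) * r * (r / L) := by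
      field_simp
    rw [h8] at h7
    rw [le_div_iff₀ hr0]
    have h9 : (#T : ℝ) * r * (r / L) * (L / r) ≤ r * L ^ r * (L / r) :=
      mul_le_mul_of_nonneg_right h7 (by positivity)
    have h10 : (#T : ℝ) * r * (r / L) * (L / r) = (#T : ℝ) * r := by field_simp
    have h11 : r * L ^ r * (L / r) = L ^ r * L := by field_simp
    rw [h10, h11] at h9
    exact h9
  have hsub : (univ.filter fun l : Fin r → Λ => ∃ a, M₀ < #(univ.filter fun i => l i = a)) ⊆
      (univ : Finset Λ).biUnion
        (fun a => univ.filter fun l : Fin r → Λ => M₀ < #(univ.filter fun i => l i = a)) := by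
    intro l hl
    obtain ⟨a, ha⟩ := (Finset.mem_filter.1 hl).2
    exact Finset.mem_biUnion.2 ⟨a, Finset.mem_univ _, Finset.mem_filter.2 ⟨Finset.mem_univ _, ha⟩⟩
  have h1 : (#(univ.filter fun l : Fin r → Λ => ∃ a, M₀ < #(univ.filter fun i => l i = a)) : ℝ) ≤
      ∑ a : Λ, (#(univ.filter fun l : Fin r → Λ => M₀ < #(univ.filter fun i => l i = a)) : ℝ) := by
    have := (Finset.card_le_card hsub).trans Finset.card_biUnion_le
    exact_mod_cast this
  refine h1.trans ((Finset.sum_le_sum (fun a _ => key a)).trans ?_)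
  rw [Finset.sum_const, Finset.card_univ, nsmul_eq_mul, ← hL]
  have h2 : L * (L ^ r * L / r) = L ^ 2 / r * L ^ r := by ring
  rw [h2]
  refine mul_le_mul_of_nonneg_right ?_ (by positivity)
  rw [div_le_iff₀ hr0]
  exact hLθ

end KP23
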