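import Pool.Agent.N23.KP.Stm

/-!
# KP, CONTR: ordered products of commuting contractions
-/

set_option autoImplicit false

namespace KP23

theorem contr_prod_le {E : Type} [NormedAddCommGroup E] [InnerProductSpace ℝ E] :
    ∀ (r : ℕ) (T : Fin r → Module.End ℝ E), (∀ i v, ‖T i v‖ ≤ ‖v‖) →
    ∀ v, ‖(List.ofFn T).prod v‖ ≤ ‖v‖ := by
  intro r
  induction r with
  | zero => intro T _ v; simp
  | succ r ih =>
    intro T hT v
    rw [List.ofFn_succ, List.prod_cons, Module.End.mul_apply]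
    exact (hT 0 _).trans (ih (fun i => T i.succ) (fun i => hT i.succ) v)

theorem contr_comm {E : Type} [NormedAddCommGroup E] [InnerProductSpace ℝ E] (A : Module.End ℝ E)
    (r : ℕ) (S : Fin r → Module.End ℝ E) (h : ∀ i v, A (S i v) = S i (A v)) (v : E) :
    A ((List.ofFn S).prod v) = (List.ofFn S).prod (A v) := by
  have h1 : Commute A (List.ofFn S).prod := by
    apply Commute.list_prod_right
    intro x hx
    rw [List.mem_ofFn] at hx
    obtain ⟨i, rfl⟩ := hx
    exact LinearMap.ext fun v => h i v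
  exact LinearMap.congr_fun h1.eq v

theorem CONTR : ST_CONTR := by
  intro E _ _ lam hlam r
  induction r with
  | zero =>
    intro T P _ _ _ _ _ _ _ _ v hv
    have hv' : v = 0 := by simpa using hv
    subst hv'
    simp
  | succ r ih =>
    intro T P hT hPP hPs hTP hPT hPTc hPPc hlamT v hv
    set T' : Module.End ℝ E := (List.ofFn fun i : Fin r => T i.succ).prod with hT'
    set P' : Module.End ℝ E := (List.ofFn fun i : Fin r => P i.succ).prod with hP'
    have eT : (List.ofFn T).prod = T 0 * T' := by rw [List.ofFn_succ, List.prod_cons]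
    have eP : (List.ofFn P).prod = P 0 * P' := by rw [List.ofFn_succ, List.prod_cons]
    rw [eP, Module.End.mul_apply] at hv
    rw [eT, Module.End.mul_apply]
    -- commutation
    have c1 : ∀ w, P 0 (T' w) = T' (P 0 w) := fun w =>
      contr_comm (P 0) r (fun i => T i.succ) (fun i v => hPTc 0 i.succ v (Fin.succ_ne_zero i).symm) w
    have c2 : ∀ w, P 0 (P' w) = P' (P 0 w) := fun w =>
      contr_comm (P 0) r (fun i => P i.succ) (fun i v => hPPc 0 i.succ v) w
    have c3 : ∀ w, ‖T' w‖ ≤ ‖w‖ := contr_prod_le r _ fun i => hT i.succ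
    -- the second part
    have h2 : T 0 (T' (P 0 v)) = T' (P 0 v) := by rw [← c1, hTP]
    have h3 : ‖T' (P 0 v)‖ ≤ lam * ‖P 0 v‖ := by
      apply ih (fun i => T i.succ) (fun i => P i.succ) (fun i => hT i.succ) (fun i => hPP i.succ)
        (fun i => hPs i.succ) (fun i => hTP i.succ) (fun i => hPT i.succ)
        (fun i j v hij => hPTc i.succ j.succ v fun h => hij (Fin.succ_injective _ h))
        (fun i j => hPPc i.succ j.succ) (fun i => hlamT i.succ)
      show P' (P 0 v) = 0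
      rw [← c2, hv]
    -- the first part
    have h4 : P 0 (v - P 0 v) = 0 := by rw [map_sub, hPP, sub_self]
    have h5 : P 0 (T' (v - P 0 v)) = 0 := by rw [c1, h4, map_zero]
    have h6 : ‖T 0 (T' (v - P 0 v))‖ ≤ lam * ‖v - P 0 v‖ :=
      (hlamT 0 _ h5).trans (mul_le_mul_of_nonneg_left (c3 _) hlam)
    -- orthogonality
    have h7 : inner ℝ (v - P 0 v) (P 0 v) = 0 := by
      rw [← hPs, h4, inner_zero_left]
    have h8 : inner ℝ (T 0 (T' (v - P 0 v))) (T' (P 0 v)) = 0 := by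
      rw [← c1, ← hPs, hPT, h5, inner_zero_left]
    have e1 : T 0 (T' v) = T 0 (T' (v - P 0 v)) + T' (P 0 v) := by
      conv_lhs => rw [← sub_add_cancel v (P 0 v)]
      rw [map_add, map_add, h2]
    have e2 : ‖v‖ ^ 2 = ‖v - P 0 v‖ ^ 2 + ‖P 0 v‖ ^ 2 := by
      conv_lhs => rw [← sub_add_cancel v (P 0 v)]
      rw [sq, sq, sq]
      exact norm_add_sq_eq_norm_sq_add_norm_sq_real h7
    have e3 : ‖T 0 (T' v)‖ ^ 2 = ‖T 0 (T' (v - P 0 v))‖ ^ 2 + ‖T' (P 0 v)‖ ^ 2 := by
      rw [e1, sq, sq, sq]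
      exact norm_add_sq_eq_norm_sq_add_norm_sq_real h8
    have k1 : ‖T 0 (T' (v - P 0 v))‖ ^ 2 ≤ (lam * ‖v - P 0 v‖) ^ 2 :=
      pow_le_pow_left₀ (norm_nonneg _) h6 2
    have k2 : ‖T' (P 0 v)‖ ^ 2 ≤ (lam * ‖P 0 v‖) ^ 2 := pow_le_pow_left₀ (norm_nonneg _) h3 2
    refine le_of_sq_le_sq ?_ (mul_nonneg hlam (norm_nonneg _))
    rw [e3]
    calc _ ≤ (lam * ‖v - P 0 v‖) ^ 2 + (lam * ‖P 0 v‖) ^ 2 := add_le_add k1 k2
      _ = lam ^ 2 * (‖v - P 0 v‖ ^ 2 + ‖P 0 v‖ ^ 2) := by ring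
      _ = (lam * ‖v‖) ^ 2 := by rw [← e2]; ring

end KP23
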