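import Pool.Agent.N23.KP.Stm

namespace KP23
open Finset Equiv Equiv.Perm Filter Topology

theorem COUNT : ST_COUNT := by
  intro δ hδ hδ1
  have hlog : Tendsto (fun n : ℕ => Real.log (n : ℝ)) atTop atTop :=
    Real.tendsto_log_atTop.comp tendsto_natCast_atTop_atTop
  set a : ℝ := 1 - δ / 2 with ha
  have ha0 : 0 < a := by linarith
  filter_upwards [hlog.eventually_ge_atTop (2 / δ * (a * (1 - Real.log a))),
    hlog.eventually_ge_atTop (1 - Real.log a), eventually_gt_atTop 0] with n hn1 hn2 hn0 R hR
  have hn : (0 : ℝ) < n := by exact_mod_cast hn0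
  have han : 0 < a * n := mul_pos ha0 hn
  have hR0 : (0 : ℝ) < R := lt_of_lt_of_le han hR
  have h1 : Real.log a + Real.log n ≤ Real.log R := by
    rw [← Real.log_mul ha0.ne' hn.ne']
    exact Real.log_le_log han hR
  have h2 : a * n * (Real.log a + Real.log n - 1) ≤ R * (Real.log R - 1) := by
    apply mul_le_mul hR (by linarith) (by linarith) hR0.le
  have h3 : (1 - δ) * (n * Real.log n) ≤ a * n * (Real.log a + Real.log n - 1) := by
    have h4 : a * (1 - Real.log a) ≤ δ / 2 * Real.log n := by
      have h5 : δ / 2 * (2 / δ * (a * (1 - Real.log a))) ≤ δ / 2 * Real.log n :=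
        mul_le_mul_of_nonneg_left hn1 (by positivity)
      have h6 : δ / 2 * (2 / δ * (a * (1 - Real.log a))) = a * (1 - Real.log a) := by
        field_simp
      linarith
    have h7 : (1 - δ) * Real.log n ≤ a * (Real.log a + Real.log n - 1) := by
      have : (1 - δ) = a - δ / 2 := by rw [ha]; ring
      rw [this]
      nlinarith
    nlinarith
  have hfac : (0 : ℝ) < R.factorial := by exact_mod_cast R.factorial_pos
  have h5 : Real.exp (R * (Real.log R - 1)) ≤ R.factorial := by
    have h6 := Real.pow_div_factorial_le_exp (R : ℝ) hR0.le R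
    rw [div_le_iff₀ hfac] at h6
    have h7 : Real.exp (R * (Real.log R - 1)) * Real.exp R = (R : ℝ) ^ R := by
      rw [← Real.exp_add]
      have : (R : ℝ) * (Real.log R - 1) + R = R * Real.log R := by ring
      rw [this, Real.exp_nat_mul, Real.exp_log hR0]
    have h8 : Real.exp (R * (Real.log R - 1)) * Real.exp R ≤ R.factorial * Real.exp R := by
      rw [h7, mul_comm (R.factorial : ℝ)]; exact h6
    exact le_of_mul_le_mul_right h8 (Real.exp_pos _)
  have h6 : (n.factorial : ℝ) ^ (1 - δ) ≤ Real.exp ((1 - δ) * (n * Real.log n)) := by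
    have h7 : (n.factorial : ℝ) ≤ (n : ℝ) ^ n := by exact_mod_cast Nat.factorial_le_pow n
    calc (n.factorial : ℝ) ^ (1 - δ) ≤ ((n : ℝ) ^ n) ^ (1 - δ) :=
          Real.rpow_le_rpow (by positivity) h7 (by linarith)
      _ = Real.exp ((1 - δ) * (n * Real.log n)) := by
          rw [Real.rpow_def_of_pos (by positivity), Real.log_pow, mul_comm]
  exact h6.trans ((Real.exp_le_exp.mpr (h3.trans h2)).trans h5)

end KP23
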