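import Pool.Agent.N23.KP.Stm

/-!
Project KP: derandomized squaring.
-/

set_option autoImplicit false

namespace KP23
open Finset Equiv Equiv.Perm

noncomputable section

namespace DSQx

/-- sums over `Ix p (s + 2)` -/
lemma sum_split {p s : ℕ} [Fact p.Prime] {A : Type} [AddCommMonoid A]
    (G : Ix p s → ZMod p → ZMod p → A) :
    ∑ z : Ix p (s + 2), G (fun t => z (Fin.castAdd 2 t)) (z (Fin.natAdd s 0)) (z (Fin.natAdd s 1)) =
      ∑ i : Ix p s, ∑ α : ZMod p, ∑ x : ZMod p, G i α x := by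
  have h1 : ∑ z : Ix p (s + 2),
      G (fun t => z (Fin.castAdd 2 t)) (z (Fin.natAdd s 0)) (z (Fin.natAdd s 1)) =
      ∑ q : (Fin s → ZMod p) × (Fin 2 → ZMod p), G q.1 (q.2 0) (q.2 1) := by
    refine (Fintype.sum_equiv (Fin.appendEquiv s 2) _ _ fun q => ?_).symm
    simp only [Fin.appendEquiv, Equiv.coe_fn_mk, Fin.append_left, Fin.append_right]
  rw [h1, Fintype.sum_prod_type]
  refine Finset.sum_congr rfl fun i _ => ?_
  have h2 : ∑ c : Fin 2 → ZMod p, G i (c 0) (c 1) = ∑ q : ZMod p × ZMod p, G i q.1 q.2 :=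
    Fintype.sum_equiv (finTwoArrowEquiv (ZMod p)) _ _ fun c => rfl
  rw [h2, Fintype.sum_prod_type]

variable {X : Type} [Fintype X] [DecidableEq X] {E : Type} [NormedAddCommGroup E]
  [InnerProductSpace ℝ E]

lemma inner_inv (ρ : Perm X →* (E ≃ₗᵢ[ℝ] E)) (g : Perm X) (v w : E) :
    inner ℝ (ρ g v) w = inner ℝ v (ρ g⁻¹ w) := by
  have h1 : ρ g (ρ g⁻¹ w) = w := by
    change (ρ g * ρ g⁻¹) w = w
    rw [← map_mul, mul_inv_cancel, map_one]
    rfl
  conv_lhs => rw [← h1]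
  exact (ρ g).inner_map_map v _

/-- the average over the alternating group vanishes at `∑ ρ (g j) v` -/
lemma avg_zero {ι : Type} [Fintype ι] (ρ : Perm X →* (E ≃ₗᵢ[ℝ] E)) (g : ι → Perm X)
    (hg : ∀ i, sign (g i) = 1) (v : E)
    (hv : ∑ h : alternatingGroup X, ρ (h : Perm X) v = 0) :
    ∑ h : alternatingGroup X, ρ (h : Perm X) (∑ j, ρ (g j) v) = 0 := by
  simp_rw [map_sum]
  rw [Finset.sum_comm]
  refine Finset.sum_eq_zero fun j _ => ?_
  rw [← hv]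
  refine Fintype.sum_equiv (Equiv.mulRight (⟨g j, Equiv.Perm.mem_alternatingGroup.2 (hg j)⟩ :
    alternatingGroup X)) _ _ fun h => ?_
  simp only [Equiv.coe_mulRight, Subgroup.coe_mul, map_mul]
  rfl

end DSQx

open DSQx in
theorem DSQ (hA : ST_AUX) : ST_DSQ := by
  intro p _ s hs X _ _ g κ hκ hNb
  obtain ⟨hsg, hN⟩ := hNb
  refine ⟨fun z => ?_, fun E _ _ ρ v hv => ?_⟩
  · unfold dsq
    rw [Perm.sign_mul, hsg, hsg, one_mul]
  have hp0 : (0 : ℝ) < p := by exact_mod_cast (Fact.out : p.Prime).pos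
  have hs1 : (0 : ℝ) ≤ (s : ℝ) - 1 := by
    have : (1 : ℝ) ≤ s := by exact_mod_cast hs
    linarith
  set S : ℝ := (p : ℝ) ^ s with hS
  have hS0 : 0 < S := by positivity
  have hcard : (Fintype.card (Ix p s) : ℝ) = S := by
    rw [hS]
    simp [Ix, ZMod.card]
  have hcard2 : (Fintype.card (Ix p (s + 2)) : ℝ) = S * (p : ℝ) ^ 2 := by
    rw [hS, ← pow_add]
    simp [Ix, ZMod.card]
  set T : E := ∑ z : Ix p (s + 2), ρ (dsq g z) v with hT
  set u : E := ∑ j, ρ (g j) v with hu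
  have hu0 := avg_zero ρ g hsg v hv
  have hun : ‖u‖ ≤ κ * S * ‖v‖ := by
    have := hN E ρ v hv
    rwa [hcard] at this
  have hun2 : ‖∑ i, ρ (g i) u‖ ≤ κ * S * ‖u‖ := by
    have := hN E ρ u hu0
    rwa [hcard] at this
  -- the bilinear estimate
  have key : ∀ w : E, inner ℝ T w ≤ (κ ^ 2 + ((s : ℝ) - 1) / p) * (S * (p : ℝ) ^ 2) * ‖v‖ * ‖w‖ := by
    intro w
    have e1 : inner ℝ T w = ∑ i : Ix p s, ∑ α : ZMod p, ∑ x : ZMod p,
        inner ℝ (ρ (g (fun t => i t + α * x ^ (t : ℕ))) v) (ρ (g i)⁻¹ w) := by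
      rw [hT, sum_inner]
      rw [← sum_split (fun i α x => inner ℝ (ρ (g (fun t => i t + α * x ^ (t : ℕ))) v)
        (ρ (g i)⁻¹ w))]
      refine Finset.sum_congr rfl fun z _ => ?_
      rw [← inner_inv]
      unfold dsq
      rw [map_mul]
      rfl
    have h1 := hA p s hs E (fun j => ρ (g j) v) (fun i => ρ (g i)⁻¹ w)
    rw [← e1] at h1
    have h2 : ∑ i : Ix p s, ‖ρ (g i) v‖ ^ 2 = S * ‖v‖ ^ 2 := by
      simp only [LinearIsometryEquiv.norm_map]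
      rw [Finset.sum_const, Finset.card_univ, nsmul_eq_mul, hcard]
    have h3 : ∑ i : Ix p s, ‖ρ (g i)⁻¹ w‖ ^ 2 = S * ‖w‖ ^ 2 := by
      simp only [LinearIsometryEquiv.norm_map]
      rw [Finset.sum_const, Finset.card_univ, nsmul_eq_mul, hcard]
    have h4 : Real.sqrt (S * ‖v‖ ^ 2) * Real.sqrt (S * ‖w‖ ^ 2) = S * ‖v‖ * ‖w‖ := by
      rw [← Real.sqrt_mul (by positivity)]
      have : S * ‖v‖ ^ 2 * (S * ‖w‖ ^ 2) = (S * ‖v‖ * ‖w‖) ^ 2 := by ring
      rw [this, Real.sqrt_sq (by positivity)]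
    rw [h2, h3, mul_assoc _ (Real.sqrt _) (Real.sqrt _), h4] at h1
    have h5 : inner ℝ u (∑ i, ρ (g i)⁻¹ w) = inner ℝ (∑ i, ρ (g i) u) w := by
      rw [inner_sum, sum_inner]
      exact Finset.sum_congr rfl fun i _ => (inner_inv ρ (g i) u w).symm
    have h6 : inner ℝ (∑ i, ρ (g i) u) w ≤ κ * S * (κ * S * ‖v‖) * ‖w‖ := by
      refine (real_inner_le_norm _ _).trans ?_
      refine mul_le_mul_of_nonneg_right (hun2.trans ?_) (norm_nonneg w)
      exact mul_le_mul_of_nonneg_left hun (by positivity)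
    have h7 := (abs_le.1 h1).2
    rw [h5] at h7
    have h8 : (p : ℝ) ^ 2 / S * inner ℝ (∑ i, ρ (g i) u) w ≤
        (p : ℝ) ^ 2 / S * (κ * S * (κ * S * ‖v‖) * ‖w‖) :=
      mul_le_mul_of_nonneg_left h6 (by positivity)
    have h9 : (p : ℝ) ^ 2 / S * (κ * S * (κ * S * ‖v‖) * ‖w‖) =
        κ ^ 2 * (S * (p : ℝ) ^ 2) * ‖v‖ * ‖w‖ := by
      field_simp
    have h10 : (κ ^ 2 + ((s : ℝ) - 1) / p) * (S * (p : ℝ) ^ 2) * ‖v‖ * ‖w‖ =
        κ ^ 2 * (S * (p : ℝ) ^ 2) * ‖v‖ * ‖w‖ + ((s : ℝ) - 1) * p * (S * ‖v‖ * ‖w‖) := by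
      field_simp
    rw [h10]
    linarith
  rw [hcard2]
  have hT2 := key T
  rw [real_inner_self_eq_norm_sq, sq] at hT2
  rcases eq_or_lt_of_le (norm_nonneg T) with h0 | h0
  · rw [← h0]
    positivity
  · exact le_of_mul_le_mul_right hT2 h0

end

end KP23
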