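import Pool.Agent.N23.KP.Stm2

/-!
Project KP (helper23): the Kazhdan form implies the spectral gap and generation (helper839).
-/

namespace KP23
open Finset Equiv Equiv.Perm Filter Topology RC14

noncomputable section

namespace EXPD

/-- the functions on the symmetric group -/
abbrev FP (n : ℕ) : Type := EuclideanSpace ℝ (Perm (Fin n))

/-- the right regular representation -/
def RP (n : ℕ) : Perm (Fin n) →* (FP n ≃ₗᵢ[ℝ] FP n) where
  toFun g := LinearIsometryEquiv.piLpCongrLeft 2 ℝ ℝ (Equiv.mulRight g⁻¹)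
  map_one' := by
    ext f a
    simp only [LinearIsometryEquiv.piLpCongrLeft_apply, Equiv.piCongrLeft'_apply]
    simp
    rfl
  map_mul' g h := by
    ext f a
    change f.ofLp ((Equiv.mulRight (g * h)⁻¹).symm a) =
      f.ofLp ((Equiv.mulRight h⁻¹).symm ((Equiv.mulRight g⁻¹).symm a))
    simp [mul_assoc]

lemma RP_apply {n : ℕ} (g : Perm (Fin n)) (f : FP n) (h : Perm (Fin n)) :
    RP n g f h = f (h * g) := by
  simp [RP, LinearIsometryEquiv.piLpCongrLeft_apply, Equiv.piCongrLeft']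

variable {n : ℕ}

open Classical in
/-- the extension by zero -/
def ex (f : Alt n → ℝ) : FP n :=
  WithLp.toLp 2 fun h => if hh : h ∈ alternatingGroup (Fin n) then f ⟨h, hh⟩ else 0

lemma ex_coe (f : Alt n → ℝ) (g : Alt n) : ex f (g : Perm (Fin n)) = f g := by
  unfold ex
  simp

lemma ex_odd (f : Alt n → ℝ) {h : Perm (Fin n)} (hh : h ∉ alternatingGroup (Fin n)) :
    ex f h = 0 := by
  unfold ex
  simp [hh]

open Classical in
/-- sums over the symmetric group of functions which vanish on odd permutations -/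
lemma sum_ex (φ : Perm (Fin n) → ℝ) (h : ∀ g, g ∉ alternatingGroup (Fin n) → φ g = 0) :
    ∑ g, φ g = ∑ g : Alt n, φ g := by
  have h1 : ∑ g, φ g = ∑ g ∈ univ.filter (fun g => g ∈ alternatingGroup (Fin n)), φ g := by
    rw [Finset.sum_filter]
    refine Finset.sum_congr rfl fun g _ => ?_
    split_ifs with hg
    · rfl
    · exact h g hg
  rw [h1]
  exact Finset.sum_subtype _ (fun g => by simp) φ

lemma norm_ex (f : Alt n → ℝ) : ‖ex f‖ ^ 2 = ∑ g, f g ^ 2 := by
  rw [EuclideanSpace.norm_sq_eq]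
  rw [sum_ex (fun h => ‖ex f h‖ ^ 2) fun g hg => by rw [ex_odd f hg]; simp]
  refine Finset.sum_congr rfl fun g _ => ?_
  rw [ex_coe, Real.norm_eq_abs, sq_abs]

lemma mem_mul (x : Alt n) {h : Perm (Fin n)} (hh : h ∉ alternatingGroup (Fin n)) :
    h * (x : Perm (Fin n)) ∉ alternatingGroup (Fin n) := by
  intro hc
  exact hh ((Subgroup.mul_mem_cancel_right _ x.2).1 hc)

lemma disp_ex (f : Alt n → ℝ) (x : Alt n) :
    ‖RP n (x : Perm (Fin n)) (ex f) - ex f‖ ^ 2 = ∑ g, (f (g * x) - f g) ^ 2 := by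
  rw [EuclideanSpace.norm_sq_eq]
  rw [sum_ex (fun h => ‖(RP n (x : Perm (Fin n)) (ex f) - ex f) h‖ ^ 2) fun g hg => by
    rw [PiLp.sub_apply, RP_apply, ex_odd f hg, ex_odd f (mem_mul x hg)]; simp]
  refine Finset.sum_congr rfl fun g _ => ?_
  rw [PiLp.sub_apply, RP_apply, ex_coe, Real.norm_eq_abs, sq_abs]
  have h1 : ex f ((g : Perm (Fin n)) * (x : Perm (Fin n))) = f (g * x) := ex_coe f (g * x)
  rw [h1]

lemma sum_RP (f : Alt n → ℝ) (hf : ∑ g, f g = 0) :
    ∑ h : Alt n, RP n (h : Perm (Fin n)) (ex f) = 0 := by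
  ext k
  rw [WithLp.ofLp_sum, Finset.sum_apply]
  simp only [RP_apply]
  change _ = (0 : ℝ)
  by_cases hk : k ∈ alternatingGroup (Fin n)
  · have h1 : ∀ h : Alt n, ex f (k * (h : Perm (Fin n))) = f (⟨k, hk⟩ * h) := fun h =>
      ex_coe f (⟨k, hk⟩ * h)
    simp only [h1]
    rw [← hf]
    exact Equiv.sum_comp (Equiv.mulLeft (⟨k, hk⟩ : Alt n)) f
  · exact Finset.sum_eq_zero fun h _ => ex_odd f (mem_mul h hk)

/-- the spectral inequality -/
theorem gap (x y : Alt n) {K : ℝ}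
    (h : KZ ![(x : Perm (Fin n)), (y : Perm (Fin n))] K) (f : Alt n → ℝ) (hf : ∑ g, f g = 0) :
    ∑ g, f g ^ 2 ≤ K ^ 2 * (∑ g, (f (g * x) - f g) ^ 2 + ∑ g, (f (g * y) - f g) ^ 2) := by
  obtain ⟨Dx, hDx⟩ : ∃ D, D = ∑ g, (f (g * x) - f g) ^ 2 := ⟨_, rfl⟩
  obtain ⟨Dy, hDy⟩ : ∃ D, D = ∑ g, (f (g * y) - f g) ^ 2 := ⟨_, rfl⟩
  have hx0 : 0 ≤ Dx := by rw [hDx]; exact Finset.sum_nonneg fun g _ => sq_nonneg _
  have hy0 : 0 ≤ Dy := by rw [hDy]; exact Finset.sum_nonneg fun g _ => sq_nonneg _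
  rw [← hDx, ← hDy]
  obtain ⟨η, hη⟩ : ∃ η, η = √(Dx + Dy) := ⟨_, rfl⟩
  have hη0 : 0 ≤ η := by rw [hη]; exact Real.sqrt_nonneg _
  have hη2 : η ^ 2 = Dx + Dy := by rw [hη]; exact Real.sq_sqrt (by positivity)
  have h1 : ∀ i, ‖RP n (![(x : Perm (Fin n)), (y : Perm (Fin n))] i) (ex f) - ex f‖ ≤ η := by
    intro i
    refine le_of_sq_le_sq ?_ hη0
    rw [hη2]
    fin_cases i
    · change ‖RP n (x : Perm (Fin n)) (ex f) - ex f‖ ^ 2 ≤ _
      rw [disp_ex, ← hDx]
      linarith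
    · change ‖RP n (y : Perm (Fin n)) (ex f) - ex f‖ ^ 2 ≤ _
      rw [disp_ex, ← hDy]
      linarith
  have h2 : ∀ g : Alt n, ‖RP n (g : Perm (Fin n)) (ex f) - ex f‖ ≤ K * η := fun g =>
    h.2 (FP n) (RP n) (ex f) η h1 g (Perm.mem_alternatingGroup.1 g.2)
  have h3 : ∑ g : Alt n, (RP n (g : Perm (Fin n)) (ex f) - ex f) =
      -((Fintype.card (Alt n) : ℝ) • ex f) := by
    rw [Finset.sum_sub_distrib, sum_RP f hf, Finset.sum_const, Finset.card_univ, zero_sub,
      ← Nat.cast_smul_eq_nsmul ℝ]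
  have h4 : (Fintype.card (Alt n) : ℝ) * ‖ex f‖ ≤ Fintype.card (Alt n) * (K * η) := by
    have h5 := norm_sum_le_of_le (s := (univ : Finset (Alt n)))
      (f := fun g : Alt n => RP n (g : Perm (Fin n)) (ex f) - ex f) fun g _ => h2 g
    rw [h3, norm_neg, norm_smul, Finset.sum_const, Finset.card_univ, nsmul_eq_mul,
      Real.norm_eq_abs, Nat.abs_cast] at h5
    exact h5
  have hc : (0 : ℝ) < Fintype.card (Alt n) := by exact_mod_cast Fintype.card_pos
  have h5 : ‖ex f‖ ≤ K * η := le_of_mul_le_mul_left h4 hc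
  have h6 : ‖ex f‖ ^ 2 ≤ (K * η) ^ 2 := pow_le_pow_left₀ (norm_nonneg _) h5 2
  rw [norm_ex, mul_pow, hη2] at h6
  exact h6

lemma corr (x : Alt n) (f : Alt n → ℝ) : ∑ g, f g * f (g * x⁻¹) = ∑ g, f g * f (g * x) := by
  rw [← Equiv.sum_comp (Equiv.mulRight x) fun g => f g * f (g * x⁻¹)]
  refine Finset.sum_congr rfl fun g _ => ?_
  simp only [Equiv.coe_mulRight, mul_inv_cancel_right]
  ring

lemma corr2 (x : Alt n) (f : Alt n → ℝ) :
    ∑ g, (f (g * x) - f g) ^ 2 = 2 * ∑ g, f g ^ 2 - 2 * ∑ g, f g * f (g * x) := by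
  have h1 : ∑ g, f (g * x) ^ 2 = ∑ g, f g ^ 2 :=
    Equiv.sum_comp (Equiv.mulRight x) fun g => f g ^ 2
  have h2 : ∀ g, (f (g * x) - f g) ^ 2 = f (g * x) ^ 2 + f g ^ 2 - 2 * (f g * f (g * x)) :=
    fun g => by ring
  simp only [h2]
  rw [Finset.sum_sub_distrib, Finset.sum_add_distrib, h1, ← Finset.mul_sum]
  ring

end EXPD

open EXPD in
theorem EXPD : ST_EXPD := by
  classical
  intro n x y K hK h
  refine ⟨?_, fun f hf => ?_⟩
  · -- generation
    by_contra hne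
    obtain ⟨H, hH⟩ : ∃ H : Subgroup (Alt n), H = Subgroup.closure (Set.range ![x, y]) := ⟨_, rfl⟩
    rw [← hH] at hne
    have hx : x ∈ H := by
      rw [hH]
      exact Subgroup.subset_closure ⟨0, rfl⟩
    have hy : y ∈ H := by
      rw [hH]
      exact Subgroup.subset_closure ⟨1, rfl⟩
    obtain ⟨g0, hg0⟩ : ∃ g0, g0 ∉ H := by
      by_contra hno
      push Not at hno
      exact hne ((Subgroup.eq_top_iff' H).2 hno)
    obtain ⟨c, hc⟩ : ∃ c : ℝ, c = (∑ g : Alt n, if g ∈ H then (1 : ℝ) else 0) /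
      Fintype.card (Alt n) := ⟨_, rfl⟩
    have hc0 : (0 : ℝ) < Fintype.card (Alt n) := by exact_mod_cast Fintype.card_pos
    have hf : ∑ g : Alt n, ((if g ∈ H then (1 : ℝ) else 0) - c) = 0 := by
      rw [Finset.sum_sub_distrib, Finset.sum_const, Finset.card_univ, nsmul_eq_mul, hc,
        mul_div_cancel₀ _ hc0.ne', sub_self]
    have h1 := gap x y h _ hf
    have h2 : ∀ z ∈ H, ∑ g : Alt n, (((if g * z ∈ H then (1 : ℝ) else 0) - c) -
        ((if g ∈ H then (1 : ℝ) else 0) - c)) ^ 2 = 0 := by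
      intro z hz
      refine Finset.sum_eq_zero fun g _ => ?_
      rw [Subgroup.mul_mem_cancel_right H hz]
      ring
    rw [h2 x hx, h2 y hy, add_zero, mul_zero] at h1
    have h3 := (Finset.sum_eq_zero_iff_of_nonneg fun g _ => sq_nonneg _).1
      (le_antisymm h1 (Finset.sum_nonneg fun g _ => sq_nonneg _))
    have h4 := h3 1 (Finset.mem_univ _)
    have h5 := h3 g0 (Finset.mem_univ _)
    rw [if_pos H.one_mem] at h4
    rw [if_neg hg0] at h5
    have h6 := pow_eq_zero_iff (two_ne_zero) |>.1 h4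
    have h7 := pow_eq_zero_iff (two_ne_zero) |>.1 h5
    linarith
  · have h1 := gap x y h f hf
    rw [corr2 x f, corr2 y f] at h1
    have h2 : ∑ g, f g * walk ![x, y] f g =
        (∑ g, f g * f (g * x) + ∑ g, f g * f (g * y)) / 2 := by
      have h3 : ∀ g, f g * walk ![x, y] f g = (f g * f (g * x) + f g * f (g * x⁻¹) +
          (f g * f (g * y) + f g * f (g * y⁻¹))) / 4 := by
        intro g
        unfold walk
        rw [Fin.sum_univ_two]
        simp only [Matrix.cons_val_zero, Matrix.cons_val_one]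
        push_cast
        ring
      simp only [h3]
      rw [← Finset.sum_div, Finset.sum_add_distrib, Finset.sum_add_distrib,
        Finset.sum_add_distrib, corr x f, corr y f]
      ring
    rw [h2]
    obtain ⟨S, hS⟩ : ∃ S, S = ∑ g, f g ^ 2 := ⟨_, rfl⟩
    obtain ⟨a, ha⟩ : ∃ a, a = ∑ g, f g * f (g * x) := ⟨_, rfl⟩
    obtain ⟨b, hb⟩ : ∃ b, b = ∑ g, f g * f (g * y) := ⟨_, rfl⟩
    rw [← hS, ← ha, ← hb] at h1
    rw [← hS, ← ha, ← hb]
    have hK2 : 0 < K ^ 2 := by positivity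
    have e : (1 - 1 / (4 * K ^ 2)) * S = S - S / (4 * K ^ 2) := by
      field_simp
    rw [e]
    have h4 : S / (4 * K ^ 2) ≤ (2 * S - 2 * a + (2 * S - 2 * b)) / 4 := by
      rw [div_le_div_iff₀ (by positivity) (by norm_num)]
      nlinarith
    linarith

end

end KP23
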