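import Pool.Agent.N23.KP.Stm

/-! # KP/EXT: the extension lemma -/

namespace KP23
open Finset Equiv Equiv.Perm

/-- extension of an injection to an even permutation supported on `Δ` -/
lemma EXT_aux {X : Type} [Fintype X] [DecidableEq X] (Δ A : Finset X) (hA : A ⊆ Δ)
    (hcard : #A + 2 ≤ #Δ) (f : X → X) (hf : ∀ a ∈ A, f a ∈ Δ) (hinj : ∀ a ∈ A, ∀ b ∈ A,
    f a = f b → a = b) :
    ∃ t : Perm X, sign t = 1 ∧ (∀ x, x ∉ Δ → t x = x) ∧ ∀ a ∈ A, t a = f a := by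
  classical
  have hI : Set.InjOn (fun x => if x ∈ Δ then f x else x) (A ∪ Δᶜ : Finset X) := by
    intro a ha b hb hab
    simp only [coe_union, coe_compl, Set.mem_union, Set.mem_compl_iff, mem_coe] at ha hb
    simp only at hab
    rcases ha with ha | ha <;> rcases hb with hb | hb
    · rw [if_pos (hA ha), if_pos (hA hb)] at hab
      exact hinj a ha b hb hab
    · rw [if_pos (hA ha), if_neg hb] at hab
      exact absurd (hab ▸ hf a ha) hb
    · rw [if_neg ha, if_pos (hA hb)] at hab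
      exact absurd (hab.symm ▸ hf b hb) ha
    · rwa [if_neg ha, if_neg hb] at hab
  obtain ⟨g, hg⟩ := Finset.exists_equiv_extend_of_card_eq (α := X) (t := (univ : Finset X))
    (by simp) (s := A ∪ Δᶜ) (f := fun x => if x ∈ Δ then f x else x) (Finset.subset_univ _) hI
  set t₀ : Perm X := g.trans (Equiv.subtypeUnivEquiv (fun x => Finset.mem_univ x)) with ht₀
  have h1 : ∀ x, x ∉ Δ → t₀ x = x := by
    intro x hx
    have := hg x (by simp [hx])
    simp only [if_neg hx] at this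
    exact this
  have h2 : ∀ a ∈ A, t₀ a = f a := by
    intro a ha
    have := hg a (by simp [ha])
    simp only [if_pos (hA ha)] at this
    exact this
  rcases Int.units_eq_one_or (sign t₀) with hs | hs
  · exact ⟨t₀, hs, h1, h2⟩
  · have hc : 1 < #(Δ \ A) := by
      rw [Finset.card_sdiff_of_subset hA]
      omega
    obtain ⟨a, ha, b, hb, hab⟩ := Finset.one_lt_card.1 hc
    rw [Finset.mem_sdiff] at ha hb
    refine ⟨t₀ * swap a b, ?_, ?_, ?_⟩
    · rw [map_mul, hs, sign_swap hab]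
      rfl
    · intro x hx
      rw [Perm.mul_apply, swap_apply_of_ne_of_ne]
      · exact h1 x hx
      · rintro rfl; exact hx ha.1
      · rintro rfl; exact hx hb.1
    · intro x hx
      rw [Perm.mul_apply, swap_apply_of_ne_of_ne]
      · exact h2 x hx
      · rintro rfl; exact ha.2 hx
      · rintro rfl; exact hb.2 hx

theorem EXT : ST_EXT := by
  intro X _ _ Δ₁ Δ₂ hΔ E _ _ ρ v η₁ η₂ h₁ h₂ g hg hsup
  have hgm : ∀ x, x ∈ Δ₁ ∪ Δ₂ → g x ∈ Δ₁ ∪ Δ₂ := by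
    intro x hx
    by_contra hc
    have h3 := hsup _ hc
    have h4 : g x = x := g.injective h3
    exact hc (h4.symm ▸ hx)
  set Z : Finset X := Δ₁.filter (fun z => g z ∈ Δ₁) with hZ
  have hcZ : #(Δ₁ \ Δ₂) + 2 ≤ #Z := by
    have e1 : #Z + #(Δ₁.filter (fun z => ¬ g z ∈ Δ₁)) = #Δ₁ :=
      Finset.card_filter_add_card_filter_not _
    have e2 : #(Δ₁.filter (fun z => ¬ g z ∈ Δ₁)) ≤ #(Δ₂ \ Δ₁) := by
      refine Finset.card_le_card_of_injOn g ?_ g.injective.injOn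
      intro z hz
      have hz' := Finset.mem_filter.1 (Finset.mem_coe.1 hz)
      have h3 := hgm z (Finset.mem_union_left _ hz'.1)
      rw [Finset.mem_union] at h3
      rw [Finset.mem_coe, Finset.mem_sdiff]
      exact ⟨h3.resolve_left hz'.2, hz'.2⟩
    have e3 : #(Δ₁ ∩ Δ₂) + #(Δ₁ \ Δ₂) = #Δ₁ := Finset.card_inter_add_card_sdiff Δ₁ Δ₂
    omega
  have hcE : #(Δ₁ \ Δ₂) + 2 ≤ #Δ₁ := hcZ.trans (Finset.card_filter_le _ _)
  -- an injection of `Δ₁ \ Δ₂` into `Z`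
  obtain ⟨f, hf1, hf2⟩ : ∃ f : X → X, (∀ a ∈ Δ₁ \ Δ₂, f a ∈ Z) ∧
      ∀ a ∈ Δ₁ \ Δ₂, ∀ b ∈ Δ₁ \ Δ₂, f a = f b → a = b := by
    have hle : #(Δ₁ \ Δ₂) ≤ #Z := by omega
    obtain ⟨W, hW, hWc⟩ := Finset.exists_subset_card_eq hle
    let e := Finset.equivOfCardEq hWc.symm
    refine ⟨fun x => if h : x ∈ Δ₁ \ Δ₂ then (e ⟨x, h⟩ : X) else x, ?_, ?_⟩
    · intro a ha
      simp only [dif_pos ha]
      exact hW (e ⟨a, ha⟩).2
    · intro a ha b hb hab
      simp only [dif_pos ha, dif_pos hb] at hab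
      have := e.injective (Subtype.ext hab)
      exact congrArg Subtype.val this
  have hfZ : ∀ a ∈ Δ₁ \ Δ₂, f a ∈ Δ₁ ∧ g (f a) ∈ Δ₁ := fun a ha =>
    Finset.mem_filter.1 (hf1 a ha)
  obtain ⟨t, ht1, ht2, ht3⟩ := EXT_aux Δ₁ (Δ₁ \ Δ₂) Finset.sdiff_subset hcE f
    (fun a ha => (hfZ a ha).1) hf2
  obtain ⟨r, hr1, hr2, hr3⟩ := EXT_aux Δ₁ (Δ₁ \ Δ₂) Finset.sdiff_subset hcE (fun x => g (f x))
    (fun a ha => (hfZ a ha).2) (fun a ha b hb hab => hf2 a ha b hb (g.injective hab))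
  set c : Perm X := r⁻¹ * g * t with hc
  have hc1 : sign c = 1 := by
    rw [hc, map_mul, map_mul, sign_inv, hr1, hg, ht1]
    rfl
  have hc2 : ∀ x, x ∉ Δ₂ → c x = x := by
    intro x hx
    rw [hc, Perm.mul_apply, Perm.mul_apply, Perm.inv_eq_iff_eq]
    by_cases hx1 : x ∈ Δ₁
    · have hxE : x ∈ Δ₁ \ Δ₂ := Finset.mem_sdiff.2 ⟨hx1, hx⟩
      rw [ht3 x hxE, hr3 x hxE]
    · rw [ht2 x hx1, hr2 x hx1]
      refine hsup x ?_
      rw [Finset.mem_union]
      tauto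
  have hgc : g = r * c * t⁻¹ := by rw [hc]; group
  have d1 := h₁ r hr1 hr2
  have d2 := h₂ c hc1 hc2
  have d3 := h₁ t ht1 ht2
  have d4 := disp_mul ρ v (r * c) t⁻¹
  have d5 := disp_mul ρ v r c
  rw [disp_inv] at d4
  rw [hgc]
  linarith

end KP23
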