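import Pool.Agent.N23.KP.Stm

/-!
Project KP (helper23), MP_75608d_al: from rows and blocks to everything (helper494).
-/

namespace KP23
open Finset Equiv Equiv.Perm

/-- an even permutation which maps a given set onto another one -/
theorem exists_even_perm {Q : Type} [Fintype Q] [DecidableEq Q] (K H : Finset Q) (h : #K = #H)
    (h2 : 2 ≤ #K) : ∃ k : Perm Q, sign k = 1 ∧ ∀ j, k j ∈ H ↔ j ∈ K := by
  have e : {x // x ∈ K} ≃ {x // x ∈ H} := Fintype.equivOfCardEq (by simpa using h)
  obtain ⟨k, hk⟩ : ∃ k : Perm Q, ∀ j, k j ∈ H ↔ j ∈ K := by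
    refine ⟨e.extendSubtype, fun j => ?_⟩
    constructor
    · intro hj
      by_contra hcon
      exact e.extendSubtype_not_mem j hcon hj
    · exact e.extendSubtype_mem j
  rcases Int.units_eq_one_or (sign k) with hs | hs
  · exact ⟨k, hs, hk⟩
  · obtain ⟨a, ha, b, hb, hab⟩ := one_lt_card.1 (show 1 < #K by omega)
    refine ⟨k * swap a b, ?_, fun j => ?_⟩
    · rw [Perm.sign_mul, hs, sign_swap hab]
      rfl
    · rw [Perm.mul_apply, hk]
      by_cases h1 : j = a
      · rw [h1, swap_apply_left]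
        exact ⟨fun _ => ha, fun _ => hb⟩
      · by_cases h3 : j = b
        · rw [h3, swap_apply_right]
          exact ⟨fun _ => hb, fun _ => ha⟩
        · rw [swap_apply_of_ne_of_ne h1 h3]

theorem full_row {Q M : Type} [Fintype Q] [DecidableEq Q] [Fintype M] [DecidableEq M] {r : ℕ}
    (hQ : Fintype.card Q = 8 * r) {τ : Perm M} (hτ : sign τ = -1) {H : Finset Q} (hH : #H = 4 * r)
    {E : Type} [NormedAddCommGroup E] [InnerProductSpace ℝ E] (ρ : Perm (Q × M) →* (E ≃ₗᵢ[ℝ] E))
    (v : E) (η : ℝ) (h1 : ∀ h : Perm Q, sign h = 1 → ‖ρ (blk h) v - v‖ ≤ η)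
    (h2 : ∀ u : Q → Perm M, (∀ j, sign (u j) = 1) → ‖ρ (row u) v - v‖ ≤ η)
    (h3 : ‖ρ (row fun j => if j ∈ H then τ else 1) v - v‖ ≤ η) (u : Q → Perm M)
    (hu : ∏ j, sign (u j) = 1) : ‖ρ (row u) v - v‖ ≤ 7 * η := by
  have hη : 0 ≤ η := (norm_nonneg _).trans h3
  -- the odd entries
  set O : Finset Q := univ.filter fun j => sign (u j) = -1 with hO
  have hev : Even #O := by
    have e : ∏ j, sign (u j) = (-1) ^ #O := by
      rw [← Finset.prod_filter_mul_prod_filter_not univ (fun j => sign (u j) = -1)]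
      have e1 : ∏ j ∈ univ.filter (fun j => sign (u j) = -1), sign (u j) = (-1) ^ #O := by
        rw [← Finset.prod_const]
        exact prod_congr rfl fun j hj => (mem_filter.1 hj).2
      have e2 : ∏ j ∈ univ.filter (fun j => ¬ sign (u j) = -1), sign (u j) = 1 := by
        refine prod_eq_one fun j hj => ?_
        rcases Int.units_eq_one_or (sign (u j)) with h | h
        · exact h
        · exact absurd h (mem_filter.1 hj).2
      rw [e1, e2, mul_one]
    rw [e] at hu
    by_contra hcon
    rw [Nat.not_even_iff_odd] at hcon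
    rw [hcon.neg_one_pow] at hu
    exact absurd hu (by decide)
  obtain ⟨t, ht⟩ := hev
  have hOc : #Oᶜ = 8 * r - #O := by rw [card_compl, hQ]
  have hOle : #O ≤ 8 * r := by
    rw [← hQ]
    exact card_le_univ O
  obtain ⟨O1, hO1, hO1c⟩ := exists_subset_card_eq (show t ≤ #O by omega)
  obtain ⟨R, hR, hRc⟩ := exists_subset_card_eq (show 4 * r - t ≤ #Oᶜ by omega)
  have hO2c : #(O \ O1) = t := by
    rw [card_sdiff_of_subset hO1]
    omega
  have hdis : ∀ j ∈ R, j ∉ O := fun j hj => mem_compl.1 (hR hj)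
  have key : ∀ K : Finset Q, #K = 4 * r →
      ‖ρ (row fun j => if j ∈ K then τ else 1) v - v‖ ≤ 3 * η := by
    intro K hK
    rcases Nat.eq_zero_or_pos r with hr | hr
    · have hK0 : K = ∅ := by
        rw [← card_eq_zero, hK, hr]
      have e : (row fun j => if j ∈ K then τ else 1) = (1 : Perm (Q × M)) := by
        rw [hK0]
        simp only [notMem_empty, if_false]
        exact row_one
      rw [e, map_one]
      have : ‖(1 : E ≃ₗᵢ[ℝ] E) v - v‖ = 0 := by
        change ‖v - v‖ = 0
        rw [sub_self, norm_zero]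
      rw [this]
      positivity
    · obtain ⟨k, hk, hk2⟩ := exists_even_perm K H (by rw [hK, hH]) (by omega)
      have e := blk_conj_row k (fun j => if j ∈ H then τ else (1 : Perm M))
      have e2 : (fun j => if k j ∈ H then τ else (1 : Perm M)) = fun j => if j ∈ K then τ else 1 := by
        funext j
        exact if_congr (hk2 j) rfl rfl
      rw [e2] at e
      rw [← e]
      have h4 := disp_conj ρ v (row fun j => if j ∈ H then τ else (1 : Perm M)) (blk k)
      have h5 := h1 k hk
      linarith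
  have k1 := key (O1 ∪ R) (by
    rw [card_union_of_disjoint, hO1c, hRc]
    · omega
    · exact disjoint_left.2 fun j hj hj' => hdis j hj' (hO1 hj))
  have k2 := key ((O \ O1) ∪ R) (by
    rw [card_union_of_disjoint, hO2c, hRc]
    · omega
    · exact disjoint_left.2 fun j hj hj' => hdis j hj' (Finset.mem_sdiff.1 hj).1)
  set a : Q → Perm M := fun j => if j ∈ O1 ∪ R then τ else 1 with ha
  set b : Q → Perm M := fun j => if j ∈ (O \ O1) ∪ R then τ else 1 with hb
  have hu' : ∀ j, sign (u j * (b j)⁻¹ * (a j)⁻¹) = 1 := by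
    intro j
    rw [Perm.sign_mul, Perm.sign_mul, sign_inv, sign_inv, ha, hb]
    simp only
    by_cases hjO : j ∈ O
    · have hju : sign (u j) = -1 := (mem_filter.1 hjO).2
      have hjR : j ∉ R := fun h => hdis j h hjO
      by_cases hj1 : j ∈ O1
      · have m1 : j ∈ O1 ∪ R := mem_union_left _ hj1
        have m2 : j ∉ (O \ O1) ∪ R := by
          rw [mem_union, Finset.mem_sdiff]
          tauto
        rw [if_pos m1, if_neg m2, hju, hτ, Perm.sign_one]
        decide
      · have m1 : j ∉ O1 ∪ R := by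
          rw [mem_union]
          tauto
        have m2 : j ∈ (O \ O1) ∪ R := mem_union_left _ (Finset.mem_sdiff.2 ⟨hjO, hj1⟩)
        rw [if_neg m1, if_pos m2, hju, hτ, Perm.sign_one]
        decide
    · have hju : sign (u j) = 1 := by
        rcases Int.units_eq_one_or (sign (u j)) with h | h
        · exact h
        · exact absurd (mem_filter.2 ⟨mem_univ j, h⟩ : j ∈ O) hjO
      have hj1 : j ∉ O1 := fun h => hjO (hO1 h)
      by_cases hjR : j ∈ R
      · rw [if_pos (mem_union_right _ hjR), if_pos (mem_union_right _ hjR), hju, hτ]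
        decide
      · have m1 : j ∉ O1 ∪ R := by
          rw [mem_union]
          tauto
        have m2 : j ∉ (O \ O1) ∪ R := by
          rw [mem_union, Finset.mem_sdiff]
          tauto
        rw [if_neg m1, if_neg m2, hju, Perm.sign_one]
        decide
  have e : row u = row (fun j => u j * (b j)⁻¹ * (a j)⁻¹) * row a * row b := by
    rw [← row_mul, ← row_mul]
    congr 1
    funext j
    rw [Pi.mul_apply, Pi.mul_apply]
    group
  rw [e]
  have d1 := disp_mul ρ v (row (fun j => u j * (b j)⁻¹ * (a j)⁻¹) * row a) (row b)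
  have d2 := disp_mul ρ v (row (fun j => u j * (b j)⁻¹ * (a j)⁻¹)) (row a)
  have d3 := h2 _ hu'
  linarith

theorem FULL (hK : ST_KON) : ST_FULL := by
  intro Q M _ _ _ _ r hQ hM τ hτ H hH E _ _ ρ v η h1 h2 h3 h4 g hg
  obtain ⟨u₁, u₂, u₃, s1, s2, s3, rfl⟩ := hK Q M hM g hg
  have d1 := full_row hQ hτ hH ρ v η h1 h2 h3 u₁ s1
  have d2 := full_row hQ hτ hH ρ v η h1 h2 h3 u₂ s2
  have d3 := full_row hQ hτ hH ρ v η h1 h2 h3 u₃ s3
  have e1 := disp_mul ρ v (row u₁ * (swp * row u₂ * swp)) (row u₃)
  have e2 := disp_mul ρ v (row u₁) (swp * row u₂ * swp)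
  have e3 := disp_mul ρ v (swp * row u₂) swp
  have e4 := disp_mul ρ v swp (row u₂)
  linarith

end KP23
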