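import Pool.Agent.N23.KP.Stm

/-!
Project KP (helper23), MP_75608d_al, part KON (helper864): an even permutation of `Q × Q × M` is
row · column · row.
-/

set_option autoImplicit false

namespace KP23
open Finset Equiv Equiv.Perm

/-- a permutation which preserves the first coordinate is `row u` -/
lemma KON_row {Q Z : Type} (r : Perm (Q × Z)) (h : ∀ z, (r z).1 = z.1) :
    ∃ u : Q → Perm Z, r = row u := by
  have h' : ∀ z, (r.symm z).1 = z.1 := by
    intro z
    have := h (r.symm z)
    rw [Equiv.apply_symm_apply] at this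
    exact this.symm
  refine ⟨fun i => ⟨fun z => (r (i, z)).2, fun z => (r.symm (i, z)).2, fun z => ?_, fun z => ?_⟩, ?_⟩
  · have h1 : (i, (r (i, z)).2) = r (i, z) := Prod.ext (h (i, z)).symm rfl
    change (r.symm (i, (r (i, z)).2)).2 = z
    rw [h1, Equiv.symm_apply_apply]
  · have h1 : (i, (r.symm (i, z)).2) = r.symm (i, z) := Prod.ext (h' (i, z)).symm rfl
    change (r (i, (r.symm (i, z)).2)).2 = z
    rw [h1, Equiv.apply_symm_apply]
  · apply Equiv.ext
    rintro ⟨i, z⟩
    exact Prod.ext (h (i, z)) rfl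

section
variable {Q M : Type} [Fintype Q] [DecidableEq Q] [Fintype M] [DecidableEq M]

/-- the decomposition, without parities -/
lemma KON_dec (hM : ST_MATCH) (g : Perm (Q × (Q × M))) :
    ∃ u₁ u₂ u₃ : Q → Perm (Q × M), g = row u₁ * (swp * row u₂ * swp) * row u₃ := by
  classical
  have hc1 : ∀ i : Q, #(univ.filter fun x : Q × (Q × M) => x.1 = i) = Fintype.card (Q × M) := by
    intro i
    have h1 : (univ.filter fun x : Q × (Q × M) => x.1 = i) =
        (univ : Finset (Q × M)).map ⟨fun y => (i, y), fun a b h => (Prod.ext_iff.1 h).2⟩ := by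
      ext ⟨a, b⟩
      rw [mem_filter, mem_map]
      constructor
      · rintro ⟨-, h⟩
        exact ⟨b, mem_univ _, Prod.ext h.symm rfl⟩
      · rintro ⟨c, -, h⟩
        exact ⟨mem_univ _, (Prod.ext_iff.1 h).1.symm⟩
    rw [h1, card_map, card_univ]
  have hc2 : ∀ i : Q, #(univ.filter fun x : Q × (Q × M) => (g x).1 = i) =
      Fintype.card (Q × M) := by
    intro i
    rw [← hc1 i]
    refine Finset.card_bij (fun x _ => g x) (fun x hx => ?_) (fun x _ y _ h => g.injective h)
      fun y hy => ⟨g.symm y, ?_, Equiv.apply_symm_apply _ _⟩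
    · rw [mem_filter] at hx ⊢
      exact ⟨mem_univ _, hx.2⟩
    · rw [mem_filter] at hy ⊢
      exact ⟨mem_univ _, by rw [Equiv.apply_symm_apply]; exact hy.2⟩
  obtain ⟨κ, hκ1, hκ2⟩ := hM Q (Q × (Q × M)) (Fintype.card (Q × M)) (fun x => x.1)
    (fun x => (g x).1) hc1 hc2
  set e : Fin (Fintype.card (Q × M)) ≃ Q × M := (Fintype.equivFin (Q × M)).symm with he
  have hb : ∀ a : Q × (Q × M) → Q, Function.Bijective (fun x => (a x, κ x)) →
      Function.Bijective (fun x => (a x, e (κ x))) := by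
    intro a ha
    have h1 : (fun x => (a x, e (κ x))) = (Equiv.prodCongr (Equiv.refl Q) e) ∘ fun x => (a x, κ x) :=
      rfl
    rw [h1]
    exact (Equiv.bijective _).comp ha
  set R : Perm (Q × (Q × M)) := Equiv.ofBijective _ (hb _ hκ1) with hR
  set S : Perm (Q × (Q × M)) := Equiv.ofBijective _ (hb _ hκ2) with hS
  have hinv : ∀ (P : Perm (Q × (Q × M))) (x : Q × (Q × M)), P⁻¹ (P x) = x :=
    fun P x => P.symm_apply_apply x
  have hRx : ∀ x, R x = (x.1, e (κ x)) := fun _ => rfl
  have hSx : ∀ x, S x = ((g x).1, e (κ x)) := fun _ => rfl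
  obtain ⟨u₃, hu₃⟩ := KON_row R fun z => by rw [hRx]
  have hC : ∀ y, ((S * R⁻¹) y).2 = y.2 := by
    intro y
    obtain ⟨x, rfl⟩ := R.surjective y
    rw [Perm.mul_apply, hinv, hSx, hRx]
  obtain ⟨u₂, hu₂⟩ := KON_row (swp * (S * R⁻¹) * swp) fun z => by
    have h1 := hC (swp z)
    rw [Perm.mul_apply, Perm.mul_apply, swp_apply]
    rw [h1, swp_apply]
  obtain ⟨u₁, hu₁⟩ := KON_row (g * S⁻¹) fun y => by
    obtain ⟨x, rfl⟩ := S.surjective y
    rw [Perm.mul_apply, hinv, hSx]
  refine ⟨u₁, u₂, u₃, ?_⟩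
  rw [← hu₁, ← hu₂, ← hu₃]
  have h1 : (swp : Perm (Q × (Q × M))) * (swp * (S * R⁻¹) * swp) * swp = S * R⁻¹ := by
    have h2 : (swp : Perm (Q × (Q × M))) * (swp * (S * R⁻¹) * swp) * swp =
        (swp * swp) * (S * R⁻¹) * (swp * swp) := by group
    rw [h2, swp_mul_swp, one_mul, mul_one]
  rw [h1]
  group

lemma KON_sign (g : Perm (Q × (Q × M))) (u₁ u₂ u₃ : Q → Perm (Q × M))
    (h : g = row u₁ * (swp * row u₂ * swp) * row u₃) :
    sign g = (∏ j, sign (u₁ j)) * (∏ j, sign (u₂ j)) * ∏ j, sign (u₃ j) := by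
  rw [h]
  simp only [map_mul, sign_row]
  rcases Int.units_eq_one_or (sign (swp : Perm (Q × (Q × M)))) with h1 | h1 <;> rw [h1] <;> simp

end

theorem KON (hM : ST_MATCH) : ST_KON := by
  intro Q M _ _ _ _ hcard g hg
  obtain ⟨u₁, u₂, u₃, h⟩ := KON_dec hM g
  by_cases hQ : IsEmpty Q
  · exact ⟨u₁, u₂, u₃, by simp, by simp, by simp, h⟩
  rw [not_isEmpty_iff] at hQ
  obtain ⟨i⟩ := hQ
  obtain ⟨m₁, m₂, hm⟩ := Fintype.exists_pair_of_one_lt_card (α := M) (by omega)
  set t : Q → Perm (Q × M) := Pi.mulSingle i (swap (i, m₁) (i, m₂)) with ht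
  have htt : t * t = 1 := by
    rw [ht, ← Pi.mulSingle_mul, swap_mul_self, Pi.mulSingle_one]
  have hst : ∏ j, sign (t j) = -1 := by
    have h1 : ∏ j, sign (t j) = sign (row t) := (sign_row t).symm
    rw [h1, ht, ← rowAt_apply', sign_rowAt, sign_swap]
    intro h2
    exact hm (Prod.ext_iff.1 h2).2
  have hrow : row t = swap (i, (i, m₁)) (i, (i, m₂)) := by
    apply Equiv.ext
    rintro ⟨a, b, m⟩
    rw [row_apply]
    by_cases ha : a = i
    · subst ha
      rw [ht, Pi.mulSingle_eq_same]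
      simp only [swap_apply_def]
      split_ifs <;> simp_all
    · rw [ht, Pi.mulSingle_eq_of_ne ha]
      rw [swap_apply_of_ne_of_ne]
      · rfl
      · intro h2
        exact ha (Prod.ext_iff.1 h2).1
      · intro h2
        exact ha (Prod.ext_iff.1 h2).1
  have hswp : (swp : Perm (Q × (Q × M))) * row t * swp = row t := by
    rw [hrow]
    have h1 := Equiv.mul_swap_eq_swap_mul (swp : Perm (Q × (Q × M))) (i, (i, m₁)) (i, (i, m₂))
    rw [h1, mul_assoc, swp_mul_swp, mul_one]
    rfl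
  have hrtt : row t * row t = 1 := by rw [← row_mul, htt, row_one]
  -- first the factor on the right
  obtain ⟨v₁, v₂, v₃, hv, hv₃⟩ : ∃ v₁ v₂ v₃ : Q → Perm (Q × M),
      g = row v₁ * (swp * row v₂ * swp) * row v₃ ∧ ∏ j, sign (v₃ j) = 1 := by
    rcases Int.units_eq_one_or (∏ j, sign (u₃ j)) with h1 | h1
    · exact ⟨u₁, u₂, u₃, h, h1⟩
    · refine ⟨u₁, u₂ * t, t * u₃, ?_, ?_⟩
      · rw [h, row_mul, row_mul]
        have h2 : (swp : Perm (Q × (Q × M))) * (row u₂ * row t) * swp =
            (swp * row u₂ * swp) * row t := by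
          conv_rhs => rw [← hswp]
          have h3 : (swp : Perm (Q × (Q × M))) * row u₂ * swp * (swp * row t * swp) =
              swp * row u₂ * (swp * swp) * row t * swp := by group
          rw [h3, swp_mul_swp, mul_one]
          group
        rw [h2]
        have h4 : row u₁ * (swp * row u₂ * swp * row t) * (row t * row u₃) =
            row u₁ * (swp * row u₂ * swp) * (row t * row t) * row u₃ := by group
        rw [h4, hrtt, mul_one]
      · simp only [Pi.mul_apply, map_mul, Finset.prod_mul_distrib]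
        rw [hst, h1]
        rfl
  -- then the factor on the left
  obtain ⟨w₁, w₂, w₃, hw, hw₃, hw₁⟩ : ∃ w₁ w₂ w₃ : Q → Perm (Q × M),
      g = row w₁ * (swp * row w₂ * swp) * row w₃ ∧ ∏ j, sign (w₃ j) = 1 ∧
        ∏ j, sign (w₁ j) = 1 := by
    rcases Int.units_eq_one_or (∏ j, sign (v₁ j)) with h1 | h1
    · exact ⟨v₁, v₂, v₃, hv, hv₃, h1⟩
    · refine ⟨v₁ * t, t * v₂, v₃, ?_, hv₃, ?_⟩
      · rw [hv, row_mul, row_mul]
        have h2 : (swp : Perm (Q × (Q × M))) * (row t * row v₂) * swp =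
            row t * (swp * row v₂ * swp) := by
          conv_rhs => rw [← hswp]
          have h3 : (swp : Perm (Q × (Q × M))) * row t * swp * (swp * row v₂ * swp) =
              swp * row t * (swp * swp) * row v₂ * swp := by group
          rw [h3, swp_mul_swp, mul_one]
          group
        rw [h2]
        have h4 : row v₁ * row t * (row t * (swp * row v₂ * swp)) * row v₃ =
            row v₁ * (row t * row t) * (swp * row v₂ * swp) * row v₃ := by group
        rw [h4, hrtt, mul_one]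
      · simp only [Pi.mul_apply, map_mul, Finset.prod_mul_distrib]
        rw [hst, h1]
        rfl
  refine ⟨w₁, w₂, w₃, hw₁, ?_, hw₃, hw⟩
  have h1 := KON_sign g w₁ w₂ w₃ hw
  rw [hg, hw₁, hw₃, one_mul, mul_one] at h1
  exact h1.symm

end KP23
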