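import Pool.Agent.N23.KP.Stm

set_option autoImplicit false

/-!
Project KP (helper23), MP_75608d_al: the statement LAZY.
-/

namespace KP23
open Finset

theorem LAZY : ST_LAZY := by
  intro E _ _ ι _ u v θ κ I₀ hθ hκ hu hI hN hS
  obtain ⟨N, hNd⟩ : ∃ N : ℝ, N = Fintype.card ι := ⟨_, rfl⟩
  rw [← hNd] at hN hS ⊢
  have hN0 : 0 ≤ N := by rw [hNd]; positivity
  have hv0 := norm_nonneg v
  have hcard : ∀ c : ℝ, ∑ _i : ι, c = N * c := by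
    intro c
    rw [Finset.sum_const, Finset.card_univ, nsmul_eq_mul, hNd]
  rcases hN0.eq_or_lt with h0 | hNpos
  · have : IsEmpty ι := by
      rw [← Fintype.card_eq_zero_iff]
      have : (Fintype.card ι : ℝ) = 0 := by rw [← hNd, h0]
      exact_mod_cast this
    rw [← h0]
    simp
  rcases le_or_gt 1 κ with h1 | h1
  · have h2 : ∀ i, ‖u i - v‖ ^ 2 ≤ 4 * ‖v‖ ^ 2 := by
      intro i
      have h3 : ‖u i - v‖ ≤ 2 * ‖v‖ := by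
        refine (norm_sub_le _ _).trans ?_
        rw [hu i]; linarith
      nlinarith [norm_nonneg (u i - v)]
    calc ∑ i, ‖u i - v‖ ^ 2 ≤ ∑ _i : ι, 4 * ‖v‖ ^ 2 := Finset.sum_le_sum fun i _ => h2 i
      _ = N * (4 * ‖v‖ ^ 2) := hcard _
      _ ≤ 4 * κ * (1 + 1 / θ) * N * ‖v‖ ^ 2 := by
        have h3 : 1 ≤ κ * (1 + 1 / θ) := by
          have : 0 < 1 / θ := by positivity
          nlinarith
        have h4 : 0 ≤ N * ‖v‖ ^ 2 := by positivity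
        nlinarith
  obtain ⟨A, hA⟩ : ∃ A : E, A = N⁻¹ • ∑ i, u i := ⟨_, rfl⟩
  have hS' : ∑ i, u i = N • A := by
    rw [hA, smul_smul, mul_inv_cancel₀ hNpos.ne', one_smul]
  rw [hS', norm_smul, Real.norm_of_nonneg hN0] at hS
  have hA1 : (1 - κ) * ‖v‖ ≤ ‖A‖ := by
    have h2 : N * ((1 - κ) * ‖v‖) ≤ N * ‖A‖ := by
      calc N * ((1 - κ) * ‖v‖) = (1 - κ) * N * ‖v‖ := by ring
        _ ≤ _ := hS
    exact le_of_mul_le_mul_left h2 hNpos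
  have hA2 : (1 - 2 * κ) * ‖v‖ ^ 2 ≤ ‖A‖ ^ 2 := by
    have h2 : 0 ≤ (1 - κ) * ‖v‖ := mul_nonneg (by linarith) hv0
    have h3 : ((1 - κ) * ‖v‖) ^ 2 ≤ ‖A‖ ^ 2 := pow_le_pow_left₀ h2 hA1 2
    have h4 : 0 ≤ κ ^ 2 * ‖v‖ ^ 2 := by positivity
    nlinarith
  have hD : ∑ i, ‖u i - A‖ ^ 2 = N * (‖v‖ ^ 2 - ‖A‖ ^ 2) := by
    have h2 : ∀ i, ‖u i - A‖ ^ 2 = (‖v‖ ^ 2 + ‖A‖ ^ 2) - 2 * inner ℝ (u i) A := by
      intro i
      rw [norm_sub_sq_real, hu i]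
      ring
    rw [Finset.sum_congr rfl fun i _ => h2 i, Finset.sum_sub_distrib, hcard, ← Finset.mul_sum,
      ← sum_inner, hS', real_inner_smul_left, real_inner_self_eq_norm_sq]
    ring
  have hD' : ∑ i, ‖u i - A‖ ^ 2 ≤ 2 * κ * N * ‖v‖ ^ 2 := by
    rw [hD]
    nlinarith
  have hI1 : θ * N * ‖v - A‖ ^ 2 ≤ 2 * κ * N * ‖v‖ ^ 2 := by
    calc θ * N * ‖v - A‖ ^ 2 ≤ #I₀ * ‖v - A‖ ^ 2 :=
          mul_le_mul_of_nonneg_right hN (by positivity)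
      _ = ∑ i ∈ I₀, ‖u i - A‖ ^ 2 := by
          rw [Finset.sum_congr rfl fun i hi => by rw [hI i hi], Finset.sum_const, nsmul_eq_mul]
      _ ≤ ∑ i, ‖u i - A‖ ^ 2 :=
          Finset.sum_le_sum_of_subset_of_nonneg (Finset.subset_univ _) fun i _ _ => by positivity
      _ ≤ _ := hD'
  have hI2 : N * ‖v - A‖ ^ 2 ≤ 1 / θ * (2 * κ * N * ‖v‖ ^ 2) := by
    rw [one_div, inv_mul_eq_div, le_div_iff₀ hθ]
    linarith
  have hI3 : ∀ i, ‖u i - v‖ ^ 2 ≤ 2 * ‖u i - A‖ ^ 2 + 2 * ‖v - A‖ ^ 2 := by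
    intro i
    have h2 : ‖u i - v‖ ≤ ‖u i - A‖ + ‖v - A‖ := by
      have : u i - v = (u i - A) - (v - A) := by abel
      rw [this]
      exact norm_sub_le _ _
    have h3 := norm_nonneg (u i - v)
    nlinarith [sq_nonneg (‖u i - A‖ - ‖v - A‖), norm_nonneg (u i - A), norm_nonneg (v - A)]
  calc ∑ i, ‖u i - v‖ ^ 2 ≤ ∑ i, (2 * ‖u i - A‖ ^ 2 + 2 * ‖v - A‖ ^ 2) :=
        Finset.sum_le_sum fun i _ => hI3 i
    _ = 2 * ∑ i, ‖u i - A‖ ^ 2 + 2 * (N * ‖v - A‖ ^ 2) := by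
        rw [Finset.sum_add_distrib, hcard, ← Finset.mul_sum]
        ring
    _ ≤ 2 * (2 * κ * N * ‖v‖ ^ 2) + 2 * (1 / θ * (2 * κ * N * ‖v‖ ^ 2)) := by linarith
    _ = _ := by ring

end KP23
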