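import Pool.Agent.N23.KP.Stm

/-!
Project KP, LOC (helper702): localization with a Sidon set
-/

namespace KP23
open Finset Equiv Equiv.Perm

noncomputable section

lemma loc_blk_pow {B : Type} {q : ℕ} [Fact q.Prime] (n : ℕ) :
    (blk (Equiv.addRight (1 : ZMod q)) : Perm (ZMod q × B)) ^ n =
      blk (Equiv.addRight (n : ZMod q)) := by
  induction n with
  | zero =>
    rw [pow_zero]
    ext z
    · simp
    · simp
  | succ n ih =>
    rw [pow_succ, ih, ← blk_mul]
    congr 1
    ext j
    simp only [Perm.mul_apply, Equiv.coe_addRight]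
    push_cast
    ring

lemma loc_shift {B : Type} {q : ℕ} [Fact q.Prime] {E : Type} [NormedAddCommGroup E]
    [InnerProductSpace ℝ E] (ρ : Perm (ZMod q × B) →* (E ≃ₗᵢ[ℝ] E)) (v : E) (η : ℝ)
    (h : ‖ρ (blk (Equiv.addRight 1)) v - v‖ ≤ η) (d : ZMod q) :
    ‖ρ (blk (Equiv.addRight d)) v - v‖ ≤ q * η := by
  have hη : 0 ≤ η := (norm_nonneg _).trans h
  have h1 : (blk (Equiv.addRight d) : Perm (ZMod q × B)) =
      (blk (Equiv.addRight (1 : ZMod q))) ^ d.val := by
    rw [loc_blk_pow, ZMod.natCast_zmod_val]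
  rw [h1]
  refine (disp_pow ρ v _ _).trans ?_
  have h2 : ((d.val : ℕ) : ℝ) ≤ q := by exact_mod_cast (ZMod.val_lt d).le
  have h3 : ‖ρ (blk (Equiv.addRight 1)) v - v‖ * (d.val : ℝ) ≤ η * q := by
    gcongr
  linarith

lemma loc_rowAt_shift {B : Type} {q : ℕ} [Fact q.Prime] {E : Type} [NormedAddCommGroup E]
    [InnerProductSpace ℝ E] (ρ : Perm (ZMod q × B) →* (E ≃ₗᵢ[ℝ] E)) (v : E) (η : ℝ)
    (h : ‖ρ (blk (Equiv.addRight 1)) v - v‖ ≤ η) (s j : ZMod q) (w : Perm B) :
    ‖ρ (rowAt j w) v - v‖ ≤ ‖ρ (rowAt s w) v - v‖ + 2 * (q * η) := by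
  have h1 : rowAt j w = (blk (Equiv.addRight (s - j)))⁻¹ * rowAt s w *
      blk (Equiv.addRight (s - j)) := by
    rw [rowAt_apply', rowAt_apply', blk_conj_row]
    congr 1
    funext i
    simp only [Equiv.coe_addRight]
    by_cases hi : i = j
    · subst hi
      rw [Pi.mulSingle_eq_same]
      have : i + (s - i) = s := by ring
      rw [this, Pi.mulSingle_eq_same]
    · rw [Pi.mulSingle_eq_of_ne hi, Pi.mulSingle_eq_of_ne]
      intro h2
      apply hi
      have : i + (s - j) - (s - j) = s - (s - j) := by rw [h2]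
      simpa using this
  rw [h1]
  refine (disp_conj ρ v _ _).trans ?_
  have := loc_shift ρ v η h (s - j)
  linarith

lemma loc_cm_row {Q M : Type} (u w : Q → Perm M) :
    cm (row u) (row w) = row (fun j => cm (u j) (w j)) := by
  have : (fun j => cm (u j) (w j)) = u * w * u⁻¹ * w⁻¹ := rfl
  rw [this, row_mul, row_mul, row_mul, row_inv, row_inv]
  rfl

lemma loc_cm_one_left {G : Type} [Group G] (g : G) : cm 1 g = 1 := by simp [cm]
lemma loc_cm_one_right {G : Type} [Group G] (g : G) : cm g 1 = 1 := by simp [cm]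

/-- the index type -/
abbrev LocI (L : ℕ) : Type := (Fin L × Fin 3 × Bool) ⊕ Unit

/-- the values -/
def locVal {B : Type} {L : ℕ} (x y : Fin L → Fin 3 → Perm B) (τ : Perm B) : LocI L → Perm B
  | Sum.inl (i, k, true) => x i k
  | Sum.inl (i, k, false) => y i k
  | Sum.inr _ => τ

theorem LOC (hC : ST_COMM) (hS : ST_SID) : ST_LOC := by
  intro L₁ K₁ hK₁
  obtain ⟨q, hq, hq5, e₀, j₀, hj₀, hsid⟩ := hS (Fintype.card (LocI L₁))
  haveI : Fact q.Prime := ⟨hq⟩
  set e : LocI L₁ ↪ ZMod q := (Fintype.equivFin (LocI L₁)).toEmbedding.trans e₀ with he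
  have hsid' : ∀ i j k l : LocI L₁, i ≠ j → e i - e j = e k - e l → i = k ∧ j = l := by
    intro i j k l hij h
    have hij' : (Fintype.equivFin (LocI L₁)) i ≠ (Fintype.equivFin (LocI L₁)) j :=
      fun h' => hij ((Fintype.equivFin (LocI L₁)).injective h')
    obtain ⟨h1, h2⟩ := hsid _ _ _ _ hij' h
    exact ⟨(Fintype.equivFin (LocI L₁)).injective h1, (Fintype.equivFin (LocI L₁)).injective h2⟩
  have hj₀' : j₀ ∉ Set.range e := by
    rintro ⟨s, hs⟩
    exact hj₀ ⟨_, hs⟩
  refine ⟨q, ⟨hq⟩, 3 * K₁ * (4 + 6 * q) + 2 * q, j₀, hq5, by positivity, ?_⟩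
  intro B _ _ hB g hg
  have hx := fun i => hC B (g i) (hg.1 i)
  choose x y hxy hgxy using hx
  obtain ⟨a, b, hab⟩ := Fintype.exists_pair_of_one_lt_card (by omega : 1 < Fintype.card B)
  set P : ℤˣ := ∏ z : Fin L₁ × Fin 3 × Bool, sign (locVal x y 1 (Sum.inl z)) with hP
  obtain ⟨τ, hτ2, hτs⟩ : ∃ τ : Perm B, τ * τ = 1 ∧ P * sign τ = 1 := by
    rcases Int.units_eq_one_or P with h | h
    · exact ⟨1, by simp, by simp [h]⟩
    · exact ⟨Equiv.swap a b, Equiv.swap_mul_self a b, by rw [h, Equiv.Perm.sign_swap hab]; rfl⟩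
  set val := locVal x y τ with hval
  have hval2 : ∀ s, val s * val s = 1 := by
    rintro (⟨i, k, t⟩ | t)
    · cases t
      · exact (hxy i k).2
      · exact (hxy i k).1
    · exact hτ2
  set u : ZMod q → Perm B := Function.extend e val 1 with hu
  have hue : ∀ s, u (e s) = val s := fun s => e.injective.extend_apply _ _ _
  have hun : ∀ j, j ∉ Set.range e → u j = 1 := by
    intro j hj
    rw [hu, Function.extend_apply' _ _ _ (fun ⟨s, hs⟩ => hj ⟨s, hs⟩)]
    rfl
  refine ⟨u, hun j₀ hj₀', ?_, ?_, ?_⟩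
  · intro j
    by_cases hj : j ∈ Set.range e
    · obtain ⟨s, rfl⟩ := hj
      rw [hue]; exact hval2 s
    · rw [hun j hj, one_mul]
  · have h1 : ∏ j, sign (u j) = ∏ j ∈ (Finset.univ : Finset (LocI L₁)).map e, sign (u j) := by
      symm
      apply Finset.prod_subset (Finset.subset_univ _)
      intro j _ hj
      rw [hun j, Equiv.Perm.sign_one]
      rintro ⟨s, rfl⟩
      exact hj (Finset.mem_map_of_mem _ (Finset.mem_univ s))
    rw [h1, Finset.prod_map]
    simp only [hue]
    rw [Fintype.prod_sum_type]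
    have h2 : ∏ z : Fin L₁ × Fin 3 × Bool, sign (val (Sum.inl z)) = P := by
      apply Finset.prod_congr rfl
      rintro ⟨i, k, t⟩ _
      cases t <;> rfl
    have h3 : ∏ z : Unit, sign (val (Sum.inr z)) = sign τ := by
      simp only [Finset.univ_unique, Finset.prod_singleton]
      rfl
    rw [h2, h3]
    exact hτs
  · intro E _ _ ρ v η hb hru j w hw
    have hη : 0 ≤ η := (norm_nonneg _).trans hb
    -- the commutators
    have hcm : ∀ i k, ‖ρ (rowAt 0 (cm (x i k) (y i k))) v - v‖ ≤ (4 + 6 * q) * η := by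
      intro i k
      set s : LocI L₁ := Sum.inl (i, k, true) with hs
      set s' : LocI L₁ := Sum.inl (i, k, false) with hs'
      have hne : s ≠ s' := by simp [hs, hs']
      set d : ZMod q := e s - e s' with hd
      have hY : (blk (Equiv.addRight (-d)))⁻¹ * row u * blk (Equiv.addRight (-d)) =
          row (fun j => u (j + -d)) := blk_conj_row _ _
      have hcomm : cm (row u) (row (fun j => u (j + -d))) = rowAt (e s) (cm (x i k) (y i k)) := by
        rw [loc_cm_row, rowAt_apply']
        congr 1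
        funext j
        by_cases hj : j = e s
        · subst hj
          rw [Pi.mulSingle_eq_same]
          have : e s + -d = e s' := by rw [hd]; ring
          rw [this, hue, hue]
          rfl
        · rw [Pi.mulSingle_eq_of_ne hj]
          by_cases h1 : j ∈ Set.range e
          · by_cases h2 : j + -d ∈ Set.range e
            · exfalso
              obtain ⟨a, ha⟩ := h1
              obtain ⟨b, hb⟩ := h2
              have h3 : e s - e s' = e a - e b := by
                rw [ha, hb, ← hd]; ring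
              obtain ⟨h4, _⟩ := hsid' s s' a b hne h3
              apply hj
              rw [h4, ha]
            · rw [hun _ h2, loc_cm_one_right]
          · rw [hun _ h1, loc_cm_one_left]
      have h1 : ‖ρ (row (fun j => u (j + -d))) v - v‖ ≤ η + 2 * (q * η) := by
        rw [← hY]
        refine (disp_conj ρ v _ _).trans ?_
        have := loc_shift ρ v η hb (-d)
        linarith
      have h2 : ‖ρ (rowAt (e s) (cm (x i k) (y i k))) v - v‖ ≤ 2 * η + 2 * (η + 2 * (q * η)) := by
        rw [← hcomm]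
        refine (disp_cm ρ v _ _).trans ?_
        linarith
      refine (loc_rowAt_shift ρ v η hb (e s) 0 _).trans ?_
      linarith
    have hg0 : ∀ i, ‖(ρ.comp (rowAt 0)) (g i) v - v‖ ≤ 3 * ((4 + 6 * q) * η) := by
      intro i
      have hr : rowAt (0 : ZMod q) (g i) = rowAt 0 (cm (x i 0) (y i 0)) *
          rowAt 0 (cm (x i 1) (y i 1)) * rowAt 0 (cm (x i 2) (y i 2)) := by
        rw [hgxy i, map_mul, map_mul]
      rw [MonoidHom.comp_apply, hr]
      have h1 := disp_mul ρ v (rowAt 0 (cm (x i 0) (y i 0)) * rowAt 0 (cm (x i 1) (y i 1)))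
        (rowAt 0 (cm (x i 2) (y i 2)))
      have h2 := disp_mul ρ v (rowAt 0 (cm (x i 0) (y i 0))) (rowAt 0 (cm (x i 1) (y i 1)))
      have h3 := hcm i 0
      have h4 := hcm i 1
      have h5 := hcm i 2
      linarith
    have h0 := hg.2 E (ρ.comp (rowAt 0)) v _ hg0 w hw
    rw [MonoidHom.comp_apply] at h0
    refine (loc_rowAt_shift ρ v η hb 0 j w).trans ?_
    nlinarith

end

end KP23
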