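import Pool.Agent.N23.KP.Stm2

/-! Project KP (helper23): the goal from PAIR, EXPD, COUNT and NEC. -/

namespace KP23
open Finset Equiv Equiv.Perm Filter Topology RC14

theorem MAIN (hP : ST_PAIR) (hE : ST_EXPD) (hC : ST_COUNT) (hN : ST_NEC) : ST_GOAL := by
  refine ⟨?_, hN⟩
  -- the case of small `δ`
  have small : ∀ δ : ℝ, 0 < δ → δ < 1 → ∃ ε : ℝ, 0 < ε ∧ ∀ᶠ n : ℕ in atTop, ∀ x : Alt n,
      δ * n ≤ #(univ.filter fun i => (x : Perm (Fin n)) i ≠ i) →
      (Fintype.card (Alt n) : ℝ) ^ (1 - δ) ≤ Nat.card {y : Alt n // Expanding ε ![x, y]} := by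
    intro δ hδ hδ1
    obtain ⟨K, hK, N, hKN⟩ := hP (δ / 2) (by linarith)
    refine ⟨1 / (4 * K ^ 2), by positivity, ?_⟩
    filter_upwards [hC δ hδ hδ1, eventually_ge_atTop N] with n hn hnN x hx
    obtain ⟨R, F, hR, hF, hKZ⟩ := hKN n hnN (x : Perm (Fin n))
      (Equiv.Perm.mem_alternatingGroup.mp x.2) (by
        refine le_trans ?_ hx
        have : (0 : ℝ) ≤ n := by positivity
        nlinarith)
    have hs : ∀ f, F f ∈ alternatingGroup (Fin n) := fun f =>
      Equiv.Perm.mem_alternatingGroup.mpr ((hKZ f).1 1)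
    have hexp : ∀ f, Expanding (1 / (4 * K ^ 2)) ![x, ⟨F f, hs f⟩] := fun f =>
      hE n x ⟨F f, hs f⟩ K hK (hKZ f)
    have hinj : Function.Injective (fun f : Perm (Fin R) =>
        (⟨⟨F f, hs f⟩, hexp f⟩ : {y : Alt n // Expanding (1 / (4 * K ^ 2)) ![x, y]})) := by
      intro f f' h
      apply hF
      have := congrArg Subtype.val (congrArg Subtype.val h)
      exact this
    have hcard : R.factorial ≤ Nat.card {y : Alt n // Expanding (1 / (4 * K ^ 2)) ![x, y]} := by
      have h1 := Nat.card_le_card_of_injective _ hinj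
      rwa [Nat.card_eq_fintype_card, Fintype.card_perm, Fintype.card_fin] at h1
    have hA : (Fintype.card (Alt n) : ℝ) ≤ n.factorial := by
      have : Fintype.card (Alt n) ≤ Fintype.card (Perm (Fin n)) :=
        Fintype.card_le_of_injective _ Subtype.val_injective
      rw [Fintype.card_perm, Fintype.card_fin] at this
      exact_mod_cast this
    calc (Fintype.card (Alt n) : ℝ) ^ (1 - δ) ≤ (n.factorial : ℝ) ^ (1 - δ) :=
          Real.rpow_le_rpow (by positivity) hA (by linarith)
      _ ≤ R.factorial := hn R hR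
      _ ≤ _ := by exact_mod_cast hcard
  intro δ hδ
  rcases lt_or_ge δ 1 with h1 | h1
  · exact small δ hδ h1
  · obtain ⟨ε, hε, h⟩ := small (1 / 2) (by norm_num) (by norm_num)
    refine ⟨ε, hε, ?_⟩
    filter_upwards [h] with n hn x hx
    have hA1 : (1 : ℝ) ≤ Fintype.card (Alt n) := by exact_mod_cast Fintype.card_pos
    have h2 := hn x (by
      refine le_trans ?_ hx
      have : (0 : ℝ) ≤ n := by positivity
      nlinarith)
    refine le_trans ?_ h2
    exact Real.rpow_le_rpow_of_exponent_le hA1 (by linarith)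

end KP23
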