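import Pool.Agent.N23.KP.Stm

set_option autoImplicit false

/-!
Task MATCH of project KP: a regular bipartite multigraph is a union of perfect matchings (helper701).
-/

namespace KP23

open Finset

lemma match_aux {Q X : Type} [Fintype Q] [DecidableEq Q] [DecidableEq X] (a b : X → Q) :
    ∀ (N : ℕ) (Y : Finset X), (∀ i, #(Y.filter fun x => a x = i) = N) →
    (∀ i, #(Y.filter fun x => b x = i) = N) →
    ∃ κ : X → ℕ, (∀ x ∈ Y, κ x < N) ∧ (∀ i, ∀ k < N, ∃ x ∈ Y, a x = i ∧ κ x = k) ∧
      (∀ i, ∀ k < N, ∃ x ∈ Y, b x = i ∧ κ x = k) := by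
  intro N
  induction N with
  | zero =>
    intro Y ha hb
    refine ⟨fun _ => 0, ?_, ?_, ?_⟩
    · intro x hx
      exfalso
      have h := ha (a x)
      rw [Finset.card_eq_zero] at h
      have : x ∈ Y.filter fun y => a y = a x := by simp [hx]
      rw [h] at this
      simp at this
    · intro i k hk; omega
    · intro i k hk; omega
  | succ N ih =>
    intro Y ha hb
    have hall : ∀ S : Finset Q,
        #S ≤ #(S.biUnion fun i => (Y.filter fun x => a x = i).image b) := by
      intro S
      set B := S.biUnion fun i => (Y.filter fun x => a x = i).image b with hB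
      have h1 : #(Y.filter fun x => a x ∈ S) = ∑ i ∈ S, (N + 1) := by
        rw [Finset.card_eq_sum_card_fiberwise (f := a) (t := S)]
        · refine Finset.sum_congr rfl fun i hi => ?_
          rw [← ha i]
          congr 1
          ext x
          simp only [mem_filter]
          constructor
          · rintro ⟨⟨h1, h2⟩, h3⟩; exact ⟨h1, h3⟩
          · rintro ⟨h1, h3⟩; exact ⟨⟨h1, h3 ▸ hi⟩, h3⟩
        · intro x hx
          simp only [coe_filter, Set.mem_ofPred_eq] at hx
          exact hx.2
      have h2 : #(Y.filter fun x => b x ∈ B) = ∑ i ∈ B, (N + 1) := by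
        rw [Finset.card_eq_sum_card_fiberwise (f := b) (t := B)]
        · refine Finset.sum_congr rfl fun i hi => ?_
          rw [← hb i]
          congr 1
          ext x
          simp only [mem_filter]
          constructor
          · rintro ⟨⟨h1, h2⟩, h3⟩; exact ⟨h1, h3⟩
          · rintro ⟨h1, h3⟩; exact ⟨⟨h1, h3 ▸ hi⟩, h3⟩
        · intro x hx
          simp only [coe_filter, Set.mem_ofPred_eq] at hx
          exact hx.2
      have h3 : #(Y.filter fun x => a x ∈ S) ≤ #(Y.filter fun x => b x ∈ B) := by
        apply Finset.card_le_card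
        intro x hx
        simp only [mem_filter] at hx ⊢
        refine ⟨hx.1, ?_⟩
        rw [hB, mem_biUnion]
        refine ⟨a x, hx.2, ?_⟩
        rw [mem_image]
        exact ⟨x, by simp [hx.1], rfl⟩
      rw [h1, h2, Finset.sum_const, Finset.sum_const, smul_eq_mul, smul_eq_mul] at h3
      exact Nat.le_of_mul_le_mul_right h3 (by omega)
    obtain ⟨f, hfi, hf⟩ := (Finset.all_card_le_biUnion_card_iff_exists_injective
      (fun i => (Y.filter fun x => a x = i).image b)).1 hall
    have hfx : ∀ i, ∃ x, (x ∈ Y ∧ a x = i) ∧ b x = f i := by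
      intro i
      have := hf i
      simpa only [mem_image, mem_filter] using this
    choose m hm using hfx
    have hfb : Function.Bijective f := Finite.injective_iff_bijective.1 hfi
    set M : Finset X := univ.image m with hM
    have hmi : ∀ i, m i ∈ M := fun i => mem_image_of_mem _ (mem_univ i)
    have hMa : ∀ x ∈ M, x = m (a x) := by
      intro x hx
      rw [hM, mem_image] at hx
      obtain ⟨i, -, rfl⟩ := hx
      rw [(hm i).1.2]
    have hMb : ∀ i x, x ∈ M → b x = f i → x = m i := by
      intro i x hx hbx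
      rw [hM, mem_image] at hx
      obtain ⟨j, -, rfl⟩ := hx
      rw [(hm j).2] at hbx
      rw [hfi hbx]
    obtain ⟨κ, hκ1, hκ2, hκ3⟩ := ih (Y \ M) (by
      intro i
      have e : (Y \ M).filter (fun x => a x = i) = (Y.filter fun x => a x = i).erase (m i) := by
        ext x
        simp only [mem_filter, mem_sdiff, mem_erase]
        constructor
        · rintro ⟨⟨h1, h2⟩, h3⟩
          refine ⟨?_, h1, h3⟩
          rintro rfl
          exact h2 (hmi i)
        · rintro ⟨h1, h2, h3⟩
          refine ⟨⟨h2, ?_⟩, h3⟩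
          intro hx
          apply h1
          rw [hMa x hx, h3]
      rw [e, Finset.card_erase_of_mem (by simp [(hm i).1.1, (hm i).1.2]), ha i]
      rfl) (by
      intro j
      obtain ⟨i, rfl⟩ := hfb.2 j
      have e : (Y \ M).filter (fun x => b x = f i) = (Y.filter fun x => b x = f i).erase (m i) := by
        ext x
        simp only [mem_filter, mem_sdiff, mem_erase]
        constructor
        · rintro ⟨⟨h1, h2⟩, h3⟩
          refine ⟨?_, h1, h3⟩
          rintro rfl
          exact h2 (hmi i)
        · rintro ⟨h1, h2, h3⟩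
          refine ⟨⟨h2, ?_⟩, h3⟩
          intro hx
          exact h1 (hMb i x hx h3)
      rw [e, Finset.card_erase_of_mem (by simp [(hm i).1.1, (hm i).2]), hb (f i)]
      rfl)
    refine ⟨fun x => if x ∈ M then N else κ x, ?_, ?_, ?_⟩
    · intro x hx
      by_cases h : x ∈ M
      · simp [h]
      · simp only [h, if_false]
        have := hκ1 x (by simp [hx, h])
        omega
    · intro i k hk
      by_cases hkN : k = N
      · exact ⟨m i, (hm i).1.1, (hm i).1.2, by simp [hmi i, hkN]⟩
      · obtain ⟨x, hx, hax, hkx⟩ := hκ2 i k (by omega)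
        rw [mem_sdiff] at hx
        exact ⟨x, hx.1, hax, by simp [hx.2, hkx]⟩
    · intro j k hk
      obtain ⟨i, rfl⟩ := hfb.2 j
      by_cases hkN : k = N
      · exact ⟨m i, (hm i).1.1, (hm i).2, by simp [hmi i, hkN]⟩
      · obtain ⟨x, hx, hax, hkx⟩ := hκ3 (f i) k (by omega)
        rw [mem_sdiff] at hx
        exact ⟨x, hx.1, hax, by simp [hx.2, hkx]⟩

theorem MATCH : ST_MATCH := by
  intro Q X _ _ _ _ N a b ha hb
  obtain ⟨κ, h1, h2, h3⟩ := match_aux a b N univ ha hb
  have hcard : Fintype.card X = Fintype.card (Q × Fin N) := by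
    rw [Fintype.card_prod, Fintype.card_fin, ← Finset.card_univ,
      Finset.card_eq_sum_card_fiberwise (f := a) (t := univ) (fun _ _ => by simp)]
    rw [Finset.sum_congr rfl (fun i _ => ha i)]
    simp
  refine ⟨fun x => ⟨κ x, h1 x (mem_univ x)⟩, ?_, ?_⟩
  · refine (Fintype.bijective_iff_surjective_and_card _).2 ⟨?_, hcard⟩
    rintro ⟨i, k⟩
    obtain ⟨x, -, hx, hk⟩ := h2 i k k.2
    exact ⟨x, by simp only [Prod.mk.injEq]; exact ⟨hx, Fin.ext hk⟩⟩
  · refine (Fintype.bijective_iff_surjective_and_card _).2 ⟨?_, hcard⟩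
    rintro ⟨i, k⟩
    obtain ⟨x, -, hx, hk⟩ := h3 i k k.2
    exact ⟨x, by simp only [Prod.mk.injEq]; exact ⟨hx, Fin.ext hk⟩⟩

end KP23
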