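import Pool.Agent.N23.KP.Stm

namespace KP23
open Finset Equiv Equiv.Perm

theorem MOVE : ST_MOVE := by
  classical
  intro X _ _ x
  obtain ⟨M, hM, hmax⟩ := Finset.exists_max_image
    (univ.filter fun M : Finset X => ∀ i ∈ M, x i ∉ M) (fun M => #M) ⟨∅, by simp⟩
  rw [Finset.mem_filter] at hM
  have hM2 := hM.2
  refine ⟨M, ?_, hM2⟩
  have hsub : (univ.filter fun i => x i ≠ i) ⊆ M ∪ (M.image x ∪ M.image x.symm) := by
    intro z hz
    rw [Finset.mem_filter] at hz
    by_cases hzM : z ∈ M
    · simp [hzM]
    have h1 : ¬ (∀ i ∈ insert z M, x i ∉ insert z M) := by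
      intro h
      have h2 := hmax (insert z M) (by simpa using h)
      rw [Finset.card_insert_of_notMem hzM] at h2
      omega
    push Not at h1
    obtain ⟨i, hi, hxi⟩ := h1
    rw [Finset.mem_insert] at hi hxi
    rw [Finset.mem_union, Finset.mem_union, Finset.mem_image, Finset.mem_image]
    rcases hi with rfl | hi
    · rcases hxi with h | h
      · exact absurd h hz.2
      · exact Or.inr (Or.inr ⟨x i, h, x.symm_apply_apply i⟩)
    · rcases hxi with h | h
      · exact Or.inr (Or.inl ⟨i, hi, h⟩)
      · exact absurd h (hM2 i hi)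
  calc #(univ.filter fun i => x i ≠ i) ≤ #(M ∪ (M.image x ∪ M.image x.symm)) :=
        Finset.card_le_card hsub
    _ ≤ #M + #(M.image x ∪ M.image x.symm) := Finset.card_union_le _ _
    _ ≤ #M + (#(M.image x) + #(M.image x.symm)) := by
        gcongr
        exact Finset.card_union_le _ _
    _ ≤ 3 * #M := by
        have h1 : #(M.image x) ≤ #M := Finset.card_image_le
        have h2 : #(M.image x.symm) ≤ #M := Finset.card_image_le
        omega

end KP23
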