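import Pool.Agent.N23.KP.Stm2

/-!
Project KP (helper23), MP_75608d_al: linear support is necessary.  Task NEC (helper760).
-/

namespace KP23
open Finset Equiv Equiv.Perm Filter Topology RC14

section avg

variable {n : ℕ}

/-- the average over the alternating group of a function of the image of a point -/
theorem NEC_avg (hn : 3 ≤ n) (ψ : Fin n → ℝ) (a : Fin n) :
    (n : ℝ) * ∑ g : Alt n, ψ ((g : Perm (Fin n))⁻¹ a) = Fintype.card (Alt n) * ∑ i, ψ i := by
  have htr : MulAction.IsPretransitive (alternatingGroup (Fin n)) (Fin n) :=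
    alternatingGroup.isPretransitive_of_three_le_card (Fin n) (by simpa using hn)
  have hc : ∀ b : Fin n, ∑ g : Alt n, ψ ((g : Perm (Fin n))⁻¹ b) =
      ∑ g : Alt n, ψ ((g : Perm (Fin n))⁻¹ a) := by
    intro b
    obtain ⟨h, hh⟩ := htr.exists_smul_eq a b
    rw [← Equiv.sum_comp (Equiv.mulLeft h)]
    apply Finset.sum_congr rfl
    intro g _
    congr 1
    rw [Equiv.coe_mulLeft, Subgroup.coe_mul, mul_inv_rev, Perm.mul_apply]
    congr 1
    rw [← hh]
    exact Equiv.symm_apply_apply (h : Perm (Fin n)) a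
  have h1 : ∑ b : Fin n, ∑ g : Alt n, ψ ((g : Perm (Fin n))⁻¹ b) =
      n * ∑ g : Alt n, ψ ((g : Perm (Fin n))⁻¹ a) := by
    rw [Finset.sum_congr rfl fun b _ => hc b]
    simp
  rw [← h1, Finset.sum_comm]
  have h2 : ∀ g : Alt n, ∑ b : Fin n, ψ ((g : Perm (Fin n))⁻¹ b) = ∑ i, ψ i := fun g =>
    Equiv.sum_comp ((g : Perm (Fin n))⁻¹) ψ
  rw [Finset.sum_congr rfl fun g _ => h2 g]
  simp

/-- the sum of the squares of the differences -/
theorem NEC_sq (φ : Fin n → ℝ) (x : Perm (Fin n)) :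
    ∑ i, φ i * φ (x⁻¹ i) = ∑ i, φ i ^ 2 - (∑ i, (φ i - φ (x i)) ^ 2) / 2 := by
  have h1 : ∑ i, φ i * φ (x⁻¹ i) = ∑ i, φ (x i) * φ i := by
    rw [← Equiv.sum_comp x]
    simp
  have h2 : ∑ i, φ (x i) ^ 2 = ∑ i, φ i ^ 2 := Equiv.sum_comp x fun i => φ i ^ 2
  have h3 : ∑ i, (φ i - φ (x i)) ^ 2 =
      ∑ i, φ i ^ 2 - 2 * ∑ i, φ (x i) * φ i + ∑ i, φ (x i) ^ 2 := by
    rw [Finset.mul_sum, ← Finset.sum_sub_distrib, ← Finset.sum_add_distrib]
    apply Finset.sum_congr rfl
    intro i _
    ring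
  rw [h1, h3, h2]
  ring

theorem NEC_sq' (φ : Fin n → ℝ) (x : Perm (Fin n)) :
    ∑ i, φ i * φ (x i) = ∑ i, φ i ^ 2 - (∑ i, (φ i - φ (x i)) ^ 2) / 2 := by
  rw [← NEC_sq, ← Equiv.sum_comp x fun i => φ i * φ (x⁻¹ i)]
  apply Finset.sum_congr rfl
  intro i _
  have : (x⁻¹) (x i) = i := Equiv.symm_apply_apply x i
  rw [this, mul_comm]

/-- the spectral inequality for the action on the points -/
theorem NEC_ineq (hn : 3 ≤ n) (x y : Alt n) (ε : ℝ) (h : Expanding ε ![x, y]) (φ : Fin n → ℝ)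
    (h0 : ∑ i, φ i = 0) :
    4 * ε * ∑ i, φ i ^ 2 ≤ ∑ i, (φ i - φ ((x : Perm (Fin n)) i)) ^ 2 +
      ∑ i, (φ i - φ ((y : Perm (Fin n)) i)) ^ 2 := by
  have hn0 : (0 : ℝ) < n := by
    have : 0 < n := by omega
    exact_mod_cast this
  let a : Fin n := ⟨0, by omega⟩
  have hA : (0 : ℝ) < Fintype.card (Alt n) := by
    have : 0 < Fintype.card (Alt n) := Fintype.card_pos
    exact_mod_cast this
  have h1 := h.2 (fun g => φ ((g : Perm (Fin n))⁻¹ a)) (by
    have := NEC_avg hn φ a
    rw [h0, mul_zero] at this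
    rcases mul_eq_zero.1 this with h | h
    · exact absurd h hn0.ne'
    · exact h)
  have h2 : ∑ g : Alt n, φ ((g : Perm (Fin n))⁻¹ a) *
      walk ![x, y] (fun g : Alt n => φ ((g : Perm (Fin n))⁻¹ a)) g =
      ∑ g : Alt n, (fun i => φ i * (φ ((x : Perm (Fin n))⁻¹ i) + φ ((x : Perm (Fin n)) i) +
        (φ ((y : Perm (Fin n))⁻¹ i) + φ ((y : Perm (Fin n)) i))) / 4)
          ((g : Perm (Fin n))⁻¹ a) := by
    apply Finset.sum_congr rfl
    intro g _
    simp only [walk, Fin.sum_univ_two, Matrix.cons_val_zero, Matrix.cons_val_one,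
      Subgroup.coe_mul, mul_inv_rev, Perm.mul_apply, Subgroup.coe_inv, inv_inv]
    push_cast
    ring
  rw [h2] at h1
  have h3 := NEC_avg hn (fun i => φ i * (φ ((x : Perm (Fin n))⁻¹ i) + φ ((x : Perm (Fin n)) i) +
        (φ ((y : Perm (Fin n))⁻¹ i) + φ ((y : Perm (Fin n)) i))) / 4) a
  have h4 := NEC_avg hn (fun i => φ i ^ 2) a
  have h5 : ∑ i, φ i * (φ ((x : Perm (Fin n))⁻¹ i) + φ ((x : Perm (Fin n)) i) +
        (φ ((y : Perm (Fin n))⁻¹ i) + φ ((y : Perm (Fin n)) i))) / 4 =
      (∑ i, φ i * φ ((x : Perm (Fin n))⁻¹ i) + ∑ i, φ i * φ ((x : Perm (Fin n)) i) +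
        (∑ i, φ i * φ ((y : Perm (Fin n))⁻¹ i) + ∑ i, φ i * φ ((y : Perm (Fin n)) i))) / 4 := by
    rw [← Finset.sum_add_distrib, ← Finset.sum_add_distrib, ← Finset.sum_add_distrib,
      Finset.sum_div]
    apply Finset.sum_congr rfl
    intro i _
    ring
  rw [h5, NEC_sq, NEC_sq', NEC_sq, NEC_sq'] at h3
  have h6 := mul_le_mul_of_nonneg_left h1 hn0.le
  rw [h3] at h6
  have h7 : (n : ℝ) * ((1 - ε) * ∑ g : Alt n, φ ((g : Perm (Fin n))⁻¹ a) ^ 2) =
      Fintype.card (Alt n) * ((1 - ε) * ∑ i, φ i ^ 2) := by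
    linear_combination (1 - ε) * h4
  rw [h7] at h6
  have h8 := le_of_mul_le_mul_left h6 hA
  linarith

end avg

section sets

variable {n : ℕ}

/-- sets with at most one point which leaves -/
theorem NEC_set (y : Perm (Fin n)) (m : ℕ) (hm : m ≤ n) :
    ∃ W : Finset (Fin n), #W = m ∧ #{i ∈ W | y i ∉ W} ≤ 1 := by
  induction m with
  | zero => exact ⟨∅, rfl, by simp⟩
  | succ m ih =>
    obtain ⟨W, hW, hb⟩ := ih (by omega)
    by_cases hex : ∃ i ∈ W, y i ∉ W
    · obtain ⟨i, hi, hyi⟩ := hex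
      refine ⟨insert (y i) W, by rw [Finset.card_insert_of_notMem hyi, hW], ?_⟩
      rw [Finset.card_le_one] at hb ⊢
      have key : ∀ j ∈ ({j ∈ insert (y i) W | y j ∉ insert (y i) W} : Finset (Fin n)),
          j = y i := by
        intro j hj
        rw [Finset.mem_filter, Finset.mem_insert, Finset.mem_insert, not_or] at hj
        rcases hj.1 with h | h
        · exact h
        · exfalso
          have h1 := hb j (Finset.mem_filter.2 ⟨h, hj.2.2⟩) i (Finset.mem_filter.2 ⟨hi, hyi⟩)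
          rw [h1] at hj
          exact hj.2.1 rfl
      intro j hj k hk
      rw [key j hj, key k hk]
    · push Not at hex
      obtain ⟨z, hz⟩ : ∃ z, z ∉ W := by
        by_contra hcon
        push Not at hcon
        have : W = Finset.univ := Finset.eq_univ_iff_forall.2 hcon
        rw [this, Finset.card_univ, Fintype.card_fin] at hW
        omega
      refine ⟨insert z W, by rw [Finset.card_insert_of_notMem hz, hW], ?_⟩
      rw [Finset.card_le_one]
      have key : ∀ j ∈ ({j ∈ insert z W | y j ∉ insert z W} : Finset (Fin n)), j = z := by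
        intro j hj
        rw [Finset.mem_filter, Finset.mem_insert, Finset.mem_insert, not_or] at hj
        rcases hj.1 with h | h
        · exact h
        · exact absurd (hex j h) hj.2.2
      intro j hj k hk
      rw [key j hj, key k hk]

/-- the numbers of the points which leave and which enter are the same -/
theorem NEC_leave (y : Perm (Fin n)) (W : Finset (Fin n)) :
    #{i | i ∉ W ∧ y i ∈ W} = #{i ∈ W | y i ∉ W} := by
  have h1 : #{i | y i ∈ W} = #W := by
    rw [← Finset.card_map y.toEmbedding]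
    congr 1
    ext i
    rw [Finset.mem_map_equiv, Finset.mem_filter]
    simp
  have h2 : #{i | y i ∈ W} = #{i | i ∉ W ∧ y i ∈ W} + #{i ∈ W | y i ∈ W} := by
    rw [← Finset.card_union_of_disjoint]
    · congr 1
      ext i
      simp only [Finset.mem_filter, Finset.mem_univ, true_and, Finset.mem_union]
      tauto
    · rw [Finset.disjoint_left]
      intro i hi
      simp only [Finset.mem_filter, Finset.mem_univ, true_and] at hi ⊢
      tauto
  have h3 : #W = #{i ∈ W | y i ∈ W} + #{i ∈ W | y i ∉ W} := by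
    rw [Finset.card_filter_add_card_filter_not]
  omega

end sets

theorem NEC : ST_NEC := by
  classical
  intro n hn x y ε h
  by_cases hε : ε ≤ 0
  · have h1 : (2 / 5) * ε * n ≤ 0 := by
      have : (0 : ℝ) ≤ n := Nat.cast_nonneg n
      nlinarith
    exact h1.trans (Nat.cast_nonneg _)
  push Not at hε
  -- `x` is not trivial
  have hx : (x : Perm (Fin n)) ≠ 1 := by
    intro hx
    have hx1 : x = 1 := Subtype.ext hx
    have h1 := h.1
    have h2 : IsMulCommutative (Subgroup.closure (Set.range ![x, y])) := by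
      apply Subgroup.isMulCommutative_closure
      rintro _ ⟨i, rfl⟩ _ ⟨j, rfl⟩
      fin_cases i <;> fin_cases j <;> simp [hx1]
    have h3 : IsMulCommutative (alternatingGroup (Fin n)) := by
      refine ⟨⟨fun a b => ?_⟩⟩
      have ha : a ∈ Subgroup.closure (Set.range ![x, y]) := by rw [h1]; trivial
      have hb : b ∈ Subgroup.closure (Set.range ![x, y]) := by rw [h1]; trivial
      have h4 := h2.is_comm.comm ⟨a, ha⟩ ⟨b, hb⟩
      exact congrArg Subtype.val h4
    rw [alternatingGroup.isMulCommutative_iff_card_le_three] at h3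
    simp at h3
    omega
  have ht : 2 ≤ #(univ.filter fun i => (x : Perm (Fin n)) i ≠ i) := by
    have := two_le_card_support_of_ne_one hx
    convert this using 2
    ext i
    simp
  set t := #(univ.filter fun i => (x : Perm (Fin n)) i ≠ i) with htd
  obtain ⟨W, hW, hb⟩ := NEC_set (y : Perm (Fin n)) (n / 2) (Nat.div_le_self n 2)
  set w : ℝ := ((n / 2 : ℕ) : ℝ) with hw
  have hn0 : (0 : ℝ) < n := by
    have : 0 < n := by omega
    exact_mod_cast this
  let φ : Fin n → ℝ := fun i => (if i ∈ W then 1 else 0) - w / n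
  have hsum : ∑ i, (if i ∈ W then (1 : ℝ) else 0) = w := by
    rw [Finset.sum_ite_mem, Finset.univ_inter]
    simp [hW, hw]
  have h0 : ∑ i, φ i = 0 := by
    simp only [φ, Finset.sum_sub_distrib, hsum, Finset.sum_const, Finset.card_univ,
      Fintype.card_fin, nsmul_eq_mul]
    field_simp
    ring
  have h1 := NEC_ineq (by omega) x y ε h φ h0
  have h2 : ∑ i, φ i ^ 2 = w * (n - w) / n := by
    have h3 : ∀ i, φ i ^ 2 = (1 - 2 * (w / n)) * (if i ∈ W then (1 : ℝ) else 0) + (w / n) ^ 2 := by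
      intro i
      simp only [φ]
      split_ifs <;> ring
    rw [Finset.sum_congr rfl fun i _ => h3 i, Finset.sum_add_distrib, ← Finset.mul_sum, hsum]
    simp only [Finset.sum_const, Finset.card_univ, Fintype.card_fin, nsmul_eq_mul]
    field_simp
    ring
  have h3 : (n : ℝ) / 5 ≤ w * (n - w) / n := by
    rw [div_le_div_iff₀ (by norm_num) hn0]
    have h4 : (n : ℝ) = 2 * w + ((n % 2 : ℕ) : ℝ) := by
      rw [hw]
      exact_mod_cast (Nat.div_add_mod n 2).symm
    have h5 : n % 2 = 0 ∨ n % 2 = 1 := by omega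
    have h6 : (5 : ℝ) ≤ n := by exact_mod_cast hn
    rcases h5 with h5 | h5
    · rw [h5] at h4
      push_cast at h4
      have : w = n / 2 := by linarith
      rw [this]
      nlinarith
    · rw [h5] at h4
      push_cast at h4
      have : w = (n - 1) / 2 := by linarith
      rw [this]
      nlinarith
  have h4 : ∑ i, (φ i - φ ((x : Perm (Fin n)) i)) ^ 2 ≤ t := by
    have h5 : ∀ i, (φ i - φ ((x : Perm (Fin n)) i)) ^ 2 ≤
        if (x : Perm (Fin n)) i ≠ i then (1 : ℝ) else 0 := by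
      intro i
      by_cases hi : (x : Perm (Fin n)) i = i
      · rw [if_neg (not_not.2 hi), hi]
        simp
      · rw [if_pos hi]
        have e : φ i - φ ((x : Perm (Fin n)) i) = (if i ∈ W then (1 : ℝ) else 0) -
            (if (x : Perm (Fin n)) i ∈ W then (1 : ℝ) else 0) := by
          simp only [φ]
          ring
        rw [e]
        split_ifs <;> norm_num
    refine (Finset.sum_le_sum fun i _ => h5 i).trans ?_
    rw [Finset.sum_boole]
  have h5 : ∑ i, (φ i - φ ((y : Perm (Fin n)) i)) ^ 2 ≤ 2 := by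
    have h6 : ∀ i, (φ i - φ ((y : Perm (Fin n)) i)) ^ 2 =
        (if i ∉ W ∧ (y : Perm (Fin n)) i ∈ W then (1 : ℝ) else 0) +
          (if i ∈ W ∧ (y : Perm (Fin n)) i ∉ W then (1 : ℝ) else 0) := by
      intro i
      have e : φ i - φ ((y : Perm (Fin n)) i) = (if i ∈ W then (1 : ℝ) else 0) -
          (if (y : Perm (Fin n)) i ∈ W then (1 : ℝ) else 0) := by
        simp only [φ]
        ring
      rw [e]
      by_cases h1 : i ∈ W <;> by_cases h2 : (y : Perm (Fin n)) i ∈ W <;> simp [h1, h2]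
    rw [Finset.sum_congr rfl fun i _ => h6 i, Finset.sum_add_distrib, Finset.sum_boole,
      Finset.sum_boole]
    have h7 := NEC_leave (y : Perm (Fin n)) W
    have h8 : #{i | i ∈ W ∧ (y : Perm (Fin n)) i ∉ W} =
        #{i ∈ W | (y : Perm (Fin n)) i ∉ W} := by
      congr 1
      ext i
      simp
    rw [h7, h8]
    have h9 : ((#{i ∈ W | (y : Perm (Fin n)) i ∉ W} : ℕ) : ℝ) ≤ 1 := by exact_mod_cast hb
    linarith
  have h6 : (2 : ℝ) ≤ t := by exact_mod_cast ht
  rw [h2] at h1
  have h7 : 4 * ε * (n / 5) ≤ 4 * ε * (w * (n - w) / n) :=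
    mul_le_mul_of_nonneg_left h3 (by linarith)
  linarith

end KP23
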