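import Pool.Agent.N23.KP.PAIR

/-! Project KP (helper23): every element with linear support has many good partners. -/

namespace KP23
open Finset Equiv Equiv.Perm Filter Topology

theorem PAIR (hA : ST_ALLN) (hL : ST_LOC) (hM : ST_MOVE) (hC : ST_CHAIN) : ST_PAIR := by
  intro δ hδ
  obtain ⟨L₁, K₁, N₁, hK₁, hall⟩ := hA
  obtain ⟨q, hqF, K₂, j₀, hq5, hK₂, hloc⟩ := hL L₁ K₁ hK₁
  have hqp : q.Prime := hqF.out
  have hq0 : (0 : ℝ) < q := by exact_mod_cast hqp.pos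
  set δ₁ : ℝ := min δ 1 with hδ₁
  have hδ₁0 : 0 < δ₁ := lt_min hδ one_pos
  have hδ₁δ : δ₁ ≤ δ := min_le_left _ _
  have hδ₁1 : δ₁ ≤ 1 := min_le_right _ _
  set κ : ℝ := δ₁ / (100 * q) with hκ
  have hκ0 : 0 < κ := by positivity
  obtain ⟨p, hp_ge, hpp⟩ := Nat.exists_infinite_primes (⌈4 / κ⌉₊ + q + 7)
  have hpF : Fact p.Prime := ⟨hpp⟩
  have hp7 : 7 ≤ p := by omega
  have hpq : p ≠ q := by omega
  have hpκ : 4 / κ ≤ (p : ℝ) - 1 := by
    have h1 := Nat.le_ceil (4 / κ)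
    have h2 : ((⌈4 / κ⌉₊ : ℕ) : ℝ) + 1 ≤ p := by exact_mod_cast (by omega : ⌈4 / κ⌉₊ + 1 ≤ p)
    linarith
  obtain ⟨K₃, hK₃, hchain⟩ := hC q p
  refine ⟨K₃ * ((K₂ + 1) * (2 * (p * q) + 2)), by positivity, ⌈(N₁ + 10 * p + 100) / κ⌉₊ + 1, ?_⟩
  intro n hn x hx hmov
  -- sizes
  have hκn : (N₁ : ℝ) + 10 * p + 100 ≤ κ * n := by
    have h1 := Nat.le_ceil ((N₁ + 10 * p + 100) / κ)
    have h2 : ((⌈((N₁ : ℝ) + 10 * p + 100) / κ⌉₊ : ℕ) : ℝ) ≤ n := Nat.cast_le.mpr (by omega)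
    have h3 : (N₁ + 10 * p + 100) / κ ≤ (n : ℝ) := h1.trans h2
    rw [div_le_iff₀ hκ0] at h3
    linarith
  have hδn : δ₁ * n = 100 * (q * (κ * n)) := by
    rw [hκ]; field_simp
  have hnn : 100 * (q * (κ * n)) ≤ n := by
    rw [← hδn]
    calc δ₁ * n ≤ 1 * n := by gcongr
      _ = n := one_mul _
  obtain ⟨a, ha⟩ : ∃ a : ℝ, a = κ * n := ⟨_, rfl⟩
  rw [← ha] at hκn hδn hnn
  have hp0 : (0 : ℝ) ≤ p := by positivity
  have hN0 : (0 : ℝ) ≤ N₁ := by positivity
  have ha100 : 100 ≤ a := by linarith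
  obtain ⟨n', hn'⟩ : ∃ n', n' = ⌊a⌋₊ := ⟨_, rfl⟩
  have hn'1 : (n' : ℝ) ≤ a := hn' ▸ Nat.floor_le (by linarith)
  have hn'2 : a - 1 < n' := by
    rw [hn']
    have := Nat.lt_floor_add_one a
    linarith
  have hq5' : (5 : ℝ) ≤ q := by exact_mod_cast hq5
  have hqn : (q : ℝ) * n' ≤ q * a := by gcongr
  have hqa : 5 * a ≤ q * a := by gcongr
  have hqa0 : 0 ≤ (q : ℝ) * a := by positivity
  have h2q : 2 * (q * n') ≤ n := by
    have : (2 * (q * n') : ℝ) ≤ n := by linarith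
    exact_mod_cast this
  obtain ⟨r, hr⟩ : ∃ r, r = (n - 2 * (q * n')) % (p - 1) := ⟨_, rfl⟩
  obtain ⟨Nc, hNc⟩ : ∃ Nc, Nc = (n - 2 * (q * n')) / (p - 1) := ⟨_, rfl⟩
  have hrp : r < p - 1 := hr ▸ Nat.mod_lt _ (by omega)
  have hdecomp : n = 2 * (q * n') + r + Nc * (p - 1) := by
    have := Nat.mod_add_div (n - 2 * (q * n')) (p - 1)
    rw [← hr, ← hNc, mul_comm (p - 1) Nc] at this
    omega
  have hrp' : (r : ℝ) ≤ p := by exact_mod_cast (by omega : r ≤ p)
  have hp1cast : ((p - 1 : ℕ) : ℝ) = (p : ℝ) - 1 := by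
    rw [Nat.cast_sub (by omega)]; norm_num
  have hdecomp' : (n : ℝ) = 2 * (q * n') + r + Nc * (p - 1) := by
    have := congrArg (Nat.cast (R := ℝ)) hdecomp
    push_cast at this
    rw [hp1cast] at this
    exact this
  have hNca : (Nc : ℝ) ≤ a / 4 := by
    have hp1 : (0 : ℝ) < (p : ℝ) - 1 := by
      have : (7 : ℝ) ≤ p := by exact_mod_cast hp7
      linarith
    have h1 : (Nc : ℝ) * (p - 1) ≤ n := by
      have : 0 ≤ (q : ℝ) * n' := by positivity
      have : (0 : ℝ) ≤ r := by positivity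
      linarith
    have h2 : (n : ℝ) = a / κ := by rw [ha]; field_simp
    have h3 : (Nc : ℝ) * (4 / κ) ≤ a / κ := by
      calc (Nc : ℝ) * (4 / κ) ≤ Nc * (p - 1) := by gcongr
        _ ≤ n := h1
        _ = a / κ := h2
    have h4 : (Nc : ℝ) * 4 / κ ≤ a / κ := by rw [mul_div_assoc]; exact h3
    rw [div_le_div_iff_of_pos_right hκ0] at h4
    linarith
  have hNc2 : 2 * Nc + 2 ≤ n' := by
    have : (2 * Nc + 2 : ℝ) < n' := by linarith
    exact_mod_cast this.le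
  have hNcn : Nc ≤ n' := by omega
  have hE0 : (Nc : ℝ) * (p - 1) = n - 2 * (q * n') - r := by linarith
  have hNcp : n' + 2 ≤ Nc * (p - 1) := by
    have : (n' + 2 : ℝ) ≤ Nc * (p - 1) := by
      rw [hE0]
      linarith
    have h2 : ((n' + 2 : ℕ) : ℝ) ≤ ((Nc * (p - 1) : ℕ) : ℝ) := by
      push_cast
      rw [hp1cast]
      exact this
    exact_mod_cast h2
  have hU0 : 3 * (q * n' + r) + 2 ≤ n := by
    have : (3 * (q * n' + r) + 2 : ℝ) ≤ n := by linarith
    exact_mod_cast this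
  have hN1 : N₁ ≤ n' := by
    have : (N₁ : ℝ) ≤ n' := by linarith
    exact_mod_cast this
  have hn'2' : 2 ≤ n' := by omega
  -- the set M
  obtain ⟨M, hMc, hMx⟩ := hM (Fin n) x
  have hcard : q * n' + r ≤ #M := by
    have h1 : (3 * #M : ℝ) ≥ δ * n := by
      have : ((#(univ.filter fun i => x i ≠ i) : ℕ) : ℝ) ≤ 3 * #M := by exact_mod_cast hMc
      linarith
    have h2 : δ₁ * n ≤ δ * n := by gcongr
    have : ((q * n' + r : ℕ) : ℝ) ≤ #M := by
      push_cast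
      linarith
    exact_mod_cast this
  obtain ⟨e, e₂, g1, g2, g3, g4, g5, g6⟩ := geo n q p n' Nc x M hMx r hdecomp hcard hNcn j₀
  -- the block
  obtain ⟨g, hg⟩ := hall n' hN1
  obtain ⟨u, hu0, huu, husign, hu⟩ := hloc (Fin n') (by rw [Fintype.card_fin]; exact hn'2') g hg
  refine ⟨Nc * (p - 1), fun π => (x * embP e (row u) * x⁻¹) *
    embP (e₂ π) (row fun _ => Equiv.addRight 1) * embP e (blk (Equiv.addRight 1)), ?_, ?_, ?_⟩
  · push_cast
    rw [hp1cast, hE0]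
    have h2 : δ₁ * n ≤ δ * n := by gcongr
    linarith
  · -- injectivity
    intro π π' hππ
    simp only at hππ
    have h1 := mul_left_cancel (mul_right_cancel hππ)
    have key : ∀ π : Perm (Fin (Nc * (p - 1))), ∀ (k : ℕ) (i : Fin Nc),
        ((embP (e₂ π) (row fun _ => Equiv.addRight 1)) ^ k) (e₂ π (i, 0)) = e₂ π (i, (k : ZMod p))
        := by
      intro π k i
      rw [← map_pow, embP_apply]
      congr 1
      have h5 := map_pow (rowHom (Q := Fin Nc) (M := ZMod p)) (fun _ => Equiv.addRight 1) k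
      change row _ = row _ ^ k at h5
      rw [← h5, row_apply, Pi.pow_apply, addRight_pow]
      simp
    apply g6
    rintro ⟨i, t⟩
    have k1 := key π t.val i
    have k2 := key π' t.val i
    rw [ZMod.natCast_zmod_val] at k1 k2
    rw [← k1, ← k2, h1, g2, g2]
  · intro π
    obtain ⟨⟨a₁, ha₁, hb₁⟩, ⟨a₂, ha₂, hb₂⟩, ⟨a₃, ha₃, hb₃⟩, hs₂, hs₃⟩ :=
      pair_core q p (by omega) (by omega) hpq n' Nc hNcn x e (e₂ π) j₀ g1 (g2 π) (g3 π) u hu0 huu
    set y₁ : Perm (Fin n) := x * embP e (row u) * x⁻¹ with hy₁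
    set y₂ : Perm (Fin n) := embP (e₂ π) (row fun _ => Equiv.addRight 1) with hy₂
    set y₃ : Perm (Fin n) := embP e (blk (Equiv.addRight 1)) with hy₃
    have hs₁ : sign y₁ = 1 := by
      rw [hy₁, Perm.sign_mul, Perm.sign_mul, sign_embP, sign_row, husign, sign_inv, hx]
      simp
    refine ⟨?_, ?_⟩
    · intro i
      fin_cases i
      · exact hx
      · change sign (y₁ * y₂ * y₃) = 1
        rw [Perm.sign_mul, Perm.sign_mul, hs₁, hs₂, hs₃]
        simp
    · intro E _ _ ρ v η hη h hh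
      have dx : ‖ρ x v - v‖ ≤ η := hη 0
      have dy : ‖ρ (y₁ * y₂ * y₃) v - v‖ ≤ η := hη 1
      have hη0 : 0 ≤ η := (norm_nonneg _).trans dx
      have dpow : ∀ a : ℕ, a ≤ 2 * (p * q) → ‖ρ ((y₁ * y₂ * y₃) ^ a) v - v‖ ≤
          (2 * (p * q) : ℝ) * η := by
        intro a ha
        refine (disp_pow ρ v _ a).trans ?_
        have : (a : ℝ) ≤ 2 * (p * q) := by exact_mod_cast ha
        gcongr
      have dy₁ : ‖ρ y₁ v - v‖ ≤ (2 * (p * q) : ℝ) * η := hb₁ ▸ dpow a₁ ha₁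
      have dy₂ : ‖ρ y₂ v - v‖ ≤ (2 * (p * q) : ℝ) * η := hb₂ ▸ dpow a₂ ha₂
      have dy₃ : ‖ρ y₃ v - v‖ ≤ (2 * (p * q) : ℝ) * η := hb₃ ▸ dpow a₃ ha₃
      have du : ‖ρ (embP e (row u)) v - v‖ ≤ (2 * (p * q) + 2 : ℝ) * η := by
        have h1 := disp_conj ρ v y₁ x
        have h2 : x⁻¹ * y₁ * x = embP e (row u) := by rw [hy₁]; group
        rw [h2] at h1
        linarith
      have hpq0 : (0 : ℝ) ≤ p * q := by positivity
      have dloc := hu E (ρ.comp (embP e)) v ((2 * (p * q) + 2 : ℝ) * η)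
        (by
          change ‖ρ (embP e (blk (Equiv.addRight 1))) v - v‖ ≤ _
          refine dy₃.trans ?_
          gcongr
          linarith) du
      have hmain := hchain (Fin n) n' Nc hNcn x e (e₂ π) j₀ hNc2 hNcp g1 (g2 π) (g3 π) (g4 π)
        (by
          rw [Fintype.card_fin]
          have := g5 π
          omega) E ρ v ((K₂ + 1) * (2 * (p * q) + 2) * η)
        (by
          intro j w hw
          refine (dloc j w hw).trans ?_
          have : 0 ≤ (2 * (p * q) + 2 : ℝ) * η := by positivity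
          nlinarith)
        (by
          refine dx.trans ?_
          have h1 : (1 : ℝ) ≤ (K₂ + 1) * (2 * (p * q) + 2) := by nlinarith
          nlinarith)
        (by
          refine dy₃.trans ?_
          have h1 : (2 * (p * q) : ℝ) ≤ (K₂ + 1) * (2 * (p * q) + 2) := by nlinarith
          gcongr)
        (by
          refine dy₂.trans ?_
          have h1 : (2 * (p * q) : ℝ) ≤ (K₂ + 1) * (2 * (p * q) + 2) := by nlinarith
          gcongr) h hh
      refine hmain.trans (le_of_eq (by ring))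

end KP23
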