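import Pool.Agent.N23.KP.Api

/-! Project KP (helper23): the recursion. -/

namespace KP23
open Finset Equiv Equiv.Perm Filter Topology

theorem rec_size (C : ℝ) (hC : 0 < C) (p s q m : ℕ) (hs : 1 ≤ s) (hp : (6 * C) ^ 2 ≤ p)
    (hp1 : 1 ≤ p) (hq : q = 512000 * p ^ (4 * s)) (hm : m ≤ q ^ 3) :
    C * (m : ℝ) ^ (1 / 24 : ℝ) ≤ (p : ℝ) ^ s := by
  set y : ℝ := (p : ℝ) ^ s with hy
  have hp1' : (1 : ℝ) ≤ p := by exact_mod_cast hp1
  have hy0 : 0 ≤ y := by positivity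
  have hyp : (p : ℝ) ≤ y := by
    calc (p : ℝ) = (p : ℝ) ^ 1 := (pow_one _).symm
      _ ≤ (p : ℝ) ^ s := pow_le_pow_right₀ hp1' hs
  have h1 : (m : ℝ) ≤ (6 * Real.sqrt y) ^ 24 := by
    have h2 : (m : ℝ) ≤ (q : ℝ) ^ 3 := by exact_mod_cast hm
    have h3 : (q : ℝ) = 512000 * y ^ 4 := by
      rw [hq, hy, ← pow_mul, mul_comm s 4]
      push_cast
      ring
    have h4 : (6 * Real.sqrt y) ^ 24 = 6 ^ 24 * y ^ 12 := by
      rw [mul_pow]
      congr 1
      rw [show (24 : ℕ) = 2 * 12 by norm_num, pow_mul, Real.sq_sqrt hy0]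
    rw [h4]
    refine h2.trans ?_
    rw [h3, mul_pow, ← pow_mul]
    have : (0 : ℝ) ≤ y ^ 12 := by positivity
    norm_num
    nlinarith
  have h5 : (m : ℝ) ^ (1 / 24 : ℝ) ≤ 6 * Real.sqrt y := by
    calc (m : ℝ) ^ (1 / 24 : ℝ) ≤ ((6 * Real.sqrt y) ^ 24) ^ (1 / 24 : ℝ) :=
          Real.rpow_le_rpow (by positivity) h1 (by norm_num)
      _ = 6 * Real.sqrt y := by
          rw [← Real.rpow_natCast, ← Real.rpow_mul (by positivity)]
          norm_num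
  have h6 : 6 * C ≤ Real.sqrt y := by
    apply Real.le_sqrt_of_sq_le
    linarith
  calc C * (m : ℝ) ^ (1 / 24 : ℝ) ≤ C * (6 * Real.sqrt y) := by gcongr
    _ = (6 * C) * Real.sqrt y := by ring
    _ ≤ Real.sqrt y * Real.sqrt y := by
        gcongr
    _ = y := Real.mul_self_sqrt hy0

theorem REC (hB : ST_BASE) (hO : ST_BOOST) (hS : ST_STEP) : ST_REC := by
  obtain ⟨c, hc0, hc1, C, hC, N, hN⟩ := hB
  obtain ⟨κ₀, hκ0, hκc, hstep⟩ := hS c hc0 hc1
  obtain ⟨J, hJ⟩ := hO κ₀ hκ0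
  obtain ⟨s, hs⟩ : ∃ s, s = 2 * J + 1 := ⟨_, rfl⟩
  obtain ⟨p₀, hp₀⟩ := hJ (s + 1) (by omega)
  obtain ⟨p, hp_ge, hp⟩ := Nat.exists_infinite_primes
    (max (max 50 p₀) (max N (⌈(6 * C) ^ 2⌉₊ + 1)))
  have : Fact p.Prime := ⟨hp⟩
  have h50 : 50 ≤ p := (le_max_left 50 p₀).trans ((le_max_left _ _).trans hp_ge)
  have hpp₀ : p₀ ≤ p := (le_max_right 50 p₀).trans ((le_max_left _ _).trans hp_ge)
  have hpN : N ≤ p := (le_max_left N _).trans ((le_max_right _ _).trans hp_ge)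
  have hpC' : ⌈(6 * C) ^ 2⌉₊ + 1 ≤ p := (le_max_right N _).trans ((le_max_right _ _).trans hp_ge)
  have hpC : (6 * C) ^ 2 ≤ p := by
    have h1 := Nat.le_ceil ((6 * C) ^ 2)
    have h2 : (⌈(6 * C) ^ 2⌉₊ : ℝ) ≤ p := by exact_mod_cast (by omega : ⌈(6 * C) ^ 2⌉₊ ≤ p)
    linarith
  obtain ⟨q, hq⟩ : ∃ q, q = 512000 * p ^ (4 * s) := ⟨_, rfl⟩
  have hpq : p ≤ q := by
    rw [hq]
    calc p = p ^ 1 := (pow_one p).symm
      _ ≤ p ^ (4 * s) := Nat.pow_le_pow_right hp.pos (by omega)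
      _ ≤ 512000 * p ^ (4 * s) := Nat.le_mul_of_pos_left _ (by norm_num)
  have hs' : s + 1 + 2 * J = 2 * s := by omega
  -- the base
  have hbase : ∀ m, N ≤ m → m ≤ q ^ 3 → ∃ U : Ix p (2 * s) → Perm (Fin m), Nb U (1 / 2) := by
    intro m hm1 hm2
    obtain ⟨g, hg⟩ := hN m hm1 p s (rec_size C hC p s q m (by omega) hpC hp.one_lt.le hq hm2)
    obtain ⟨g', hg'⟩ := (hg.mono (by linarith : 1 - c ≤ 1 - κ₀)).padIx
    have := hp₀ p hpp₀ (Fin m) g' hg'
    rwa [hs'] at this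
  obtain ⟨T, hT⟩ := hN q (hpN.trans hpq) p s
    (rec_size C hC p s q q (by omega) hpC hp.one_lt.le hq (Nat.le_self_pow (by norm_num) q))
  -- the step
  have hind : ∀ (M : Type) [Fintype M] [DecidableEq M], 2 ≤ Fintype.card M →
      (∃ U : Ix p (2 * s) → Perm (Fin q × M), Nb U (1 / 2)) →
      ∃ U : Ix p (2 * s) → Perm (Fin q × (Fin q × M)), Nb U (1 / 2) := by
    intro M _ _ hM ⟨U, hU⟩
    obtain ⟨G, hG⟩ := hstep p h50 s (2 * s) (Fin q) M
      (by rw [Fintype.card_fin, hq]; congr 2; ring) hM T U hT hU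
    have := hp₀ p hpp₀ _ G hG
    rwa [hs'] at this
  have hq512 : 512000 ≤ q := by
    rw [hq]
    exact Nat.le_mul_of_pos_right _ (pow_pos hp.pos _)
  have main : ∀ m : ℕ, 4 ≤ m → m < 4 * q → ∀ j : ℕ,
      ∃ U : Ix p (2 * s) → Perm (Fin (m * q ^ (j + 1))), Nb U (1 / 2) := by
    intro m hm4 hmq j
    induction j with
    | zero =>
      apply hbase
      · have : q ≤ m * q ^ (0 + 1) := by
          rw [zero_add, pow_one]; exact Nat.le_mul_of_pos_left _ (by omega)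
        omega
      · rw [zero_add, pow_one]
        calc m * q ≤ 4 * q * q := Nat.mul_le_mul_right _ hmq.le
          _ ≤ q * q * q := Nat.mul_le_mul_right _ (Nat.mul_le_mul_right _ (by omega))
          _ = q ^ 3 := by ring
    | succ j ih =>
      obtain ⟨U, hU⟩ := ih
      have hpos : 0 < q ^ j := pow_pos (by omega) _
      have hc2 : 2 ≤ Fintype.card (Fin (m * q ^ j)) := by
        rw [Fintype.card_fin]
        nlinarith
      have e1 : Fin (m * q ^ (j + 1)) ≃ Fin q × Fin (m * q ^ j) := by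
        apply Fintype.equivOfCardEq
        simp only [Fintype.card_fin, Fintype.card_prod]
        ring
      obtain ⟨U', hU'⟩ := hind (Fin (m * q ^ j)) hc2 ⟨_, hU.permCongr e1⟩
      have e2 : (Fin q × (Fin q × Fin (m * q ^ j))) ≃ Fin (m * q ^ (j + 1 + 1)) := by
        apply Fintype.equivOfCardEq
        simp only [Fintype.card_fin, Fintype.card_prod]
        ring
      exact ⟨_, hU'.permCongr e2⟩
  refine ⟨q, Fintype.card (Ix p (2 * s)), by omega, Fintype.card_pos, fun m h4 hmq j => ?_⟩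
  obtain ⟨U, hU⟩ := main m h4 hmq j
  exact ⟨_, hU.reindex (Fintype.equivFin (Ix p (2 * s))).symm⟩

end KP23
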