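import Pool.Agent.N23.KP.Stm

namespace KP23
open Finset Equiv Equiv.Perm

private lemma two_pow_add (a : ℕ) : ∀ b c d : ℕ, 2 ^ a + 2 ^ b = 2 ^ c + 2 ^ d →
    (a = c ∧ b = d) ∨ (a = d ∧ b = c) := by
  induction a with
  | zero =>
    intro b c d h
    rcases b with _ | b <;> rcases c with _ | c <;> rcases d with _ | d
    · left; exact ⟨rfl, rfl⟩
    · exfalso
      have := Nat.two_pow_pos d
      simp only [pow_zero, pow_succ] at h; omega
    · exfalso
      have := Nat.two_pow_pos c
      simp only [pow_zero, pow_succ] at h; omega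
    · exfalso
      have := Nat.two_pow_pos c
      have := Nat.two_pow_pos d
      simp only [pow_zero, pow_succ] at h; omega
    · exfalso
      have := Nat.two_pow_pos b
      simp only [pow_zero, pow_succ] at h; omega
    · left
      refine ⟨rfl, ?_⟩
      exact Nat.pow_right_injective (le_refl 2) (by simpa using h)
    · right
      refine ⟨rfl, ?_⟩
      have h2 : 2 ^ (b + 1) = 2 ^ (c + 1) := by
        simp only [pow_zero] at h; omega
      exact Nat.pow_right_injective (le_refl 2) h2
    · exfalso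
      simp only [pow_zero, pow_succ] at h; omega
  | succ a ih =>
    intro b c d h
    rcases b with _ | b
    · rcases c with _ | c <;> rcases d with _ | d
      · exfalso
        have := Nat.two_pow_pos a
        simp only [pow_zero, pow_succ] at h; omega
      · right
        have h2 : 2 ^ (a + 1) = 2 ^ (d + 1) := by
          simp only [pow_zero] at h; omega
        exact ⟨Nat.pow_right_injective (le_refl 2) h2, rfl⟩
      · left
        have h2 : 2 ^ (a + 1) = 2 ^ (c + 1) := by
          simp only [pow_zero] at h; omega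
        exact ⟨Nat.pow_right_injective (le_refl 2) h2, rfl⟩
      · exfalso
        simp only [pow_zero, pow_succ] at h; omega
    · rcases c with _ | c <;> rcases d with _ | d
      · exfalso
        have := Nat.two_pow_pos a
        have := Nat.two_pow_pos b
        simp only [pow_zero, pow_succ] at h; omega
      · exfalso
        simp only [pow_zero, pow_succ] at h; omega
      · exfalso
        simp only [pow_zero, pow_succ] at h; omega
      · have h2 : 2 ^ a + 2 ^ b = 2 ^ c + 2 ^ d := by
          simp only [pow_succ] at h; omega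
        rcases ih b c d h2 with ⟨h3, h4⟩ | ⟨h3, h4⟩
        · left; exact ⟨by omega, by omega⟩
        · right; exact ⟨by omega, by omega⟩

theorem SID : ST_SID := by
  intro L
  obtain ⟨q, hq, hqp⟩ := Nat.exists_infinite_primes (2 ^ (L + 3) + 1)
  have h8 : 8 * 2 ^ L = 2 ^ (L + 3) := by rw [pow_add]; ring
  have hL1 : 1 ≤ 2 ^ L := Nat.one_le_two_pow
  have hlt : ∀ i : Fin L, 2 ^ ((i : ℕ) + 1) ≤ 2 ^ L := fun i =>
    Nat.pow_le_pow_right (by norm_num) (by have := i.2; omega)
  have hcast : ∀ a b : ℕ, a < q → b < q → ((a : ℕ) : ZMod q) = (b : ℕ) → a = b := by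
    intro a b ha hb h
    rw [ZMod.natCast_eq_natCast_iff', Nat.mod_eq_of_lt ha, Nat.mod_eq_of_lt hb] at h
    exact h
  refine ⟨q, hqp, by omega,
    ⟨fun i => ((2 ^ ((i : ℕ) + 1) : ℕ) : ZMod q), ?_⟩, 0, ?_, ?_⟩
  · intro i j hij
    have h1 := hlt i
    have h2 := hlt j
    have h := hcast _ _ (by omega) (by omega) hij
    have h3 := Nat.pow_right_injective (le_refl 2) h
    exact Fin.ext (by simpa using h3)
  · rintro ⟨i, hi⟩
    have h1 := hlt i
    have h2 : ((2 ^ ((i : ℕ) + 1) : ℕ) : ZMod q) = ((0 : ℕ) : ZMod q) := by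
      rw [Nat.cast_zero]; exact hi
    have h := hcast _ _ (by omega) (by omega) h2
    have := Nat.two_pow_pos ((i : ℕ) + 1)
    omega
  · intro i j k l hij h
    have h' : ((2 ^ ((i : ℕ) + 1) : ℕ) : ZMod q) - ((2 ^ ((j : ℕ) + 1) : ℕ) : ZMod q) =
      ((2 ^ ((k : ℕ) + 1) : ℕ) : ZMod q) - ((2 ^ ((l : ℕ) + 1) : ℕ) : ZMod q) := h
    have h1 : ((2 ^ ((i : ℕ) + 1) + 2 ^ ((l : ℕ) + 1) : ℕ) : ZMod q) =
        ((2 ^ ((k : ℕ) + 1) + 2 ^ ((j : ℕ) + 1) : ℕ) : ZMod q) := by
      rw [Nat.cast_add, Nat.cast_add]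
      linear_combination h'
    have hi := hlt i
    have hj := hlt j
    have hk := hlt k
    have hl := hlt l
    have h2 := hcast _ _ (by omega) (by omega) h1
    rcases two_pow_add _ _ _ _ h2 with ⟨h3, h4⟩ | ⟨h3, h4⟩
    · exact ⟨Fin.ext (by omega), Fin.ext (by omega)⟩
    · exact absurd (Fin.ext (by omega)) hij

end KP23
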