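import Pool.Agent.N23.KP.Stm

/-!
Project KP (helper23), MP_75608d_al: proof of the statement STEP (by helper206).
-/

namespace KP23
open Finset Equiv Equiv.Perm

/-! ### small lemmas -/

lemma STEP_phi (p : ℕ) [Fact p.Prime] (hp : 50 ≤ p) :
    ∃ φ : ZMod p → Fin 6, ∀ c, (p : ℝ) / 7 ≤ #(univ.filter fun a => φ a = c) := by
  have : NeZero p := ⟨by omega⟩
  refine ⟨fun a => ⟨a.val % 6, Nat.mod_lt _ (by norm_num)⟩, fun c => ?_⟩
  have h1 : p / 6 ≤ #(univ.filter fun a : ZMod p =>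
      (⟨a.val % 6, Nat.mod_lt _ (by norm_num)⟩ : Fin 6) = c) := by
    conv_lhs => rw [← Finset.card_range (p / 6)]
    have key : ∀ j ∈ Finset.range (p / 6), 6 * j + c.val < p := by
      intro j hj
      have := Finset.mem_range.1 hj
      have := c.isLt
      omega
    apply Finset.card_le_card_of_injOn (fun j => ((6 * j + c.val : ℕ) : ZMod p))
    · intro j hj
      have h := key j hj
      simp only [coe_filter, mem_univ, true_and, Set.mem_ofPred_eq]
      apply Fin.ext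
      simp only
      rw [ZMod.val_natCast_of_lt h]
      have := c.isLt
      omega
    · intro j hj j' hj' h
      have h1 := key j hj
      have h2 := key j' hj'
      have := congrArg ZMod.val h
      simp only at this
      rw [ZMod.val_natCast_of_lt h1, ZMod.val_natCast_of_lt h2] at this
      omega
  have h2 : p ≤ 7 * (p / 6) := by omega
  have h3 : (p : ℝ) ≤ 7 * ((p / 6 : ℕ) : ℝ) := by exact_mod_cast h2
  have h4 : ((p / 6 : ℕ) : ℝ) ≤ _ := Nat.cast_le.2 h1
  refine le_trans ?_ h4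
  linarith

lemma Nb_equiv {X : Type} [Fintype X] [DecidableEq X] {ι ι' : Type} [Fintype ι] [Fintype ι']
    (e : ι' ≃ ι) (g : ι → Perm X) (κ : ℝ) (h : Nb g κ) : Nb (fun i => g (e i)) κ := by
  refine ⟨fun i => h.1 (e i), fun E _ _ ρ v hv => ?_⟩
  rw [Equiv.sum_comp e (fun i => ρ (g i) v), Fintype.card_congr e]
  exact h.2 E ρ v hv

/-- a vector with zero average is moved a lot -/
lemma STEP_avg {X : Type} [Fintype X] [DecidableEq X] {E : Type} [NormedAddCommGroup E]
    [InnerProductSpace ℝ E] (ρ : Perm X →* (E ≃ₗᵢ[ℝ] E)) (v : E) (ε : ℝ)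
    (hv : ∑ h : alternatingGroup X, ρ (h : Perm X) v = 0)
    (hε : ∀ h : Perm X, sign h = 1 → ‖ρ h v - v‖ ≤ ε) : ‖v‖ ≤ ε := by
  have hN : (0 : ℝ) < Fintype.card (alternatingGroup X) := by
    exact_mod_cast Fintype.card_pos
  have h1 : ∑ h : alternatingGroup X, (ρ (h : Perm X) v - v)
      = -((Fintype.card (alternatingGroup X) : ℝ) • v) := by
    rw [Finset.sum_sub_distrib, hv, Finset.sum_const, Finset.card_univ, zero_sub,
      ← Nat.cast_smul_eq_nsmul ℝ]
  have h2 : ‖∑ h : alternatingGroup X, (ρ (h : Perm X) v - v)‖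
      ≤ Fintype.card (alternatingGroup X) * ε := by
    refine (norm_sum_le _ _).trans ?_
    refine (Finset.sum_le_sum (g := fun _ => ε) ?_).trans ?_
    · intro h _
      exact hε h.1 (Equiv.Perm.mem_alternatingGroup.1 h.2)
    · simp
  rw [h1, norm_neg, norm_smul, Real.norm_of_nonneg hN.le] at h2
  exact le_of_mul_le_mul_left h2 hN

/-- Kazhdan inequality from the norm bound -/
lemma STEP_kaz {Q : Type} [Fintype Q] [DecidableEq Q] {ι : Type} [Fintype ι] [Nonempty ι]
    (T : ι → Perm Q) (c₀ : ℝ) (hc : 0 < c₀) (hT : Nb T (1 - c₀))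
    {E : Type} [NormedAddCommGroup E] [InnerProductSpace ℝ E] (ρ : Perm Q →* (E ≃ₗᵢ[ℝ] E)) (v : E)
    (δ : ℝ) (hδ : ∑ i, ‖ρ (T i) v - v‖ ≤ Fintype.card ι * δ) (h : Perm Q) (hh : sign h = 1) :
    ‖ρ h v - v‖ ≤ 2 / c₀ * δ := by
  set N : ℝ := (Fintype.card (alternatingGroup Q) : ℝ) with hNdef
  have hN : (0 : ℝ) < N := by
    rw [hNdef]; exact_mod_cast Fintype.card_pos
  set S : E := ∑ h : alternatingGroup Q, ρ (h : Perm Q) v with hS
  have hinv : ∀ g : Perm Q, sign g = 1 → ρ g S = S := by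
    intro g hg
    rw [hS, map_sum]
    have hg' : g ∈ alternatingGroup Q := Equiv.Perm.mem_alternatingGroup.2 hg
    rw [← Equiv.sum_comp (Equiv.mulLeft (⟨g, hg'⟩ : alternatingGroup Q))
      (fun h : alternatingGroup Q => ρ (h : Perm Q) v)]
    refine Finset.sum_congr rfl (fun x _ => ?_)
    simp only [Equiv.coe_mulLeft, Subgroup.coe_mul, map_mul]
    rfl
  set v₁ : E := v - N⁻¹ • S with hv₁
  have hmove : ∀ g : Perm Q, sign g = 1 → ρ g v - v = ρ g v₁ - v₁ := by
    intro g hg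
    rw [hv₁, map_sub, map_smul, hinv g hg]
    abel
  have hzero : ∑ h : alternatingGroup Q, ρ (h : Perm Q) v₁ = 0 := by
    have : ∀ h : alternatingGroup Q, ρ (h : Perm Q) v₁ = ρ (h : Perm Q) v - N⁻¹ • S := by
      intro h
      rw [hv₁, map_sub, map_smul, hinv _ (Equiv.Perm.mem_alternatingGroup.1 h.2)]
    rw [Finset.sum_congr rfl (fun h _ => this h), Finset.sum_sub_distrib, Finset.sum_const,
      Finset.card_univ, ← Nat.cast_smul_eq_nsmul ℝ, ← hNdef, smul_smul,
      mul_inv_cancel₀ hN.ne', one_smul, sub_self]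
  have hb := hT.2 E ρ v₁ hzero
  have hP : (0 : ℝ) < Fintype.card ι := by exact_mod_cast Fintype.card_pos
  have h1 : ∑ i, ρ (T i) v₁ - (Fintype.card ι : ℝ) • v₁ = ∑ i, (ρ (T i) v - v) := by
    rw [Finset.sum_congr rfl (fun i _ => hmove (T i) (hT.1 i)), Finset.sum_sub_distrib,
      Finset.sum_const, Finset.card_univ, ← Nat.cast_smul_eq_nsmul ℝ]
  have h2 : ‖(Fintype.card ι : ℝ) • v₁‖ ≤ ‖∑ i, ρ (T i) v₁‖ + ‖∑ i, (ρ (T i) v - v)‖ := by
    rw [← h1]
    have := norm_sub_le (∑ i, ρ (T i) v₁) (∑ i, ρ (T i) v₁ - (Fintype.card ι : ℝ) • v₁)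
    simpa using this
  have h3 : ‖∑ i, (ρ (T i) v - v)‖ ≤ Fintype.card ι * δ := (norm_sum_le _ _).trans hδ
  rw [norm_smul, Real.norm_of_nonneg hP.le] at h2
  have h4 : c₀ * ‖v₁‖ ≤ δ := by
    have : (Fintype.card ι : ℝ) * (c₀ * ‖v₁‖) ≤ Fintype.card ι * δ := by nlinarith
    exact le_of_mul_le_mul_left this hP
  have h5 : ‖v₁‖ ≤ δ / c₀ := by
    rw [le_div_iff₀ hc]; linarith
  rw [hmove h hh]
  have h6 : ‖ρ h v₁ - v₁‖ ≤ ‖ρ h v₁‖ + ‖v₁‖ := norm_sub_le _ _
  rw [(ρ h).norm_map] at h6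
  calc ‖ρ h v₁ - v₁‖ ≤ 2 * (δ / c₀) := by linarith
    _ = 2 / c₀ * δ := by ring

/-- consequence of LAZY for a tuple indexed by `A × B` through a colouring of `A` by six colours -/
lemma STEP_six (hL : ST_LAZY) {X : Type} [Fintype X] [DecidableEq X] {A B : Type} [Fintype A]
    [Fintype B] [Nonempty A] (φ : A → Fin 6)
    (hφ : ∀ c, (Fintype.card A : ℝ) / 7 ≤ #(univ.filter fun a => φ a = c))
    (g : Fin 6 → B → Perm X) (hg : ∀ b, g 5 b = 1)
    {E : Type} [NormedAddCommGroup E] [InnerProductSpace ℝ E] (ρ : Perm X →* (E ≃ₗᵢ[ℝ] E)) (v : E)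
    (κ : ℝ) (hκ : 0 ≤ κ)
    (hsum : (1 - κ) * Fintype.card (A × B) * ‖v‖ ≤ ‖∑ z : A × B, ρ (g (φ z.1) z.2) v‖) (c : Fin 6) :
    ∑ b, ‖ρ (g c b) v - v‖ ^ 2 ≤ 224 * κ * Fintype.card B * ‖v‖ ^ 2 := by
  classical
  have hA : (0 : ℝ) < Fintype.card A := by exact_mod_cast Fintype.card_pos
  have h1 := hL E (A × B) (fun z => ρ (g (φ z.1) z.2) v) v (1 / 7) κ
    ((univ.filter fun a => φ a = 5) ×ˢ univ) (by norm_num) hκ
    (fun i => (ρ _).norm_map v)
    (by
      intro z hz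
      simp only [mem_product, mem_filter, mem_univ, true_and, and_true] at hz
      simp only [hz, hg, map_one]
      rfl)
    (by
      rw [Finset.card_product, Finset.card_univ, Fintype.card_prod]
      push_cast
      have := hφ 5
      have hB : (0 : ℝ) ≤ Fintype.card B := Nat.cast_nonneg _
      nlinarith)
    hsum
  rw [Fintype.sum_prod_type] at h1
  have h2 : ∑ a ∈ univ.filter (fun a => φ a = c), ∑ b, ‖ρ (g (φ a) b) v - v‖ ^ 2
      ≤ ∑ a, ∑ b, ‖ρ (g (φ a) b) v - v‖ ^ 2 := by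
    apply Finset.sum_le_sum_of_subset_of_nonneg (Finset.filter_subset _ _)
    intro a _ _
    positivity
  have h3 : ∑ a ∈ univ.filter (fun a => φ a = c), ∑ b, ‖ρ (g (φ a) b) v - v‖ ^ 2
      = #(univ.filter fun a => φ a = c) * ∑ b, ‖ρ (g c b) v - v‖ ^ 2 := by
    rw [Finset.sum_congr rfl (g := fun _ => ∑ b, ‖ρ (g c b) v - v‖ ^ 2), Finset.sum_const,
      nsmul_eq_mul]
    intro a ha
    rw [(Finset.mem_filter.1 ha).2]
  have h4 : (0 : ℝ) ≤ ∑ b, ‖ρ (g c b) v - v‖ ^ 2 := by positivity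
  have h5 : (Fintype.card A : ℝ) / 7 * ∑ b, ‖ρ (g c b) v - v‖ ^ 2 ≤
      4 * κ * (1 + 1 / (1 / 7)) * Fintype.card (A × B) * ‖v‖ ^ 2 := by
    refine le_trans ?_ h1
    refine le_trans ?_ h2
    rw [h3]
    exact mul_le_mul_of_nonneg_right (hφ c) h4
  rw [Fintype.card_prod] at h5
  push_cast at h5
  have h6 : (Fintype.card A : ℝ) * ∑ b, ‖ρ (g c b) v - v‖ ^ 2 ≤
      (Fintype.card A : ℝ) * (224 * κ * Fintype.card B * ‖v‖ ^ 2) := by
    calc _ = 7 * ((Fintype.card A : ℝ) / 7 * ∑ b, ‖ρ (g c b) v - v‖ ^ 2) := by ring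
      _ ≤ 7 * (4 * κ * (1 + 1 / (1 / 7)) * (Fintype.card A * Fintype.card B) * ‖v‖ ^ 2) := by
        linarith
      _ = _ := by ring
  exact le_of_mul_le_mul_left h6 hA

/-- an even number of times each label -/
lemma STEP_lab {Q Λ : Type} [Fintype Q] [DecidableEq Q] [Fintype Λ] [DecidableEq Λ] (M₀ : ℕ)
    (h : Fintype.card Λ * M₀ ≤ Fintype.card Q) :
    ∃ lab : Q → Option Λ, ∀ a, #(univ.filter fun j => lab j = some a) = M₀ := by
  have h1 : Fintype.card (Λ × Fin M₀) ≤ Fintype.card Q := by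
    rw [Fintype.card_prod, Fintype.card_fin]; exact h
  obtain ⟨e⟩ := Function.Embedding.nonempty_of_card_le h1
  refine ⟨Function.extend e (fun z => some z.1) (fun _ => none), fun a => ?_⟩
  have hinj : Function.Injective (fun t : Fin M₀ => e (a, t)) := by
    intro t t' htt
    simpa using e.injective htt
  have h2 : (univ.filter fun j => Function.extend e (fun z : Λ × Fin M₀ => some z.1)
      (fun _ => none) j = some a) = (univ : Finset (Fin M₀)).image (fun t => e (a, t)) := by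
    ext j
    simp only [mem_filter, mem_univ, true_and, Finset.mem_image]
    constructor
    · intro hj
      by_cases hr : ∃ z, e z = j
      · obtain ⟨z, rfl⟩ := hr
        rw [e.injective.extend_apply] at hj
        refine ⟨z.2, ?_⟩
        have : z.1 = a := by simpa using hj
        rw [← this]
      · rw [Function.extend_apply' _ _ _ hr] at hj
        simp at hj
    · rintro ⟨t, rfl⟩
      rw [e.injective.extend_apply]
  rw [h2, Finset.card_image_of_injective _ hinj, Finset.card_univ, Fintype.card_fin]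

lemma STEP_units_even (u : ℤˣ) (n : ℕ) (hn : Even n) : u ^ n = 1 := by
  obtain ⟨k, rfl⟩ := hn
  rw [← two_mul, pow_mul, Int.units_sq, one_pow]

lemma STEP_sign_lab {Q M Λ : Type} [Fintype Q] [DecidableEq Q] [Fintype M] [DecidableEq M]
    [Fintype Λ] [DecidableEq Λ] (M₀ : ℕ) (hM : Even M₀)
    (lab : Q → Option Λ) (hlab : ∀ a, #(univ.filter fun j => lab j = some a) = M₀)
    (x : Λ → Perm M) : sign (row fun j => (lab j).elim 1 x) = 1 := by
  classical
  rw [sign_row]
  rw [Finset.prod_comp (fun o : Option Λ => sign (o.elim 1 x)) lab]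
  apply Finset.prod_eq_one
  intro o _
  cases o with
  | none => simp
  | some a => rw [hlab a]; exact STEP_units_even _ _ hM

lemma STEP_sign_half {Q M : Type} [Fintype Q] [DecidableEq Q] [Fintype M] [DecidableEq M]
    (H : Finset Q) (hH : Even #H) (τ : Perm M) :
    sign (row fun j => if j ∈ H then τ else 1) = 1 := by
  rw [sign_row]
  have : ∀ j, sign (if j ∈ H then τ else 1) = if j ∈ H then sign τ else 1 := by
    intro j; split_ifs <;> simp
  rw [Finset.prod_congr rfl (fun j _ => this j), Finset.prod_ite_mem, Finset.univ_inter,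
    Finset.prod_const]
  exact STEP_units_even _ _ hH

lemma STEP_sign_comm {Q : Type} [Fintype Q] [DecidableEq Q] (r : ℕ)
    (hQ : Fintype.card Q = 8 * r) : sign (Equiv.prodComm Q Q : Perm (Q × Q)) = 1 := by
  classical
  set σ : Perm (Q × Q) := Equiv.prodComm Q Q with hσ
  by_cases h1 : σ = 1
  · rw [h1, map_one]
  have h2 : σ ^ 2 = 1 := by
    ext z <;> simp [hσ, pow_two, Perm.mul_apply]
  have h3 : orderOf σ = 2 := orderOf_eq_prime h2 h1
  have h4 : (orderOf σ).Prime := by rw [h3]; exact Nat.prime_two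
  obtain ⟨n, hn⟩ := Equiv.Perm.cycleType_prime_order h4
  have hsup : #σ.support = Fintype.card Q * Fintype.card Q - Fintype.card Q := by
    have : σ.support = (univ : Finset Q).offDiag := by
      ext z
      simp only [Equiv.Perm.mem_support, mem_offDiag, mem_univ, true_and, hσ,
        Equiv.prodComm_apply]
      constructor
      · intro h h'
        apply h
        exact Prod.ext h'.symm h'
      · intro h h'
        apply h
        exact (Prod.ext_iff.1 h').2
    rw [this, Finset.offDiag_card, Finset.card_univ]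
  have hsum := σ.sum_cycleType
  rw [hn, Multiset.sum_replicate, h3, hsup, hQ, smul_eq_mul] at hsum
  have heven : Even (n + 1) := by
    rcases Nat.eq_zero_or_pos r with hr | hr
    · subst hr; omega
    · obtain ⟨t, rfl⟩ : ∃ t, r = t + 1 := ⟨r - 1, by omega⟩
      have : 8 * (t + 1) * (8 * (t + 1)) - 8 * (t + 1) = 8 * ((t + 1) * (8 * t + 7)) := by
        have : 8 * (t + 1) * (8 * (t + 1)) = 8 * ((t + 1) * (8 * t + 7)) + 8 * (t + 1) := by ring
        omega
      rw [this] at hsum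
      exact ⟨2 * ((t + 1) * (8 * t + 7)), by omega⟩
  rw [Equiv.Perm.sign_of_cycleType, hn, Multiset.sum_replicate, Multiset.card_replicate, h3,
    smul_eq_mul]
  exact STEP_units_even _ _ (by
    have : (n + 1) * 2 + (n + 1) = (n + 1) * 3 := by ring
    rw [this]
    exact heven.mul_right _)

lemma STEP_sign_swp {Q M : Type} [Fintype Q] [DecidableEq Q] [Fintype M] [DecidableEq M] (r : ℕ)
    (hQ : Fintype.card Q = 8 * r) : sign (swp : Perm (Q × (Q × M))) = 1 := by
  let e : M × (Q × Q) ≃ Q × (Q × M) :=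
    { toFun := fun z => (z.2.1, (z.2.2, z.1))
      invFun := fun z => (z.2.2, (z.1, z.2.1))
      left_inv := fun _ => rfl
      right_inv := fun _ => rfl }
  have : (swp : Perm (Q × (Q × M))) = e.permCongr (row (fun _ : M => Equiv.prodComm Q Q)) := by
    ext z <;> rfl
  rw [this, sign_permCongr, sign_row]
  simp [STEP_sign_comm r hQ]

lemma STEP_sign_cm {X : Type} [Fintype X] [DecidableEq X] (g h : Perm X) : sign (cm g h) = 1 := by
  unfold cm
  simp only [map_mul, sign_inv]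
  have h1 := Int.units_mul_self (sign g)
  have h2 := Int.units_mul_self (sign h)
  calc sign g * sign h * sign g * sign h = (sign g * sign g) * (sign h * sign h) := by
        rw [mul_assoc (sign g) (sign h) (sign g), mul_comm (sign h) (sign g)]
        simp only [mul_assoc]
    _ = 1 := by rw [h1, h2, one_mul]

/-- part (A): from `U` to the commutators -/
lemma STEP_A (hL : ST_LAZY) {X : Type} [Fintype X] [DecidableEq X] {ι : Type} [Fintype ι]
    [Nonempty ι] (x y : ι → Fin 3 → Perm X) (U : ι → Perm X)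
    (hU : ∀ i, U i = cm (x i 0) (y i 0) * cm (x i 1) (y i 1) * cm (x i 2) (y i 2))
    (hNb : Nb U (1 / 2)) :
    Nb (fun a : Fin 4 × ι => cm (Fin.cases (motive := fun _ => Perm X) 1 (x a.2) a.1)
      (Fin.cases (motive := fun _ => Perm X) 1 (y a.2) a.1)) (1 - 1 / 1000) := by
  refine ⟨fun a => STEP_sign_cm _ _, fun E _ _ ρ v hv => ?_⟩
  by_contra hcon
  push Not at hcon
  set w : Fin 4 × ι → Perm X := fun a => cm (Fin.cases (motive := fun _ => Perm X) 1 (x a.2) a.1)
      (Fin.cases (motive := fun _ => Perm X) 1 (y a.2) a.1) with hw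
  have hw0 : ∀ i, w (0, i) = 1 := by
    intro i
    simp [hw, cm]
  have hw1 : ∀ i, ∀ k : Fin 3, w (k.succ, i) = cm (x i k) (y i k) := by
    intro i k
    simp [hw]
  have hP : (0 : ℝ) < Fintype.card ι := by exact_mod_cast Fintype.card_pos
  set P : ℝ := (Fintype.card ι : ℝ) with hPdef
  have hv0 : 0 < ‖v‖ := by
    rcases (norm_nonneg v).lt_or_eq with h | h
    · exact h
    · exfalso
      have hv' : v = 0 := norm_eq_zero.1 h.symm
      rw [hv'] at hcon
      simp at hcon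
  have h1 := hL E (Fin 4 × ι) (fun a => ρ (w a) v) v (1 / 4) (1 / 1000)
    (({0} : Finset (Fin 4)) ×ˢ univ) (by norm_num) (by norm_num)
    (fun i => (ρ _).norm_map v)
    (by
      rintro ⟨k, i⟩ hz
      simp only [mem_product, mem_singleton, mem_univ, and_true] at hz
      subst hz
      simp only [hw0, map_one]
      rfl)
    (by
      rw [Finset.card_product, Finset.card_univ, Fintype.card_prod, Finset.card_singleton,
        Fintype.card_fin]
      push_cast
      linarith)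
    hcon.le
  rw [Fintype.sum_prod_type, Fin.sum_univ_succ, Fintype.card_prod, Fintype.card_fin] at h1
  push_cast at h1
  rw [← hPdef] at h1
  have h2 : ∑ a : Fin 3 × ι, ‖ρ (w (a.1.succ, a.2)) v - v‖ ^ 2 ≤ 80 / 1000 * P * ‖v‖ ^ 2 := by
    rw [Fintype.sum_prod_type]
    have h3 : (0 : ℝ) ≤ ∑ i, ‖ρ (w (0, i)) v - v‖ ^ 2 := by positivity
    simp only at h1 ⊢
    nlinarith
  have h3 := sq_sum_le_card_mul_sum_sq (s := (univ : Finset (Fin 3 × ι)))
    (f := fun a => ‖ρ (w (a.1.succ, a.2)) v - v‖)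
  rw [Finset.card_univ, Fintype.card_prod, Fintype.card_fin] at h3
  push_cast at h3
  rw [← hPdef] at h3
  set S : ℝ := ∑ a : Fin 3 × ι, ‖ρ (w (a.1.succ, a.2)) v - v‖ with hS
  have h4 : S ^ 2 ≤ 3 * P * (80 / 1000 * P * ‖v‖ ^ 2) := by
    refine h3.trans ?_
    exact mul_le_mul_of_nonneg_left h2 (by positivity)
  have h5 : ∑ i, ‖ρ (U i) v - v‖ ≤ S := by
    rw [hS, Fintype.sum_prod_type, Finset.sum_comm]
    apply Finset.sum_le_sum
    intro i _
    rw [Fin.sum_univ_three, hU i]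
    have e1 := disp_mul ρ v (cm (x i 0) (y i 0) * cm (x i 1) (y i 1)) (cm (x i 2) (y i 2))
    have e2 := disp_mul ρ v (cm (x i 0) (y i 0)) (cm (x i 1) (y i 1))
    simp only [hw1]
    linarith
  have h6 := hNb.2 E ρ v hv
  rw [← hPdef] at h6
  have h7 : ∑ i, ρ (U i) v - P • v = ∑ i, (ρ (U i) v - v) := by
    rw [Finset.sum_sub_distrib, Finset.sum_const, Finset.card_univ, ← Nat.cast_smul_eq_nsmul ℝ]
  have h8 : ‖P • v‖ ≤ ‖∑ i, ρ (U i) v‖ + ‖∑ i, (ρ (U i) v - v)‖ := by
    rw [← h7]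
    have := norm_sub_le (∑ i, ρ (U i) v) (∑ i, ρ (U i) v - P • v)
    simpa using this
  rw [norm_smul, Real.norm_of_nonneg hP.le] at h8
  have h9 : P * ‖v‖ / 2 ≤ S := by
    have := (norm_sum_le univ (fun i => ρ (U i) v - v)).trans h5
    linarith
  have h10 : 0 < P * ‖v‖ := mul_pos hP hv0
  have h11 : (P * ‖v‖ / 2) ^ 2 ≤ S ^ 2 := by
    apply pow_le_pow_left₀ (by positivity) h9
  nlinarith

theorem STEP (hL : ST_LAZY) (hC : ST_COMM) (hW : ST_WR) (hF : ST_FULL) : ST_STEP := by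
  classical
  intro c₀ hc0 hc1
  refine ⟨c₀ ^ 2 * (1 / 10 ^ 18), by positivity, ?_, ?_⟩
  · nlinarith
  intro p _ hp s s' Q M _ _ _ _ hQ hM T U hT hU
  have hp0 : 0 < p := by omega
  have : NeZero p := ⟨by omega⟩
  -- commutators
  choose x y hxy hUeq using fun i => hC (Q × M) (U i) (hU.1 i)
  have hA := STEP_A hL x y U hUeq hU
  set X : Fin 4 × Ix p s' → Perm (Q × M) :=
    fun a => Fin.cases (motive := fun _ => Perm (Q × M)) 1 (x a.2) a.1 with hX
  set Y : Fin 4 × Ix p s' → Perm (Q × M) :=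
    fun a => Fin.cases (motive := fun _ => Perm (Q × M)) 1 (y a.2) a.1 with hY
  -- numbers
  obtain ⟨P, hPdef⟩ : ∃ P, P = p ^ s' := ⟨_, rfl⟩
  have hPpos : 0 < P := by rw [hPdef]; positivity
  obtain ⟨r, hr⟩ : ∃ r, r = 64000 * P ^ 2 := ⟨_, rfl⟩
  have hrpos : 0 < r := by rw [hr]; positivity
  have hQ8 : Fintype.card Q = 8 * r := by
    rw [hQ, hr, hPdef]; ring
  have hΛ : Fintype.card (Fin 4 × Ix p s') = 4 * P := by
    simp [hPdef, ZMod.card]
  have hΛM : Fintype.card (Fin 4 × Ix p s') * (32000 * P) = 2 * r := by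
    rw [hΛ, hr]; ring
  obtain ⟨lab, hlab⟩ := STEP_lab (Q := Q) (Λ := Fin 4 × Ix p s') (32000 * P) (by
    rw [hΛM, hQ8]; omega)
  obtain ⟨H, -, hH⟩ := Finset.exists_subset_card_eq (s := (univ : Finset Q)) (n := 4 * r) (by
    rw [Finset.card_univ, hQ8]; omega)
  obtain ⟨τ, hτ⟩ : ∃ τ : Perm (Q × M), sign τ = -1 := by
    have h1 : Nonempty Q := Fintype.card_pos_iff.1 (by rw [hQ8]; omega)
    have h2 : Nontrivial M := Fintype.one_lt_card_iff_nontrivial.1 (by omega)
    obtain ⟨q⟩ := h1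
    obtain ⟨m, m', hm⟩ := h2
    exact ⟨Equiv.swap (q, m) (q, m'), Equiv.Perm.sign_swap (fun h => hm (Prod.ext_iff.1 h).2)⟩
  obtain ⟨φ, hφ⟩ := STEP_phi p hp
  -- the generators
  set A₁ : Perm (Q × (Q × M)) := row fun j => (lab j).elim 1 X with hA1
  set A₂ : Perm (Q × (Q × M)) := row fun j => (lab j).elim 1 Y with hA2
  set A₃ : Perm (Q × (Q × M)) := row fun j => if j ∈ H then τ else 1 with hA3
  set g : Fin 6 → Ix p s → Perm (Q × (Q × M)) :=
    fun c b => ![blk (T b), A₁, A₂, A₃, swp, 1] c with hg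
  have hM0 : Even (32000 * P) := ⟨16000 * P, by ring⟩
  have hsg : ∀ c b, sign (g c b) = 1 := by
    intro c b
    fin_cases c
    · change sign (blk (T b) : Perm (Q × (Q × M))) = 1
      rw [sign_blk, hT.1 b, one_pow]
    · exact STEP_sign_lab (32000 * P) hM0 lab hlab X
    · exact STEP_sign_lab (32000 * P) hM0 lab hlab Y
    · exact STEP_sign_half H (by rw [hH]; exact ⟨2 * r, by ring⟩) τ
    · exact STEP_sign_swp r hQ8
    · exact map_one _
  let e : Ix p (s + 1) ≃ ZMod p × Ix p s := (Fin.consEquiv (fun _ : Fin (s + 1) => ZMod p)).symm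
  refine ⟨fun z => g (φ (e z).1) (e z).2, Nb_equiv e (fun z => g (φ z.1) z.2) _ ?_⟩
  refine ⟨fun z => hsg _ _, fun E _ _ ρ v hv => ?_⟩
  by_contra hcon
  push Not at hcon
  have hv0 : 0 < ‖v‖ := by
    rcases (norm_nonneg v).lt_or_eq with h | h
    · exact h
    · exfalso
      have hv' : v = 0 := norm_eq_zero.1 h.symm
      rw [hv'] at hcon
      simp at hcon
  have hφ' : ∀ c, (Fintype.card (ZMod p) : ℝ) / 7 ≤ #(univ.filter fun a => φ a = c) := by
    intro c
    rw [ZMod.card]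
    exact hφ c
  have six := STEP_six hL φ hφ' g (fun b => rfl) ρ v (c₀ ^ 2 * (1 / 10 ^ 18)) (by positivity)
    hcon.le
  have hB : (0 : ℝ) < Fintype.card (Ix p s) := by exact_mod_cast Fintype.card_pos
  -- displacement of the four special elements
  have hδ : ∀ k : Perm (Q × (Q × M)), (∃ c, ∀ b, g c b = k) →
      ‖ρ k v - v‖ ≤ 15 / 10 ^ 9 * c₀ * ‖v‖ := by
    rintro k ⟨c, hc⟩
    have h1 := six c
    rw [Finset.sum_congr rfl (fun b _ => by rw [hc b]), Finset.sum_const, Finset.card_univ,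
      nsmul_eq_mul] at h1
    have h2 : ‖ρ k v - v‖ ^ 2 ≤ 224 * (c₀ ^ 2 * (1 / 10 ^ 18)) * ‖v‖ ^ 2 := by
      refine le_of_mul_le_mul_left ?_ hB
      calc _ ≤ _ := h1
        _ = _ := by ring
    have h3 : ‖ρ k v - v‖ ^ 2 ≤ (15 / 10 ^ 9 * c₀ * ‖v‖) ^ 2 := by
      have : 0 ≤ c₀ ^ 2 * ‖v‖ ^ 2 := by positivity
      nlinarith
    exact le_of_sq_le_sq h3 (by positivity)
  have hδT : ∑ b, ‖ρ (blk (T b)) v - v‖ ≤
      Fintype.card (Ix p s) * (15 / 10 ^ 9 * c₀ * ‖v‖) := by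
    have h1 := six 0
    have h2 := sq_sum_le_card_mul_sum_sq (s := (univ : Finset (Ix p s)))
      (f := fun b => ‖ρ (blk (T b)) v - v‖)
    rw [Finset.card_univ] at h2
    have h3 : (∑ b, ‖ρ (blk (T b)) v - v‖) ^ 2 ≤
        (Fintype.card (Ix p s) * (15 / 10 ^ 9 * c₀ * ‖v‖)) ^ 2 := by
      refine h2.trans ?_
      refine (mul_le_mul_of_nonneg_left h1 hB.le).trans ?_
      have : 0 ≤ (Fintype.card (Ix p s) : ℝ) ^ 2 * (c₀ ^ 2 * ‖v‖ ^ 2) := by positivity
      nlinarith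
    exact le_of_sq_le_sq h3 (by positivity)
  have hblk : ∀ h : Perm Q, sign h = 1 → ‖ρ (blk h) v - v‖ ≤ 3 / 10 ^ 8 * ‖v‖ := by
    intro h hh
    have := STEP_kaz T c₀ hc0 hT (ρ.comp blkHom) v (15 / 10 ^ 9 * c₀ * ‖v‖) hδT h hh
    refine this.trans (le_of_eq ?_)
    field_simp
    norm_num
  have hsp : ∀ k : Perm (Q × (Q × M)), (∃ c, ∀ b, g c b = k) →
      ‖ρ k v - v‖ ≤ 3 / 10 ^ 8 * ‖v‖ := by
    intro k hk
    refine (hδ k hk).trans ?_
    nlinarith
  have h1 := hsp A₁ ⟨1, fun b => rfl⟩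
  have h2 := hsp A₂ ⟨2, fun b => rfl⟩
  have h3 := hsp A₃ ⟨3, fun b => rfl⟩
  have h4 := hsp swp ⟨4, fun b => rfl⟩
  -- the wreath step
  have hrow : ∀ u : Q → Perm (Q × M), (∀ j, sign (u j) = 1) →
      ‖ρ (row u) v - v‖ ≤ 384000 * (3 / 10 ^ 8 * ‖v‖) := by
    intro u hu
    have := hW Q (Q × M) (Fin 4 × Ix p s') X Y (1 - 1 / 1000) (1 / 4000) (32000 * P) r lab
      (by norm_num) (by norm_num) (by norm_num) hA hΛM hrpos
      (by
        rw [hΛ, hr]
        push_cast
        apply le_of_eq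
        ring) hQ8 hlab E ρ v (3 / 10 ^ 8 * ‖v‖) hblk h1 h2 u hu
    refine this.trans (le_of_eq ?_)
    ring
  have hbig : 3 / 10 ^ 8 * ‖v‖ ≤ 384000 * (3 / 10 ^ 8 * ‖v‖) := by
    have : 0 ≤ 3 / 10 ^ 8 * ‖v‖ := by positivity
    linarith
  have hfull := hF Q M r hQ8 hM τ hτ H hH E ρ v (384000 * (3 / 10 ^ 8 * ‖v‖))
    (fun h hh => (hblk h hh).trans hbig) hrow (h3.trans hbig) (h4.trans hbig)
  have hfin := STEP_avg ρ v _ hv hfull
  linarith

end KP23
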