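import Pool.Agent.N23.KP.Stm

/-!
Project KP: `ST_TENS` from `ST_CONTR`.
-/

namespace KP23
open Finset Equiv Equiv.Perm

namespace TENSaux

variable {E : Type} [NormedAddCommGroup E] [InnerProductSpace ℝ E]

/-- an isometry as a linear map -/
noncomputable def lin : (E ≃ₗᵢ[ℝ] E) →* Module.End ℝ E where
  toFun g := g.toLinearEquiv.toLinearMap
  map_one' := rfl
  map_mul' _ _ := rfl

lemma lin_apply (g : E ≃ₗᵢ[ℝ] E) (v : E) : lin g v = g v := rfl

lemma fix_prod (l : List (Module.End ℝ E)) (x : E) (h : ∀ t ∈ l, t x = x) : l.prod x = x := by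
  induction l with
  | nil => rfl
  | cons a l ih =>
    rw [List.prod_cons, Module.End.mul_apply, ih (fun t ht => h t (List.mem_cons_of_mem _ ht)),
      h a List.mem_cons_self]

/-- the average over a finite group -/
noncomputable def avg {H : Type} [Group H] [Fintype H] (σ : H →* (E ≃ₗᵢ[ℝ] E)) :
    Module.End ℝ E := (Fintype.card H : ℝ)⁻¹ • ∑ h : H, lin (σ h)

/-- the mean of a family -/
noncomputable def mean {Λ : Type} [Fintype Λ] (τ : Λ → (E ≃ₗᵢ[ℝ] E)) :
    Module.End ℝ E := (Fintype.card Λ : ℝ)⁻¹ • ∑ a, lin (τ a)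

section avg

variable {H : Type} [Group H] [Fintype H] (σ : H →* (E ≃ₗᵢ[ℝ] E))

lemma mul_avg (g : H) : lin (σ g) * avg σ = avg σ := by
  unfold avg
  rw [mul_smul_comm, Finset.mul_sum]
  congr 1
  refine Fintype.sum_equiv (Equiv.mulLeft g) _ _ (fun h => ?_)
  rw [Equiv.coe_mulLeft, map_mul, map_mul]

lemma avg_mul (g : H) : avg σ * lin (σ g) = avg σ := by
  unfold avg
  rw [smul_mul_assoc, Finset.sum_mul]
  congr 1
  refine Fintype.sum_equiv (Equiv.mulRight g) _ _ (fun h => ?_)
  rw [Equiv.coe_mulRight, map_mul, map_mul]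

lemma avg_avg : avg σ * avg σ = avg σ := by
  have h1 : avg σ * avg σ = (Fintype.card H : ℝ)⁻¹ • ∑ h : H, lin (σ h) * avg σ := by
    conv_lhs =>
      lhs
      unfold avg
    rw [smul_mul_assoc, Finset.sum_mul]
  rw [h1]
  simp only [mul_avg]
  rw [sum_const, card_univ, ← Nat.cast_smul_eq_nsmul ℝ, smul_smul, inv_mul_cancel₀, one_smul]
  exact_mod_cast Fintype.card_ne_zero

lemma avg_inner (v w : E) : inner ℝ (avg σ v) w = inner ℝ v (avg σ w) := by
  unfold avg
  simp only [LinearMap.smul_apply, LinearMap.sum_apply, real_inner_smul_left,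
    real_inner_smul_right, sum_inner, inner_sum, lin_apply]
  congr 1
  refine Fintype.sum_equiv (Equiv.inv H) _ _ (fun h => ?_)
  rw [Equiv.inv_apply, ← (σ h).inner_map_map v]
  congr 1
  change w = (σ h * σ h⁻¹) w
  rw [← map_mul, mul_inv_cancel, map_one]
  rfl

end avg

section mean

variable {Λ : Type} [Fintype Λ] [Nonempty Λ] (τ : Λ → (E ≃ₗᵢ[ℝ] E))

lemma mean_norm (v : E) : ‖mean τ v‖ ≤ ‖v‖ := by
  unfold mean
  simp only [LinearMap.smul_apply, LinearMap.sum_apply, lin_apply]
  rw [norm_smul, norm_inv, Real.norm_natCast]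
  have h1 : ‖∑ a, τ a v‖ ≤ Fintype.card Λ * ‖v‖ := by
    refine (norm_sum_le _ _).trans ?_
    simp only [LinearIsometryEquiv.norm_map]
    rw [sum_const, card_univ, nsmul_eq_mul]
  have h2 : (0 : ℝ) < Fintype.card Λ := by exact_mod_cast Fintype.card_pos
  rw [inv_mul_le_iff₀ h2]
  exact h1

lemma mean_mul_fix (P : Module.End ℝ E) (h : ∀ a, lin (τ a) * P = P) : mean τ * P = P := by
  unfold mean
  rw [smul_mul_assoc, Finset.sum_mul]
  simp only [h]
  rw [sum_const, card_univ, ← Nat.cast_smul_eq_nsmul ℝ, smul_smul, inv_mul_cancel₀, one_smul]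
  exact_mod_cast Fintype.card_ne_zero

lemma fix_mul_mean (P : Module.End ℝ E) (h : ∀ a, P * lin (τ a) = P) : P * mean τ = P := by
  unfold mean
  rw [mul_smul_comm, Finset.mul_sum]
  simp only [h]
  rw [sum_const, card_univ, ← Nat.cast_smul_eq_nsmul ℝ, smul_smul, inv_mul_cancel₀, one_smul]
  exact_mod_cast Fintype.card_ne_zero

end mean

lemma comm_avg {H H' : Type} [Group H] [Fintype H] [Group H'] [Fintype H']
    (σ : H →* (E ≃ₗᵢ[ℝ] E)) (σ' : H' →* (E ≃ₗᵢ[ℝ] E)) (h : ∀ g g', Commute (σ g) (σ' g')) :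
    Commute (avg σ) (avg σ') := by
  unfold avg
  refine Commute.smul_left (Commute.smul_right ?_ _) _
  refine Commute.sum_left _ _ _ fun g _ => Commute.sum_right _ _ _ fun g' _ => ?_
  exact (h g g').map lin

lemma comm_mean {H Λ : Type} [Group H] [Fintype H] [Fintype Λ]
    (σ : H →* (E ≃ₗᵢ[ℝ] E)) (τ : Λ → (E ≃ₗᵢ[ℝ] E)) (h : ∀ g a, Commute (σ g) (τ a)) :
    Commute (avg σ) (mean τ) := by
  unfold avg mean
  refine Commute.smul_left (Commute.smul_right ?_ _) _
  refine Commute.sum_left _ _ _ fun g _ => Commute.sum_right _ _ _ fun g' _ => ?_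
  exact (h g g').map lin

lemma extend_eq {Q X : Type} [DecidableEq Q] [Group X] : ∀ (r : ℕ) (J : Fin r ↪ Q) (f : Fin r → X),
    Function.extend J f 1 = (List.ofFn fun i => (Pi.mulSingle (J i) (f i) : Q → X)).prod := by
  intro r
  induction r with
  | zero =>
    intro J f
    rw [List.ofFn_zero, List.prod_nil]
    funext q
    rw [Function.extend_apply' _ _ _ (by rintro ⟨i, _⟩; exact i.elim0)]
  | succ r ih =>
    intro J f
    rw [List.ofFn_succ, List.prod_cons]
    have h1 := ih ((Fin.succEmb r).trans J) (fun i => f i.succ)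
    have h2 : (List.ofFn fun i : Fin r => (Pi.mulSingle (J i.succ) (f i.succ) : Q → X)).prod =
        Function.extend ((Fin.succEmb r).trans J) (fun i => f i.succ) 1 := h1.symm
    rw [h2]
    funext q
    rw [Pi.mul_apply]
    by_cases hq : q = J 0
    · subst hq
      rw [J.injective.extend_apply, Pi.mulSingle_eq_same, Function.extend_apply', Pi.one_apply,
        mul_one]
      rintro ⟨i, hi⟩
      exact (Fin.succ_ne_zero i) (J.injective hi)
    · rw [Pi.mulSingle_eq_of_ne hq, one_mul]
      by_cases hq2 : ∃ i : Fin r, J i.succ = q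
      · obtain ⟨i, rfl⟩ := hq2
        rw [J.injective.extend_apply]
        exact (((Fin.succEmb r).trans J).injective.extend_apply (fun i => f i.succ) 1 i).symm
      · rw [Function.extend_apply', Function.extend_apply']
        · rintro ⟨i, hi⟩
          exact hq2 ⟨i, hi⟩
        · rintro ⟨i, hi⟩
          refine Fin.cases (fun h0 => hq h0.symm) (fun i' hi' => hq2 ⟨i', hi'⟩) i hi

lemma row_extend {Q M : Type} [DecidableEq Q] (r : ℕ) (J : Fin r ↪ Q) (f : Fin r → Perm M) :
    row (Function.extend J f 1) = (List.ofFn fun i => rowAt (J i) (f i)).prod := by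
  rw [extend_eq]
  change rowHom (List.ofFn fun i => (Pi.mulSingle (J i) (f i) : Q → Perm M)).prod = _
  rw [map_list_prod, List.map_ofFn]
  rfl

lemma comm_rowAt {Q M : Type} [DecidableEq Q] {j j' : Q} (h : j ≠ j') (u u' : Perm M) :
    Commute (rowAt j u) (rowAt j' u') := by
  have h1 : Commute (Pi.mulSingle j u : Q → Perm M) (Pi.mulSingle j' u') :=
    Pi.mulSingle_commute (f := fun _ : Q => Perm M) h u u'
  exact h1.map rowHom

lemma prod_mean {Λ : Type} [Fintype Λ] (r : ℕ) (τ : Fin r → Λ → (E ≃ₗᵢ[ℝ] E)) :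
    (List.ofFn fun i => mean (τ i)).prod =
      ((Fintype.card Λ : ℝ) ^ r)⁻¹ • ∑ l : Fin r → Λ, lin (List.ofFn fun i => τ i (l i)).prod := by
  classical
  have h1 : (List.ofFn fun i => mean (τ i)).prod =
      MultilinearMap.mkPiAlgebraFin ℝ r (Module.End ℝ E) (fun i => mean (τ i)) := by
    rw [MultilinearMap.mkPiAlgebraFin_apply]
  rw [h1]
  unfold mean
  rw [MultilinearMap.map_smul_univ, MultilinearMap.map_sum]
  simp only [MultilinearMap.mkPiAlgebraFin_apply, prod_const, card_univ, Fintype.card_fin, inv_pow]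
  congr 1
  refine sum_congr rfl fun l _ => ?_
  rw [map_list_prod, List.map_ofFn]
  rfl

end TENSaux

open TENSaux

theorem TENS (hC : ST_CONTR) : ST_TENS := by
  intro Q M Λ _ _ _ _ _ _ w lam θ η hlam hθ hpos hNb r J Bad hBad E _ _ ρ v hl u hu hu1
  classical
  set L : ℝ := (Fintype.card Λ : ℝ) with hL
  have hL0 : 0 < L := by rw [hL]; exact_mod_cast Fintype.card_pos
  have hLr : 0 < L ^ r := pow_pos hL0 r
  let σ : Fin r → alternatingGroup M →* (E ≃ₗᵢ[ℝ] E) := fun i =>
    (ρ.comp (rowAt (J i))).comp (alternatingGroup M).subtype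
  let τ : Fin r → Λ → (E ≃ₗᵢ[ℝ] E) := fun i a => ρ (rowAt (J i) (w a))
  let P : Fin r → Module.End ℝ E := fun i => avg (σ i)
  let T : Fin r → Module.End ℝ E := fun i => mean (τ i)
  have hτσ : ∀ i a, τ i a = σ i ⟨w a, mem_alternatingGroup.2 (hNb.1 a)⟩ := fun i a => rfl
  have hcomm : ∀ i j, i ≠ j → ∀ g g', Commute (σ i g) (σ j g') := by
    intro i j hij g g'
    exact (comm_rowAt (fun h => hij (J.injective h)) _ _).map ρ
  have hcommP : ∀ i j, Commute (P i) (P j) := by
    intro i j
    by_cases hij : i = j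
    · subst hij
      exact Commute.refl _
    · exact comm_avg _ _ (hcomm i j hij)
  have hfixP : ∀ (i : Fin r) (g : Perm M), sign g = 1 → ∀ x, ρ (rowAt (J i) g) (P i x) = P i x := by
    intro i g hg x
    have h1 := mul_avg (σ i) ⟨g, mem_alternatingGroup.2 hg⟩
    exact LinearMap.congr_fun h1 x
  have hPP : ∀ i x, P i (P i x) = P i x := fun i x => LinearMap.congr_fun (avg_avg (σ i)) x
  have key := hC E lam hlam r T P (fun i v => mean_norm (τ i) v) hPP
    (fun i v w => avg_inner (σ i) v w)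
    (fun i v => LinearMap.congr_fun (mean_mul_fix (τ i) (P i) (fun a => by
      rw [hτσ]; exact mul_avg (σ i) _)) v)
    (fun i v => LinearMap.congr_fun (fix_mul_mean (τ i) (P i) (fun a => by
      rw [hτσ]; exact avg_mul (σ i) _)) v)
    (fun i j v hij => LinearMap.congr_fun (comm_mean (σ i) (τ j) (fun g a => by
      rw [hτσ]; exact hcomm i j hij _ _)).eq v)
    (fun i j v => LinearMap.congr_fun (hcommP i j).eq v)
    (fun i v hv => by
      have h1 : ∑ h : alternatingGroup M, (ρ.comp (rowAt (J i))) (h : Perm M) v = 0 := by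
        have h2 : (Fintype.card (alternatingGroup M) : ℝ)⁻¹ •
            ∑ h : alternatingGroup M, (ρ.comp (rowAt (J i))) (h : Perm M) v = 0 := by
          rw [← hv]
          change _ = avg (σ i) v
          unfold avg
          rw [LinearMap.smul_apply, LinearMap.sum_apply]
          rfl
        rcases smul_eq_zero.1 h2 with h3 | h3
        · exfalso
          rw [inv_eq_zero] at h3
          exact (Nat.cast_ne_zero.2 Fintype.card_ne_zero) h3
        · exact h3
      have h2 := hNb.2 E (ρ.comp (rowAt (J i))) v h1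
      change ‖mean (τ i) v‖ ≤ _
      unfold mean
      rw [LinearMap.smul_apply, LinearMap.sum_apply, norm_smul, norm_inv, Real.norm_natCast,
        inv_mul_le_iff₀ hL0]
      refine le_trans (le_of_eq ?_) (h2.trans (le_of_eq (by ring)))
      rfl)
  set PP : Module.End ℝ E := (List.ofFn P).prod with hPPd
  set TT : Module.End ℝ E := (List.ofFn T).prod with hTTd
  -- the projection
  have hPi : ∀ i x, P i (PP x) = PP x := by
    intro i x
    have h1 : ∀ l : List (Module.End ℝ E), (∀ t ∈ l, Commute (P i) t) → P i ∈ l →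
        P i * l.prod = l.prod := by
      intro l
      induction l with
      | nil => intro _ h; exact absurd h List.not_mem_nil
      | cons a l ih =>
        intro hc hm
        rw [List.prod_cons]
        rcases List.mem_cons.1 hm with rfl | hm'
        · rw [← mul_assoc]
          congr 1
          exact avg_avg (σ i)
        · rw [← mul_assoc, (hc a List.mem_cons_self).eq, mul_assoc,
            ih (fun t ht => hc t (List.mem_cons_of_mem _ ht)) hm']
    have h2 := h1 (List.ofFn P) (by
      intro t ht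
      obtain ⟨j, rfl⟩ := (List.mem_ofFn).1 ht
      exact hcommP i j) ((List.mem_ofFn).2 ⟨i, rfl⟩)
    exact LinearMap.congr_fun h2 x
  have hfix : ∀ (f : Fin r → Perm M), (∀ i, sign (f i) = 1) → ∀ x,
      ρ (row (Function.extend J f 1)) (PP x) = PP x := by
    intro f hf x
    rw [row_extend, map_list_prod, List.map_ofFn]
    change lin (List.ofFn (ρ ∘ fun i => rowAt (J i) (f i))).prod (PP x) = PP x
    rw [map_list_prod, List.map_ofFn]
    apply fix_prod
    intro t ht
    obtain ⟨i, rfl⟩ := (List.mem_ofFn).1 ht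
    change ρ (rowAt (J i) (f i)) (PP x) = PP x
    rw [← hPi i x]
    exact hfixP i (f i) (hf i) _
  have hPPPP : ∀ x, PP (PP x) = PP x := by
    intro x
    apply fix_prod
    intro t ht
    obtain ⟨i, rfl⟩ := (List.mem_ofFn).1 ht
    exact hPi i x
  set v1 : E := v - PP v with hv1
  have hv1P : PP v1 = 0 := by rw [hv1, map_sub, hPPPP, sub_self]
  have hTv1 := key v1 hv1P
  have hdiff : ∀ (f : Fin r → Perm M), (∀ i, sign (f i) = 1) →
      ρ (row (Function.extend J f 1)) v1 - v1 = ρ (row (Function.extend J f 1)) v - v := by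
    intro f hf
    rw [hv1, map_sub, hfix f hf]
    abel
  -- the average
  have hTT : TT v1 = (L ^ r)⁻¹ • ∑ l : Fin r → Λ,
      ρ (row (Function.extend J (fun i => w (l i)) 1)) v1 := by
    have h1 := prod_mean r τ
    have h2 : TT = _ := h1
    rw [h2, LinearMap.smul_apply, LinearMap.sum_apply]
    congr 1
    refine sum_congr rfl fun l _ => ?_
    rw [lin_apply, row_extend, map_list_prod, List.map_ofFn]
    rfl
  have hcard : (Fintype.card (Fin r → Λ) : ℝ) = L ^ r := by
    rw [Fintype.card_fun, Fintype.card_fin, hL]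
    push_cast
    rfl
  have hTT1 : TT v1 - v1 = (L ^ r)⁻¹ • ∑ l : Fin r → Λ,
      (ρ (row (Function.extend J (fun i => w (l i)) 1)) v1 - v1) := by
    rw [sum_sub_distrib, smul_sub, ← hTT, sum_const, card_univ, ← Nat.cast_smul_eq_nsmul ℝ,
      smul_smul, hcard, inv_mul_cancel₀ hLr.ne', one_smul]
  have hθ1 : θ < 1 := by linarith
  have hη : 0 ≤ η := by
    have h1 : ∃ l : Fin r → Λ, l ∉ Bad := by
      by_contra hcon
      push Not at hcon
      have h2 : Bad = univ := Finset.eq_univ_iff_forall.2 hcon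
      rw [h2, card_univ, hcard] at hBad
      nlinarith
    obtain ⟨l, hl1⟩ := h1
    exact (norm_nonneg _).trans (hl l hl1)
  have hterm : ∀ l : Fin r → Λ,
      ‖ρ (row (Function.extend J (fun i => w (l i)) 1)) v1 - v1‖ ≤
        η + if l ∈ Bad then 2 * ‖v1‖ else 0 := by
    intro l
    by_cases hlB : l ∈ Bad
    · rw [if_pos hlB]
      have h1 := norm_sub_le (ρ (row (Function.extend J (fun i => w (l i)) 1)) v1) v1
      rw [LinearIsometryEquiv.norm_map] at h1
      linarith
    · rw [if_neg hlB, add_zero, hdiff _ (fun i => hNb.1 _)]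
      exact hl l hlB
  have hnorm : ‖TT v1 - v1‖ ≤ η + 2 * θ * ‖v1‖ := by
    rw [hTT1, norm_smul, norm_inv, Real.norm_of_nonneg hLr.le, inv_mul_le_iff₀ hLr]
    refine (norm_sum_le _ _).trans ((sum_le_sum fun l _ => hterm l).trans ?_)
    rw [sum_add_distrib, sum_const, card_univ, nsmul_eq_mul, hcard, ← sum_filter, sum_const,
      nsmul_eq_mul]
    have h1 : (univ.filter fun l => l ∈ Bad) = Bad := by
      ext l
      simp
    rw [h1]
    have h2 := norm_nonneg v1
    nlinarith
  have hv1n : ‖v1‖ ≤ η / (1 - lam - 2 * θ) := by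
    rw [le_div_iff₀ hpos]
    have h1 : ‖v1‖ - ‖TT v1‖ ≤ ‖TT v1 - v1‖ := by
      have h2 := norm_sub_norm_le v1 (TT v1)
      rw [norm_sub_rev v1 (TT v1)] at h2
      exact h2
    nlinarith
  -- conclusion
  have hue : Function.extend J (fun i => u (J i)) 1 = u := by
    funext q
    by_cases hq : ∃ i, J i = q
    · obtain ⟨i, rfl⟩ := hq
      rw [J.injective.extend_apply]
    · rw [Function.extend_apply' _ _ _ hq, Pi.one_apply]
      exact (hu1 q (fun ⟨i, hi⟩ => hq ⟨i, hi⟩)).symm
  have h1 := hdiff (fun i => u (J i)) (fun i => hu _)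
  rw [hue] at h1
  rw [← h1]
  have h2 := norm_sub_le (ρ (row u) v1) v1
  rw [LinearIsometryEquiv.norm_map] at h2
  calc ‖ρ (row u) v1 - v1‖ ≤ ‖v1‖ + ‖v1‖ := h2
    _ ≤ η / (1 - lam - 2 * θ) + η / (1 - lam - 2 * θ) := add_le_add hv1n hv1n
    _ = 2 * η / (1 - lam - 2 * θ) := by ring

end KP23
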