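import Pool.Agent.N23.KP.Stm

/-!
Project KP (helper23), MP_75608d_al: the wreath step (helper414).
-/

namespace KP23
open Finset Equiv Equiv.Perm

/-- the commutator of two rows -/
theorem WR_cm_row {Q M : Type} (a b : Q → Perm M) :
    cm (row a) (row b) = row fun j => cm (a j) (b j) := by
  unfold cm
  rw [← row_inv, ← row_inv, ← row_mul, ← row_mul, ← row_mul]
  rfl

theorem WR_cm_one {G : Type} [Group G] (g : G) : cm g 1 = 1 := by
  unfold cm
  simp

theorem WR_one_cm {G : Type} [Group G] (g : G) : cm 1 g = 1 := by
  unfold cm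
  simp

theorem WR (hT : ST_TENS) (hC : ST_CHEB) (hA : ST_ARR) : ST_WR := by
  intro Q M Λ _ _ _ _ _ _ _ x y lam θ M₀ r lab hlam hθ hpos hNb hcard hr hsq hQ hlab
    E _ _ ρ v η hblk hx hy
  -- one embedding
  have key : ∀ J : Fin r ↪ Q, ∀ u : Q → Perm M, (∀ j, sign (u j) = 1) →
      (∀ j, j ∉ Set.range J → u j = 1) →
      ‖ρ (row u) v - v‖ ≤ 24 * η / (1 - lam - 2 * θ) := by
    intro J
    have hBad := hC Λ r M₀ θ hθ hr hcard hsq
    have h1 := hT Q M Λ (fun a => cm (x a) (y a)) lam θ (12 * η) hlam hθ.le hpos hNb r J
      (univ.filter fun l : Fin r → Λ => ∃ a, M₀ < #(univ.filter fun i => l i = a)) hBad E ρ v ?_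
    · intro u hu hu'
      have h2 := h1 u hu hu'
      have h3 : 2 * (12 * η) / (1 - lam - 2 * θ) = 24 * η / (1 - lam - 2 * θ) := by ring
      rw [h3] at h2
      exact h2
    intro l hl
    rw [Finset.mem_filter, not_and, not_exists] at hl
    have hl' : ∀ a, #(univ.filter fun i => l i = a) ≤ M₀ := fun a => not_lt.1 (hl (mem_univ _) a)
    -- the two sets
    set R : Finset Q := univ.map J with hR
    have hRc : #R = r := by rw [hR, card_map, card_univ, Fintype.card_fin]
    have hcompl : #(univ \ R) = 7 * r := by
      rw [card_sdiff_of_subset (subset_univ _), card_univ, hRc, hQ]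
      omega
    obtain ⟨J₁, hJ₁, hJ₁c⟩ := exists_subset_card_eq (s := univ \ R) (n := r) (by omega)
    have hcompl2 : #((univ \ R) \ J₁) = 6 * r := by
      rw [card_sdiff_of_subset hJ₁, hcompl, hJ₁c]
      omega
    obtain ⟨J₂, hJ₂, hJ₂c⟩ := exists_subset_card_eq (s := (univ \ R) \ J₁) (n := r) (by omega)
    have hd1 : ∀ i, J i ∉ J₁ := by
      intro i hi
      have := hJ₁ hi
      rw [mem_sdiff] at this
      exact this.2 (mem_map_of_mem J (mem_univ i))
    have hd2 : ∀ i, J i ∉ J₂ := by
      intro i hi
      have := hJ₂ hi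
      rw [mem_sdiff, mem_sdiff] at this
      exact this.1.2 (mem_map_of_mem J (mem_univ i))
    have hd3 : ∀ j, j ∈ J₁ → j ∉ J₂ := by
      intro j hj hj'
      have := hJ₂ hj'
      rw [mem_sdiff] at this
      exact this.2 hj
    obtain ⟨k₁, hk₁, hk₁l, hk₁n⟩ := hA Q Λ lab M₀ r J l J₁ hlab hl' hd1
      (by rw [hcard, hJ₁c]; omega) (by rw [hJ₁c, hQ]; omega)
    obtain ⟨k₂, hk₂, hk₂l, hk₂n⟩ := hA Q Λ lab M₀ r J l J₂ hlab hl' hd2
      (by rw [hcard, hJ₂c]; omega) (by rw [hJ₂c, hQ]; omega)
    set X : Perm (Q × M) := (blk k₁)⁻¹ * row (fun j => (lab j).elim 1 x) * blk k₁ with hX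
    set Y : Perm (Q × M) := (blk k₂)⁻¹ * row (fun j => (lab j).elim 1 y) * blk k₂ with hY
    have hX1 : X = row (fun j => (lab (k₁ j)).elim 1 x) := by rw [hX, blk_conj_row]
    have hY1 : Y = row (fun j => (lab (k₂ j)).elim 1 y) := by rw [hY, blk_conj_row]
    have hcm : cm X Y = row (Function.extend J (fun i => cm (x (l i)) (y (l i))) 1) := by
      rw [hX1, hY1, WR_cm_row]
      congr 1
      funext j
      by_cases hj : j ∈ Set.range J
      · obtain ⟨i, rfl⟩ := hj
        rw [J.injective.extend_apply, hk₁l, hk₂l]
        rfl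
      · rw [Function.extend_apply' _ _ _ (fun ⟨a, ha⟩ => hj ⟨a, ha⟩)]
        by_cases hj1 : j ∈ J₁
        · rw [hk₂n j hj (hd3 j hj1)]
          exact WR_cm_one _
        · rw [hk₁n j hj hj1]
          exact WR_one_cm _
    rw [← hcm]
    have e1 : ‖ρ X v - v‖ ≤ 3 * η := by
      have := disp_conj ρ v (row (fun j => (lab j).elim 1 x)) (blk k₁)
      have h2 := hblk k₁ hk₁
      rw [hX]
      linarith
    have e2 : ‖ρ Y v - v‖ ≤ 3 * η := by
      have := disp_conj ρ v (row (fun j => (lab j).elim 1 y)) (blk k₂)
      have h2 := hblk k₂ hk₂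
      rw [hY]
      linarith
    have e3 := disp_cm ρ v X Y
    linarith
  -- the eight pieces
  have hce : Fintype.card (Fin 8 × Fin r) = Fintype.card Q := by
    rw [Fintype.card_prod, Fintype.card_fin, Fintype.card_fin, hQ]
  obtain e := Fintype.equivOfCardEq hce
  set K : ℝ := 24 * η / (1 - lam - 2 * θ) with hK
  have step : ∀ S : Finset (Fin 8), ∀ u : Q → Perm M, (∀ j, sign (u j) = 1) →
      (∀ j, (e.symm j).1 ∉ S → u j = 1) → ‖ρ (row u) v - v‖ ≤ #S * K := by
    intro S
    induction S using Finset.induction_on with
    | empty =>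
      intro u _ hu
      have : u = 1 := by
        funext j
        exact hu j (notMem_empty _)
      rw [this, row_one, map_one]
      simp
    | insert c S hc ih =>
      intro u hu hu'
      set u1 : Q → Perm M := fun j => if (e.symm j).1 = c then u j else 1 with hu1
      set u2 : Q → Perm M := fun j => if (e.symm j).1 = c then 1 else u j with hu2
      have hprod : u = u1 * u2 := by
        funext j
        rw [Pi.mul_apply, hu1, hu2]
        by_cases h : (e.symm j).1 = c
        · simp only [h, if_true, mul_one]
        · simp only [h, if_false, one_mul]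
      have f1 : ‖ρ (row u1) v - v‖ ≤ K := by
        refine key ⟨fun i => e (c, i), fun a b hab => ?_⟩ u1 ?_ ?_
        · have := e.injective hab
          exact (Prod.mk.inj this).2
        · intro j
          rw [hu1]
          by_cases h : (e.symm j).1 = c
          · simp only [h, if_true]; exact hu j
          · simp only [h, if_false]; exact sign_one
        · intro j hj
          rw [hu1]
          by_cases h : (e.symm j).1 = c
          · exfalso
            apply hj
            refine ⟨(e.symm j).2, ?_⟩
            show e (c, (e.symm j).2) = j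
            rw [← h]
            exact e.apply_symm_apply j
          · simp only [h, if_false]
      have f2 : ‖ρ (row u2) v - v‖ ≤ #S * K := by
        apply ih
        · intro j
          rw [hu2]
          by_cases h : (e.symm j).1 = c
          · simp only [h, if_true]; exact sign_one
          · simp only [h, if_false]; exact hu j
        · intro j hj
          rw [hu2]
          by_cases h : (e.symm j).1 = c
          · simp only [h, if_true]
          · simp only [h, if_false]
            apply hu'
            rw [mem_insert, not_or]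
            exact ⟨h, hj⟩
      have f3 := disp_mul ρ v (row u1) (row u2)
      rw [← row_mul, ← hprod] at f3
      rw [card_insert_of_notMem hc]
      push_cast
      linarith
  intro u hu
  have h1 := step univ u hu (fun j hj => absurd (mem_univ _) hj)
  rw [card_univ, Fintype.card_fin] at h1
  refine h1.trans (le_of_eq ?_)
  rw [hK]
  push_cast
  ring

end KP23
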