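import Pool.Agent.N23.KP.ALLN
import Pool.Agent.N23.KP.ARR
import Pool.Agent.N23.KP.AUXL
import Pool.Agent.N23.KP.BASE
import Pool.Agent.N23.KP.BOOST
import Pool.Agent.N23.KP.CHAIN
import Pool.Agent.N23.KP.CHEB
import Pool.Agent.N23.KP.COMM
import Pool.Agent.N23.KP.CONTR
import Pool.Agent.N23.KP.COUNT
import Pool.Agent.N23.KP.DSQ
import Pool.Agent.N23.KP.EVI
import Pool.Agent.N23.KP.EXPD
import Pool.Agent.N23.KP.EXT
import Pool.Agent.N23.KP.FULL
import Pool.Agent.N23.KP.INV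
import Pool.Agent.N23.KP.KON
import Pool.Agent.N23.KP.LAZY
import Pool.Agent.N23.KP.LOC
import Pool.Agent.N23.KP.MAIN
import Pool.Agent.N23.KP.MATCH
import Pool.Agent.N23.KP.MOVE
import Pool.Agent.N23.KP.NEC
import Pool.Agent.N23.KP.PAIR2
import Pool.Agent.N23.KP.REC
import Pool.Agent.N23.KP.SID
import Pool.Agent.N23.KP.STEP
import Pool.Agent.N23.KP.TENS
import Pool.Agent.N23.KP.WR

/-! Project KP (helper23), MP_75608d_al: assembly. -/

namespace KP23

theorem STEP' : ST_STEP :=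
  STEP LAZY (COMM INV EVI) (WR (TENS CONTR) CHEB ARR) (FULL (KON MATCH))

theorem BOOST' : ST_BOOST := BOOST (DSQ AUX)

theorem REC' : ST_REC := REC BASE BOOST' STEP'

theorem ALLN' : ST_ALLN := ALLN REC' EXT

theorem LOC' : ST_LOC := LOC (COMM INV EVI) SID

theorem PAIR' : ST_PAIR := PAIR ALLN' LOC' MOVE (CHAIN EXT)

theorem GOAL : ST_GOAL := MAIN PAIR' EXPD COUNT NEC

end KP23
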