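import Pool.Agent.N23.KP.Stm

/-! Project KP (helper23): simple properties of `Nb`. -/

namespace KP23
open Finset Equiv Equiv.Perm Filter Topology

theorem Nb.mono {X : Type} [Fintype X] [DecidableEq X] {ι : Type} [Fintype ι] {g : ι → Perm X}
    {κ κ' : ℝ} (h : Nb g κ) (hk : κ ≤ κ') : Nb g κ' := by
  refine ⟨h.1, fun E _ _ ρ v hv => (h.2 E ρ v hv).trans ?_⟩
  gcongr

theorem Nb.reindex {X : Type} [Fintype X] [DecidableEq X] {ι ι' : Type} [Fintype ι] [Fintype ι']
    {g : ι → Perm X} {κ : ℝ} (h : Nb g κ) (σ : ι' ≃ ι) : Nb (fun i => g (σ i)) κ := by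
  refine ⟨fun i => h.1 _, fun E _ _ ρ v hv => ?_⟩
  rw [Fintype.card_congr σ, Equiv.sum_comp σ (fun i => ρ (g i) v)]
  exact h.2 E ρ v hv

theorem Nb.permCongr {X Y : Type} [Fintype X] [DecidableEq X] [Fintype Y] [DecidableEq Y]
    {ι : Type} [Fintype ι] {g : ι → Perm X} {κ : ℝ} (h : Nb g κ) (e : X ≃ Y) :
    Nb (fun i => e.permCongr (g i)) κ := by
  refine ⟨fun i => by rw [sign_permCongr]; exact h.1 i, fun E _ _ ρ v hv => ?_⟩
  have h2 := h.2 E (ρ.comp (e.permCongrHom : Perm X ≃* Perm Y).toMonoidHom) v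
  apply h2
  rw [← hv]
  refine Fintype.sum_equiv
    { toFun := fun h : alternatingGroup X => (⟨e.permCongr (h : Perm X), by
        rw [Equiv.Perm.mem_alternatingGroup, sign_permCongr]
        exact Equiv.Perm.mem_alternatingGroup.mp h.2⟩ : alternatingGroup Y)
      invFun := fun h : alternatingGroup Y => (⟨e.symm.permCongr (h : Perm Y), by
        rw [Equiv.Perm.mem_alternatingGroup, sign_permCongr]
        exact Equiv.Perm.mem_alternatingGroup.mp h.2⟩ : alternatingGroup X)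
      left_inv := fun h => by ext; simp
      right_inv := fun h => by ext; simp } _ _ ?_
  intro x
  rfl

/-- a tuple indexed by the first coordinates of a product -/
theorem Nb.pad {X : Type} [Fintype X] [DecidableEq X] {ι κ' : Type} [Fintype ι] [Fintype κ']
    {g : ι → Perm X} {κ : ℝ} (h : Nb g κ) : Nb (fun z : ι × κ' => g z.1) κ := by
  refine ⟨fun i => h.1 _, fun E _ _ ρ v hv => ?_⟩
  rw [Fintype.sum_prod_type, Fintype.card_prod]
  simp only [sum_const, card_univ]
  rw [← Finset.smul_sum, ← Nat.cast_smul_eq_nsmul ℝ, norm_smul]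
  have h1 := h.2 E ρ v hv
  simp only [Real.norm_natCast]
  push_cast
  calc (Fintype.card κ' : ℝ) * ‖∑ i, ρ (g i) v‖
      ≤ (Fintype.card κ' : ℝ) * (κ * Fintype.card ι * ‖v‖) := by gcongr
    _ = _ := by ring

theorem Nb.padIx {X : Type} [Fintype X] [DecidableEq X] {p s : ℕ} [Fact p.Prime]
    {g : Ix p s → Perm X} {κ : ℝ} (h : Nb g κ) : ∃ g' : Ix p (s + 1) → Perm X, Nb g' κ :=
  ⟨_, (h.pad (κ' := ZMod p)).reindex
    ((Fin.snocEquiv fun _ : Fin (s + 1) => ZMod p).symm.trans (Equiv.prodComm _ _))⟩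

end KP23
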