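import Mathlib

/-!
Project KP (helper23), MP_75608d_al: expanding pairs in alternating groups.  Definitions.
-/

namespace KP23
open Finset Equiv Equiv.Perm

noncomputable section

/-- `g : ι → Alt(X)` and, on every orthogonal representation of `Sym(X)`, the average of the `ρ (g i)`
has norm at most `κ` on the vectors with zero average over `Alt(X)` -/
def Nb {X : Type} [Fintype X] [DecidableEq X] {ι : Type} [Fintype ι] (g : ι → Perm X) (κ : ℝ) :
    Prop :=
  (∀ i, sign (g i) = 1) ∧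
  ∀ (E : Type) [NormedAddCommGroup E] [InnerProductSpace ℝ E] (ρ : Perm X →* (E ≃ₗᵢ[ℝ] E)) (v : E),
    ∑ h : alternatingGroup X, ρ (h : Perm X) v = 0 →
    ‖∑ i, ρ (g i) v‖ ≤ κ * Fintype.card ι * ‖v‖

/-- Kazhdan form: a vector moved at most `η` by all `g i` is moved at most `K η` by `Alt(X)` -/
def KZ {X : Type} [Fintype X] [DecidableEq X] {ι : Type} (g : ι → Perm X) (K : ℝ) : Prop :=
  (∀ i, sign (g i) = 1) ∧
  ∀ (E : Type) [NormedAddCommGroup E] [InnerProductSpace ℝ E] (ρ : Perm X →* (E ≃ₗᵢ[ℝ] E)) (v : E)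
    (η : ℝ), (∀ i, ‖ρ (g i) v - v‖ ≤ η) → ∀ h : Perm X, sign h = 1 → ‖ρ h v - v‖ ≤ K * η

/-- `v` is moved at most `η` by every even permutation which fixes all points outside `Δ` -/
def NIon {X : Type} [Fintype X] [DecidableEq X] {E : Type} [NormedAddCommGroup E]
    [InnerProductSpace ℝ E] (ρ : Perm X →* (E ≃ₗᵢ[ℝ] E)) (v : E) (Δ : Finset X) (η : ℝ) : Prop :=
  ∀ g : Perm X, sign g = 1 → (∀ x, x ∉ Δ → g x = x) → ‖ρ g v - v‖ ≤ η

/-- the permutation `(i, m) ↦ (i, u i m)` -/
def row {Q M : Type} (u : Q → Perm M) : Perm (Q × M) := prodCongrRight u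

/-- the permutation `(i, m) ↦ (h i, m)` -/
def blk {Q M : Type} (h : Perm Q) : Perm (Q × M) := Equiv.prodCongr h (Equiv.refl M)

/-- the permutation `(i, (j, m)) ↦ (j, (i, m))` -/
def swp {Q M : Type} : Perm (Q × (Q × M)) where
  toFun z := (z.2.1, (z.1, z.2.2))
  invFun z := (z.2.1, (z.1, z.2.2))
  left_inv _ := rfl
  right_inv _ := rfl

/-- the commutator -/
def cm {G : Type} [Group G] (g h : G) : G := g * h * g⁻¹ * h⁻¹

/-- the index set of size `p ^ s` -/
abbrev Ix (p s : ℕ) : Type := Fin s → ZMod p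

/-- derandomized square of the tuple `g` : the products `g i * g (i + α (1, x, …, x^(s-1)))` -/
def dsq {X : Type} {p s : ℕ} (g : Ix p s → Perm X) : Ix p (s + 2) → Perm X := fun z =>
  g (fun t : Fin s => z (Fin.castAdd 2 t)) *
    g (fun t : Fin s => z (Fin.castAdd 2 t) + z (Fin.natAdd s 0) * z (Fin.natAdd s 1) ^ (t : ℕ))

section basic
variable {Q M : Type}

@[simp] lemma row_apply (u : Q → Perm M) (z : Q × M) : row u z = (z.1, u z.1 z.2) := rfl
@[simp] lemma blk_apply (h : Perm Q) (z : Q × M) : (blk h : Perm (Q × M)) z = (h z.1, z.2) := rfl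
@[simp] lemma swp_apply (z : Q × (Q × M)) : swp z = (z.2.1, (z.1, z.2.2)) := rfl

lemma swp_mul_swp : (swp : Perm (Q × (Q × M))) * swp = 1 := by ext z <;> rfl

lemma swp_inv : (swp : Perm (Q × (Q × M)))⁻¹ = swp := by
  rw [inv_eq_iff_mul_eq_one]; exact swp_mul_swp

@[simp] lemma row_one : row (1 : Q → Perm M) = 1 := by ext z <;> rfl
lemma row_mul (u w : Q → Perm M) : row (u * w) = row u * row w := by ext z <;> rfl
lemma row_inv (u : Q → Perm M) : row u⁻¹ = (row u)⁻¹ := by
  rw [eq_comm, inv_eq_iff_mul_eq_one, ← row_mul, mul_inv_cancel, row_one]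
@[simp] lemma blk_one : (blk (1 : Perm Q) : Perm (Q × M)) = 1 := by ext z <;> rfl
lemma blk_mul (h k : Perm Q) : (blk (h * k) : Perm (Q × M)) = blk h * blk k := by
  ext z <;> rfl
lemma blk_inv (h : Perm Q) : (blk h⁻¹ : Perm (Q × M)) = (blk h)⁻¹ := by
  rw [eq_comm, inv_eq_iff_mul_eq_one, ← blk_mul, mul_inv_cancel, blk_one]

/-- conjugation of `row u` by a permutation of the blocks -/
lemma blk_conj_row (h : Perm Q) (u : Q → Perm M) :
    (blk h)⁻¹ * row u * blk h = row (fun j => u (h j)) := by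
  rw [← blk_inv]
  ext z
  · simp [Perm.mul_apply]
  · simp [Perm.mul_apply]

/-- `row` as a monoid homomorphism -/
def rowHom : (Q → Perm M) →* Perm (Q × M) where
  toFun := row
  map_one' := row_one
  map_mul' := row_mul

/-- `blk` as a monoid homomorphism -/
def blkHom : Perm Q →* Perm (Q × M) where
  toFun := blk
  map_one' := blk_one
  map_mul' := blk_mul

/-- `Perm M` acting on the block number `j` -/
def rowAt [DecidableEq Q] (j : Q) : Perm M →* Perm (Q × M) :=
  rowHom.comp (MonoidHom.mulSingle (fun _ : Q => Perm M) j)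

lemma rowAt_apply' [DecidableEq Q] (j : Q) (w : Perm M) :
    rowAt j w = row (Pi.mulSingle j w) := rfl

variable [Fintype Q] [Fintype M] [DecidableEq Q] [DecidableEq M]

lemma sign_row (u : Q → Perm M) : sign (row u) = ∏ j, sign (u j) := sign_prodCongrRight u

lemma sign_rowAt (j : Q) (w : Perm M) : sign (rowAt j w) = sign w := by
  rw [rowAt_apply', sign_row, Finset.prod_eq_single j]
  · simp
  · intro b _ hb
    rw [Pi.mulSingle_eq_of_ne hb, map_one]
  · simp

lemma sign_blk (h : Perm Q) : sign (blk h : Perm (Q × M)) = sign h ^ Fintype.card M := by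
  have : (blk h : Perm (Q × M)) = (Equiv.prodComm M Q).permCongr (row (fun _ : M => h)) := by
    ext z <;> rfl
  rw [this, sign_permCongr, sign_row]
  simp

end basic

section emb
variable {X Y : Type}

/-- the permutation of `Y` which is `w` on the image of the embedding `e : X ↪ Y` and fixes the
other points -/
def embP (e : X ↪ Y) : Perm X →* Perm Y := Equiv.Perm.viaEmbeddingHom e

lemma embP_apply (e : X ↪ Y) (w : Perm X) (x : X) : embP e w (e x) = e (w x) :=
  Equiv.Perm.viaEmbedding_apply w e x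

lemma embP_apply_of_notMem (e : X ↪ Y) (w : Perm X) (y : Y) (h : y ∉ Set.range e) :
    embP e w y = y :=
  Equiv.Perm.viaEmbedding_apply_of_notMem w e y h

lemma embP_injective (e : X ↪ Y) : Function.Injective (embP e) :=
  Equiv.Perm.viaEmbeddingHom_injective e

lemma sign_embP [Fintype X] [DecidableEq X] [Fintype Y] [DecidableEq Y] (e : X ↪ Y) (w : Perm X) :
    sign (embP e w) = sign w := by
  classical
  have h : embP e w = w.viaFintypeEmbedding e := by
    ext y
    by_cases hy : y ∈ Set.range e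
    · obtain ⟨x, rfl⟩ := hy
      rw [embP_apply, Equiv.Perm.viaFintypeEmbedding_apply_image]
    · rw [embP_apply_of_notMem e w y hy,
        Equiv.Perm.viaFintypeEmbedding_apply_notMem_range _ _ hy]
  rw [h, Equiv.Perm.viaFintypeEmbedding_sign]

/-- the even permutations which fix the complement of the range are images of even ones -/
lemma exists_embP (e : X ↪ Y) (g : Perm Y) (hg : ∀ y, y ∉ Set.range e → g y = y) :
    ∃ w : Perm X, embP e w = g := by
  have hmap : ∀ x, g (e x) ∈ Set.range e := by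
    intro x
    by_contra hc
    have h1 := hg _ hc
    have h2 : g (e x) = e x := g.injective h1
    exact hc ⟨x, h2.symm⟩
  have hmap' : ∀ x, g.symm (e x) ∈ Set.range e := by
    intro x
    by_contra hc
    have h1 := hg _ hc
    rw [Equiv.apply_symm_apply] at h1
    exact hc ⟨x, h1⟩
  choose f hf using hmap
  choose f' hf' using hmap'
  refine ⟨⟨f, f', fun x => ?_, fun x => ?_⟩, ?_⟩
  · apply e.injective; rw [hf', hf, Equiv.symm_apply_apply]
  · apply e.injective; rw [hf, hf', Equiv.apply_symm_apply]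
  · ext y
    by_cases hy : y ∈ Set.range e
    · obtain ⟨x, rfl⟩ := hy
      rw [embP_apply]
      exact hf x
    · rw [embP_apply_of_notMem e _ y hy, hg y hy]

end emb

section displacement
variable {G : Type} [Group G] {E : Type} [NormedAddCommGroup E] [InnerProductSpace ℝ E]

lemma disp_mul (ρ : G →* (E ≃ₗᵢ[ℝ] E)) (v : E) (g h : G) :
    ‖ρ (g * h) v - v‖ ≤ ‖ρ g v - v‖ + ‖ρ h v - v‖ := by
  have h1 : ρ (g * h) v - v = ρ g (ρ h v - v) + (ρ g v - v) := by
    rw [map_mul, map_sub]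
    change ρ g (ρ h v) - v = _
    abel
  rw [h1]
  refine (norm_add_le _ _).trans ?_
  rw [(ρ g).norm_map, add_comm]

lemma disp_inv (ρ : G →* (E ≃ₗᵢ[ℝ] E)) (v : E) (g : G) :
    ‖ρ g⁻¹ v - v‖ = ‖ρ g v - v‖ := by
  have h1 : ρ g (ρ g⁻¹ v - v) = v - ρ g v := by
    rw [map_sub]
    congr 1
    change (ρ g * ρ g⁻¹) v = v
    rw [← map_mul, mul_inv_cancel, map_one]
    rfl
  rw [← (ρ g).norm_map (ρ g⁻¹ v - v), h1, norm_sub_rev]

lemma disp_conj (ρ : G →* (E ≃ₗᵢ[ℝ] E)) (v : E) (g h : G) :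
    ‖ρ (h⁻¹ * g * h) v - v‖ ≤ ‖ρ g v - v‖ + 2 * ‖ρ h v - v‖ := by
  have h1 := disp_mul ρ v (h⁻¹ * g) h
  have h2 := disp_mul ρ v h⁻¹ g
  rw [disp_inv] at h2
  linarith

lemma disp_conj' (ρ : G →* (E ≃ₗᵢ[ℝ] E)) (v : E) (g h : G) :
    ‖ρ (h * g * h⁻¹) v - v‖ ≤ ‖ρ g v - v‖ + 2 * ‖ρ h v - v‖ := by
  have h1 := disp_mul ρ v (h * g) h⁻¹
  have h2 := disp_mul ρ v h g
  rw [disp_inv] at h1
  linarith

lemma disp_cm (ρ : G →* (E ≃ₗᵢ[ℝ] E)) (v : E) (g h : G) :
    ‖ρ (cm g h) v - v‖ ≤ 2 * ‖ρ g v - v‖ + 2 * ‖ρ h v - v‖ := by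
  unfold cm
  have h1 := disp_mul ρ v (g * h * g⁻¹) h⁻¹
  have h2 := disp_mul ρ v (g * h) g⁻¹
  have h3 := disp_mul ρ v g h
  rw [disp_inv] at h1 h2
  linarith

lemma disp_pow (ρ : G →* (E ≃ₗᵢ[ℝ] E)) (v : E) (g : G) (n : ℕ) :
    ‖ρ (g ^ n) v - v‖ ≤ n * ‖ρ g v - v‖ := by
  induction n with
  | zero => simp
  | succ n ih =>
    have h1 := disp_mul ρ v (g ^ n) g
    rw [pow_succ]
    push_cast
    linarith

end displacement

end

end KP23
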