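import Pool.Agent.N23.KP.Stm

/-! Project KP (helper23): the geometry of the pairs. -/

namespace KP23
open Finset Equiv Equiv.Perm Filter Topology

theorem geo (n q p n' Nc : ℕ) [Fact q.Prime] [Fact p.Prime] (x : Perm (Fin n))
    (M : Finset (Fin n)) (hM : ∀ i ∈ M, x i ∉ M) (r : ℕ)
    (hn : n = 2 * (q * n') + r + Nc * (p - 1)) (hcard : q * n' + r ≤ #M) (hNc : Nc ≤ n')
    (j₀ : ZMod q) :
    ∃ (e : (ZMod q × Fin n') ↪ Fin n)
      (e₂ : Perm (Fin (Nc * (p - 1))) → ((Fin Nc × ZMod p) ↪ Fin n)),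
      (∀ z z', x (e z) ≠ e z') ∧
      (∀ π i, e₂ π (i, 0) = x (e (j₀, Fin.castLE hNc i))) ∧
      (∀ π i t, t ≠ 0 → ∀ z, e₂ π (i, t) ≠ e z ∧ e₂ π (i, t) ≠ x (e z)) ∧
      (∀ π z, (∀ y, x (e y) ≠ z) → (∀ y, e₂ π y ≠ z) →
        (∃ y, x (e y) = x z) ∨ (∃ y, e₂ π y = x z)) ∧
      (∀ π, #(univ.filter fun z : Fin n => (∀ y, x (e y) ≠ z) ∧ (∀ y, e₂ π y ≠ z)) ≤
        q * n' + r) ∧
      (∀ π π', (∀ z, e₂ π z = e₂ π' z) → π = π') := by
  classical
  obtain ⟨S, hSM, hS⟩ := Finset.exists_subset_card_eq hcard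
  obtain ⟨D, hDS, hD⟩ := Finset.exists_subset_card_eq (s := S) (n := q * n') (by omega)
  -- the embedding e
  have ce : Fintype.card (ZMod q × Fin n') = Fintype.card D := by
    simp [hD, ZMod.card]
  let e₀ : (ZMod q × Fin n') ≃ D := Fintype.equivOfCardEq ce
  let e : (ZMod q × Fin n') ↪ Fin n := e₀.toEmbedding.trans (Function.Embedding.subtype _)
  have he : ∀ z, e z ∈ D := fun z => (e₀ z).2
  have heD : ∀ a ∈ D, ∃ z, e z = a := by
    intro a ha
    obtain ⟨z, hz⟩ := e₀.surjective ⟨a, ha⟩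
    exact ⟨z, congrArg Subtype.val hz⟩
  have hDM : ∀ a ∈ D, a ∈ M := fun a ha => hSM (hDS ha)
  -- the complement
  let xD : Finset (Fin n) := D.image x
  have hxD : #xD = q * n' := by
    rw [Finset.card_image_of_injective _ x.injective, hD]
  have hdisj : Disjoint S xD := by
    rw [Finset.disjoint_left]
    intro a ha hb
    obtain ⟨b, hbD, rfl⟩ := Finset.mem_image.mp hb
    exact hM b (hDM b hbD) (hSM ha)
  let E₀ : Finset (Fin n) := (S ∪ xD)ᶜ
  have hE₀ : #E₀ = Nc * (p - 1) := by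
    rw [Finset.card_compl, Finset.card_union_of_disjoint hdisj, hxD, hS, Fintype.card_fin]
    omega
  have c1 : Fintype.card (Fin (Nc * (p - 1))) = Fintype.card E₀ := by simp [hE₀]
  let g₀ : Fin (Nc * (p - 1)) ≃ E₀ := Fintype.equivOfCardEq c1
  have c2 : Fintype.card (Fin Nc × {t : ZMod p // t ≠ 0}) =
      Fintype.card (Fin (Nc * (p - 1))) := by
    have : Fintype.card {t : ZMod p // t ≠ 0} = p - 1 := by
      rw [Fintype.card_subtype_compl]
      simp [ZMod.card]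
    rw [Fintype.card_prod, this]
    simp
  let h₀ : (Fin Nc × {t : ZMod p // t ≠ 0}) ≃ Fin (Nc * (p - 1)) := Fintype.equivOfCardEq c2
  let f₂ : Perm (Fin (Nc * (p - 1))) → (Fin Nc × ZMod p) → Fin n := fun π z =>
    if h : z.2 = 0 then x (e (j₀, Fin.castLE hNc z.1)) else g₀ (π (h₀ (z.1, ⟨z.2, h⟩)))
  have hf0 : ∀ π i, f₂ π (i, 0) = x (e (j₀, Fin.castLE hNc i)) := by
    intro π i
    simp only [f₂, dif_pos]
  have hft : ∀ π i t (h : t ≠ 0), f₂ π (i, t) = g₀ (π (h₀ (i, ⟨t, h⟩))) := by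
    intro π i t h
    simp only [f₂]
    rw [dif_neg h]
  have hg₀ : ∀ a, (g₀ a : Fin n) ∉ S ∧ (g₀ a : Fin n) ∉ xD := by
    intro a
    have := (g₀ a).2
    rw [Finset.mem_compl, Finset.mem_union, not_or] at this
    exact this
  have hxe : ∀ z, x (e z) ∈ xD := fun z => Finset.mem_image_of_mem _ (he z)
  have hf₂ : ∀ π, Function.Injective (f₂ π) := by
    rintro π ⟨i, t⟩ ⟨i', t'⟩ h
    by_cases ht : t = 0 <;> by_cases ht' : t' = 0
    · subst ht; subst ht'
      rw [hf0, hf0] at h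
      have := e.injective (x.injective h)
      have h3 := congrArg Prod.snd this
      have h4 : i = i' := Fin.castLE_injective hNc h3
      rw [h4]
    · subst ht
      rw [hf0, hft _ _ _ ht'] at h
      exact absurd (h ▸ hxe _) (hg₀ _).2
    · subst ht'
      rw [hf0, hft _ _ _ ht] at h
      exact absurd (h ▸ hxe _) (hg₀ _).2
    · rw [hft _ _ _ ht, hft _ _ _ ht'] at h
      have h2 := h₀.injective (π.injective (g₀.injective (Subtype.ext h)))
      simp only [Prod.mk.injEq, Subtype.mk.injEq] at h2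
      rw [h2.1, h2.2]
  have hunc : ∀ π z, (∀ y, x (e y) ≠ z) → (∀ y, f₂ π y ≠ z) → z ∈ S := by
    intro π z h1 h2
    by_contra hz
    have hz2 : z ∉ xD := by
      intro h
      obtain ⟨b, hb, hbz⟩ := Finset.mem_image.mp h
      obtain ⟨y, hy⟩ := heD b hb
      exact h1 y (by rw [hy, hbz])
    have hz3 : z ∈ E₀ := by
      rw [Finset.mem_compl, Finset.mem_union, not_or]
      exact ⟨hz, hz2⟩
    obtain ⟨a, ha⟩ := g₀.surjective ⟨z, hz3⟩
    obtain ⟨⟨i, t⟩, hit⟩ := h₀.surjective (π.symm a)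
    apply h2 (i, t.1)
    rw [hft π i t.1 t.2]
    have : (⟨t.1, t.2⟩ : {t : ZMod p // t ≠ 0}) = t := rfl
    rw [this, hit, Equiv.apply_symm_apply, ha]
  refine ⟨e, fun π => ⟨f₂ π, hf₂ π⟩, ?_, ?_, ?_, ?_, ?_, ?_⟩
  · intro z z' h
    exact hM (e z) (hDM _ (he z)) (h ▸ hDM _ (he z'))
  · intro π i
    exact hf0 π i
  · intro π i t ht z
    simp only [Function.Embedding.coeFn_mk]
    rw [hft π i t ht]
    refine ⟨fun h => (hg₀ _).1 (h ▸ hDS (he z)), fun h => (hg₀ _).2 (h ▸ hxe z)⟩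
  · intro π z h1 h2
    simp only [Function.Embedding.coeFn_mk] at h2 ⊢
    have hzS := hunc π z h1 h2
    by_contra hc
    rw [not_or, not_exists, not_exists] at hc
    have := hunc π (x z) hc.1 hc.2
    exact hM z (hSM hzS) (hSM this)
  · intro π
    simp only [Function.Embedding.coeFn_mk]
    rw [← hS]
    apply Finset.card_le_card
    intro z hz
    rw [Finset.mem_filter] at hz
    exact hunc π z hz.2.1 hz.2.2
  · intro π π' h
    simp only [Function.Embedding.coeFn_mk] at h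
    ext a
    obtain ⟨⟨i, t⟩, hit⟩ := h₀.surjective a
    have h1 := h (i, t.1)
    rw [hft π i t.1 t.2, hft π' i t.1 t.2] at h1
    have h2 := g₀.injective (Subtype.ext h1)
    have : (⟨t.1, t.2⟩ : {t : ZMod p // t ≠ 0}) = t := rfl
    rw [this, hit] at h2
    rw [h2]

end KP23
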