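import Pool.Agent.N23.KP.GEO

/-! Project KP (helper23): the construction of the pairs. -/

namespace KP23
open Finset Equiv Equiv.Perm Filter Topology

theorem powers3 {G : Type*} [Group G] (y₁ y₂ y₃ : G) (m₁ m₂ m₃ : ℕ) (c12 : Commute y₁ y₂)
    (c13 : Commute y₁ y₃) (c23 : Commute y₂ y₃) (h1 : y₁ ^ m₁ = 1) (h2 : y₂ ^ m₂ = 1)
    (h3 : y₃ ^ m₃ = 1) (p1 : m₁ ≠ 0) (p2 : m₂ ≠ 0) (p3 : m₃ ≠ 0)
    (co : Nat.Coprime m₁ (m₂ * m₃)) :
    ∃ a : ℕ, a ≤ m₁ * (m₂ * m₃) ∧ (y₁ * y₂ * y₃) ^ a = y₁ := by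
  obtain ⟨k, hlt, hk1, hk2⟩ : ∃ k, k < m₁ * (m₂ * m₃) ∧ k ≡ 1 [MOD m₁] ∧ k ≡ 0 [MOD m₂ * m₃] :=
    ⟨_, Nat.chineseRemainder_lt_mul co 1 0 p1 (mul_ne_zero p2 p3),
      (Nat.chineseRemainder co 1 0).2.1, (Nat.chineseRemainder co 1 0).2.2⟩
  refine ⟨k, hlt.le, ?_⟩
  have hk2' : m₂ * m₃ ∣ k := (Nat.modEq_zero_iff_dvd).mp hk2
  rw [(c13.mul_left c23).mul_pow, c12.mul_pow]
  have e1 : y₁ ^ k = y₁ := by
    rw [pow_eq_pow_mod k h1, show k % m₁ = 1 % m₁ from hk1, ← pow_eq_pow_mod 1 h1, pow_one]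
  have e2 : y₂ ^ k = 1 := by
    obtain ⟨c, hc⟩ := hk2'
    rw [hc, mul_assoc, pow_mul, h2, one_pow]
  have e3 : y₃ ^ k = 1 := by
    obtain ⟨c, hc⟩ := hk2'
    rw [hc, mul_comm m₂ m₃, mul_assoc, pow_mul, h3, one_pow]
  rw [e1, e2, e3, mul_one, mul_one]

theorem sign_of_odd_pow {X : Type} [Fintype X] [DecidableEq X] (g : Perm X) (k : ℕ)
    (hk : Odd k) (h : g ^ k = 1) : sign g = 1 := by
  have h1 : sign g ^ k = 1 := by rw [← map_pow, h, map_one]
  rcases Int.units_eq_one_or (sign g) with h2 | h2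
  · exact h2
  · rw [h2, hk.neg_one_pow] at h1
    exact absurd h1 (by decide)

theorem addRight_pow {p : ℕ} (k : ℕ) :
    (Equiv.addRight (1 : ZMod p) : Perm (ZMod p)) ^ k = Equiv.addRight (k : ZMod p) := by
  induction k with
  | zero => ext z; simp
  | succ k ih =>
    rw [pow_succ, ih]
    ext z
    simp only [Perm.mul_apply, Equiv.coe_addRight]
    push_cast
    rw [add_assoc, add_comm (1 : ZMod p)]

/-- the group theoretic part -/
theorem pair_core (q p : ℕ) [Fact q.Prime] [Fact p.Prime] (hq2 : 3 ≤ q) (hp2 : 3 ≤ p)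
    (hpq : p ≠ q) {X : Type} [Fintype X] [DecidableEq X] (n' Nc : ℕ) (hNc : Nc ≤ n') (x : Perm X)
    (e : (ZMod q × Fin n') ↪ X) (e₂ : (Fin Nc × ZMod p) ↪ X) (j₀ : ZMod q)
    (h1 : ∀ z z', x (e z) ≠ e z')
    (h2 : ∀ i, e₂ (i, 0) = x (e (j₀, Fin.castLE hNc i)))
    (h3 : ∀ i t, t ≠ 0 → ∀ z, e₂ (i, t) ≠ e z ∧ e₂ (i, t) ≠ x (e z))
    (u : ZMod q → Perm (Fin n')) (hu0 : u j₀ = 1) (hu : ∀ j, u j * u j = 1) :
    let y₁ : Perm X := x * embP e (row u) * x⁻¹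
    let y₂ : Perm X := embP e₂ (row fun _ => Equiv.addRight 1)
    let y₃ : Perm X := embP e (blk (Equiv.addRight 1))
    (∃ a : ℕ, a ≤ 2 * (p * q) ∧ (y₁ * y₂ * y₃) ^ a = y₁) ∧
    (∃ a : ℕ, a ≤ 2 * (p * q) ∧ (y₁ * y₂ * y₃) ^ a = y₂) ∧
    (∃ a : ℕ, a ≤ 2 * (p * q) ∧ (y₁ * y₂ * y₃) ^ a = y₃) ∧ sign y₂ = 1 ∧ sign y₃ = 1 := by
  intro y₁ y₂ y₃
  have hpp : p.Prime := Fact.out
  have hqp : q.Prime := Fact.out
  -- orders
  have o1 : y₁ ^ 2 = 1 := by
    have : (row u) * (row u) = (1 : Perm (ZMod q × Fin n')) := by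
      rw [← row_mul, ← row_one]; congr 1; funext j; exact hu j
    have h4 : embP e (row u) * embP e (row u) = 1 := by rw [← map_mul, this, map_one]
    rw [pow_two]
    calc y₁ * y₁ = x * (embP e (row u) * embP e (row u)) * x⁻¹ := by simp only [y₁]; group
      _ = 1 := by rw [h4]; group
  have o2 : y₂ ^ p = 1 := by
    change (embP e₂ (row fun _ => Equiv.addRight 1)) ^ p = 1
    rw [← map_pow]
    have : (row (fun _ : Fin Nc => (Equiv.addRight 1 : Perm (ZMod p)))) ^ p = 1 := by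
      have h5 := map_pow (rowHom (Q := Fin Nc) (M := ZMod p)) (fun _ => Equiv.addRight 1) p
      change row _ = row _ ^ p at h5
      rw [← h5, ← row_one]
      congr 1
      funext j
      rw [Pi.pow_apply, addRight_pow]
      ext z
      simp
    rw [this, map_one]
  have o3 : y₃ ^ q = 1 := by
    change (embP e (blk (Equiv.addRight 1))) ^ q = 1
    rw [← map_pow]
    have : (blk (Equiv.addRight 1 : Perm (ZMod q)) : Perm (ZMod q × Fin n')) ^ q = 1 := by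
      have h5 := map_pow (blkHom (Q := ZMod q) (M := Fin n')) (Equiv.addRight 1) q
      change blk _ = blk _ ^ q at h5
      rw [← h5, ← blk_one]
      congr 1
      rw [addRight_pow]
      ext z
      simp
    rw [this, map_one]
  -- supports
  have s1 : ∀ z, y₁ z ≠ z → ∃ w : ZMod q × Fin n', z = x (e w) ∧ w.1 ≠ j₀ := by
    intro z hz
    by_contra hc
    push Not at hc
    apply hz
    change x (embP e (row u) (x⁻¹ z)) = z
    by_cases hr : x⁻¹ z ∈ Set.range e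
    · obtain ⟨w, hw⟩ := hr
      have hzw : z = x (e w) := by rw [hw]; simp
      have hj := hc w hzw
      rw [← hw, embP_apply]
      have : row u w = w := by
        rw [row_apply, hj, hu0]
        ext <;> simp [hj]
      rw [this, hzw]
    · rw [embP_apply_of_notMem e _ _ hr]
      simp
  have s2 : ∀ z, y₂ z ≠ z → ∃ w, z = e₂ w := by
    intro z hz
    by_contra hc
    push Not at hc
    exact hz (embP_apply_of_notMem e₂ _ _ (by rintro ⟨w, hw⟩; exact hc w hw.symm))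
  have s3 : ∀ z, y₃ z ≠ z → ∃ w, z = e w := by
    intro z hz
    by_contra hc
    push Not at hc
    exact hz (embP_apply_of_notMem e _ _ (by rintro ⟨w, hw⟩; exact hc w hw.symm))
  have d12 : Equiv.Perm.Disjoint y₁ y₂ := by
    intro z
    by_contra hc
    rw [not_or] at hc
    obtain ⟨w, hw, hwj⟩ := s1 z hc.1
    obtain ⟨⟨i, t⟩, hw2⟩ := s2 z hc.2
    by_cases ht : t = 0
    · subst ht
      rw [h2, hw] at hw2
      have := e.injective (x.injective hw2)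
      rw [this] at hwj
      exact hwj rfl
    · exact (h3 i t ht w).2 (hw2 ▸ hw)
  have d13 : Equiv.Perm.Disjoint y₁ y₃ := by
    intro z
    by_contra hc
    rw [not_or] at hc
    obtain ⟨w, hw, -⟩ := s1 z hc.1
    obtain ⟨w', hw'⟩ := s3 z hc.2
    exact h1 w w' (hw ▸ hw')
  have d23 : Equiv.Perm.Disjoint y₂ y₃ := by
    intro z
    by_contra hc
    rw [not_or] at hc
    obtain ⟨⟨i, t⟩, hw2⟩ := s2 z hc.1
    obtain ⟨w', hw'⟩ := s3 z hc.2
    by_cases ht : t = 0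
    · subst ht
      rw [h2] at hw2
      exact h1 _ w' (hw2 ▸ hw')
    · exact (h3 i t ht w').1 (hw2 ▸ hw')
  have c12 := d12.commute
  have c13 := d13.commute
  have c23 := d23.commute
  have hodd_p : Odd p := hpp.odd_of_ne_two (by omega)
  have hodd_q : Odd q := hqp.odd_of_ne_two (by omega)
  have co2p : Nat.Coprime 2 p := by
    rw [Nat.coprime_primes Nat.prime_two hpp]; omega
  have co2q : Nat.Coprime 2 q := by
    rw [Nat.coprime_primes Nat.prime_two hqp]; omega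
  have copq : Nat.Coprime p q := by
    rw [Nat.coprime_primes hpp hqp]; exact hpq
  refine ⟨?_, ?_, ?_, ?_, ?_⟩
  · exact powers3 y₁ y₂ y₃ 2 p q c12 c13 c23 o1 o2 o3 two_ne_zero hpp.ne_zero hqp.ne_zero
      (Nat.Coprime.mul_right co2p co2q)
  · obtain ⟨a, ha, hb⟩ := powers3 y₂ y₁ y₃ p 2 q c12.symm c23 c13 o2 o1 o3 hpp.ne_zero
      two_ne_zero hqp.ne_zero (Nat.Coprime.mul_right co2p.symm copq)
    refine ⟨a, ha.trans (le_of_eq (by ring)), ?_⟩
    rw [c12.eq]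
    exact hb
  · obtain ⟨a, ha, hb⟩ := powers3 y₃ y₁ y₂ q 2 p c13.symm c23.symm c12 o3 o1 o2 hqp.ne_zero
      two_ne_zero hpp.ne_zero (Nat.Coprime.mul_right co2q.symm copq.symm)
    refine ⟨a, ha.trans (le_of_eq (by ring)), ?_⟩
    rw [(c13.mul_left c23).eq, ← mul_assoc]
    exact hb
  · exact sign_of_odd_pow y₂ p hodd_p o2
  · exact sign_of_odd_pow y₃ q hodd_q o3

end KP23
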