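import Pool.Agent.N23.KP.Def

/-!
Project KP (helper23), MP_75608d_al: expanding pairs in alternating groups.  Statements.
-/

namespace KP23
open Finset Equiv Equiv.Perm Filter Topology

/-! ### Part I : operators -/

/-- LAZY: if the average of vectors `u i` of the same length as `v`, a proportion `θ` of which are equal
to `v`, is almost as long as `v`, then most of the `u i` are close to `v` -/
def ST_LAZY : Prop :=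
  ∀ (E : Type) [NormedAddCommGroup E] [InnerProductSpace ℝ E] (ι : Type) [Fintype ι]
    (u : ι → E) (v : E) (θ κ : ℝ) (I₀ : Finset ι), 0 < θ → 0 ≤ κ →
    (∀ i, ‖u i‖ = ‖v‖) → (∀ i ∈ I₀, u i = v) → θ * Fintype.card ι ≤ #I₀ →
    (1 - κ) * Fintype.card ι * ‖v‖ ≤ ‖∑ i, u i‖ →
    ∑ i, ‖u i - v‖ ^ 2 ≤ 4 * κ * (1 + 1 / θ) * Fintype.card ι * ‖v‖ ^ 2

/-- AUX: the spectral inequality for the graph of degree `p^2` on `(ZMod p)^s` with edges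
`i → i + α (1, x, …, x^(s-1))`, for functions with values in `E` -/
def ST_AUX : Prop :=
  ∀ (p : ℕ) [Fact p.Prime] (s : ℕ), 1 ≤ s →
    ∀ (E : Type) [NormedAddCommGroup E] [InnerProductSpace ℝ E] (a b : Ix p s → E),
    |(∑ i : Ix p s, ∑ α : ZMod p, ∑ x : ZMod p,
        inner ℝ (a (fun t => i t + α * x ^ (t : ℕ))) (b i)) -
      (p : ℝ) ^ 2 / (p : ℝ) ^ s * inner ℝ (∑ i, a i) (∑ i, b i)| ≤
      ((s : ℝ) - 1) * p * Real.sqrt (∑ i, ‖a i‖ ^ 2) * Real.sqrt (∑ i, ‖b i‖ ^ 2)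

/-- DSQ: derandomized squaring -/
def ST_DSQ : Prop :=
  ∀ (p : ℕ) [Fact p.Prime] (s : ℕ), 1 ≤ s →
    ∀ (X : Type) [Fintype X] [DecidableEq X] (g : Ix p s → Perm X) (κ : ℝ), 0 ≤ κ →
    Nb g κ → Nb (dsq g) (κ ^ 2 + ((s : ℝ) - 1) / p)

/-- BOOST: from norm `1 - κ₀` to norm `1/2` with a factor `p ^ (2 J)` in the number of elements -/
def ST_BOOST : Prop :=
  ∀ κ₀ : ℝ, 0 < κ₀ → ∃ J : ℕ, ∀ s : ℕ, 1 ≤ s → ∃ p₀ : ℕ, ∀ (p : ℕ) [Fact p.Prime], p₀ ≤ p →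
    ∀ (X : Type) [Fintype X] [DecidableEq X] (g : Ix p s → Perm X), Nb g (1 - κ₀) →
    ∃ g' : Ix p (s + 2 * J) → Perm X, Nb g' (1 / 2)

/-- BASE: `C n^(1/24)` elements of `Alt(n)` with norm `1 - c`; from the starting file
`Pool.Agent.H14R2.RD.R4f` (`RC14.R4uni` with `R = 24`) -/
def ST_BASE : Prop :=
  ∃ c : ℝ, 0 < c ∧ c ≤ 1 ∧ ∃ C : ℝ, 0 < C ∧ ∃ N : ℕ, ∀ n : ℕ, N ≤ n →
    ∀ (p : ℕ) [Fact p.Prime] (s : ℕ), C * (n : ℝ) ^ (1 / 24 : ℝ) ≤ (p : ℝ) ^ s →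
    ∃ g : Ix p s → Perm (Fin n), Nb g (1 - c)

/-! ### Part II : permutations as products of commutators of involutions -/

/-- INV -/
def ST_INV : Prop :=
  ∀ (X : Type) [Fintype X] [DecidableEq X] (g : Perm X),
    ∃ s t : Perm X, s * s = 1 ∧ t * t = 1 ∧ g = s * t

/-- EVI: an even involution is a commutator of two involutions -/
def ST_EVI : Prop :=
  ∀ (X : Type) [Fintype X] [DecidableEq X] (g : Perm X), g * g = 1 → sign g = 1 →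
    ∃ x y : Perm X, x * x = 1 ∧ y * y = 1 ∧ g = cm x y

/-- COMM: an even permutation is a product of three commutators of involutions -/
def ST_COMM : Prop :=
  ∀ (X : Type) [Fintype X] [DecidableEq X] (g : Perm X), sign g = 1 →
    ∃ x y : Fin 3 → Perm X, (∀ k, x k * x k = 1 ∧ y k * y k = 1) ∧
      g = cm (x 0) (y 0) * cm (x 1) (y 1) * cm (x 2) (y 2)

/-! ### Part III : the wreath step -/

/-- CONTR: ordered product of commuting contractions -/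
def ST_CONTR : Prop :=
  ∀ (E : Type) [NormedAddCommGroup E] [InnerProductSpace ℝ E] (lam : ℝ), 0 ≤ lam →
    ∀ (r : ℕ) (T P : Fin r → Module.End ℝ E),
    (∀ i v, ‖T i v‖ ≤ ‖v‖) → (∀ i v, P i (P i v) = P i v) →
    (∀ i v w, inner ℝ (P i v) w = inner ℝ v (P i w)) →
    (∀ i v, T i (P i v) = P i v) → (∀ i v, P i (T i v) = P i v) →
    (∀ i j v, i ≠ j → P i (T j v) = T j (P i v)) →
    (∀ i j v, P i (P j v) = P j (P i v)) →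
    (∀ i v, P i v = 0 → ‖T i v‖ ≤ lam * ‖v‖) →
    ∀ v, (List.ofFn P).prod v = 0 → ‖(List.ofFn T).prod v‖ ≤ lam * ‖v‖

/-- TENS: near-invariance under most of the elements `(w_{l i})` placed on the blocks `J i` gives
near-invariance under `Alt(M)^J` -/
def ST_TENS : Prop :=
  ∀ (Q M Λ : Type) [Fintype Q] [DecidableEq Q] [Fintype M] [DecidableEq M] [Fintype Λ] [Nonempty Λ]
    (w : Λ → Perm M) (lam θ η : ℝ), 0 ≤ lam → 0 ≤ θ → 0 < 1 - lam - 2 * θ → Nb w lam →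
    ∀ (r : ℕ) (J : Fin r ↪ Q) (Bad : Finset (Fin r → Λ)),
    (#Bad : ℝ) ≤ θ * (Fintype.card Λ : ℝ) ^ r →
    ∀ (E : Type) [NormedAddCommGroup E] [InnerProductSpace ℝ E]
      (ρ : Perm (Q × M) →* (E ≃ₗᵢ[ℝ] E)) (v : E),
    (∀ l : Fin r → Λ, l ∉ Bad →
      ‖ρ (row (Function.extend J (fun i => w (l i)) 1)) v - v‖ ≤ η) →
    ∀ u : Q → Perm M, (∀ j, sign (u j) = 1) → (∀ j, j ∉ Set.range J → u j = 1) →
    ‖ρ (row u) v - v‖ ≤ 2 * η / (1 - lam - 2 * θ)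

/-- CHEB: most assignments use no value more than twice the average -/
def ST_CHEB : Prop :=
  ∀ (Λ : Type) [Fintype Λ] [DecidableEq Λ] (r M₀ : ℕ) (θ : ℝ), 0 < θ → 0 < r →
    Fintype.card Λ * M₀ = 2 * r → (Fintype.card Λ : ℝ) ^ 2 ≤ θ * r →
    (#(univ.filter fun l : Fin r → Λ => ∃ a, M₀ < #(univ.filter fun i => l i = a)) : ℝ) ≤
      θ * (Fintype.card Λ : ℝ) ^ r

/-- ARR: arrangement of the labels by an even permutation of the blocks -/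
def ST_ARR : Prop :=
  ∀ (Q Λ : Type) [Fintype Q] [DecidableEq Q] [Fintype Λ] [DecidableEq Λ] (lab : Q → Option Λ)
    (M₀ r : ℕ) (J : Fin r ↪ Q) (l : Fin r → Λ) (J₁ : Finset Q),
    (∀ a, #(univ.filter fun j => lab j = some a) = M₀) →
    (∀ a, #(univ.filter fun i => l i = a) ≤ M₀) →
    (∀ i, J i ∉ J₁) → #J₁ + r = Fintype.card Λ * M₀ → #J₁ + r + 2 ≤ Fintype.card Q →
    ∃ k : Perm Q, sign k = 1 ∧ (∀ i, lab (k (J i)) = some (l i)) ∧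
      ∀ j, j ∉ Set.range J → j ∉ J₁ → lab (k j) = none

/-- WR: the wreath step -/
def ST_WR : Prop :=
  ∀ (Q M Λ : Type) [Fintype Q] [DecidableEq Q] [Fintype M] [DecidableEq M] [Fintype Λ]
    [DecidableEq Λ] [Nonempty Λ] (x y : Λ → Perm M) (lam θ : ℝ) (M₀ r : ℕ) (lab : Q → Option Λ),
    0 ≤ lam → 0 < θ → 0 < 1 - lam - 2 * θ → Nb (fun a => cm (x a) (y a)) lam →
    Fintype.card Λ * M₀ = 2 * r → 0 < r → (Fintype.card Λ : ℝ) ^ 2 ≤ θ * r →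
    Fintype.card Q = 8 * r → (∀ a, #(univ.filter fun j => lab j = some a) = M₀) →
    ∀ (E : Type) [NormedAddCommGroup E] [InnerProductSpace ℝ E]
      (ρ : Perm (Q × M) →* (E ≃ₗᵢ[ℝ] E)) (v : E) (η : ℝ),
    (∀ h : Perm Q, sign h = 1 → ‖ρ (blk h) v - v‖ ≤ η) →
    ‖ρ (row fun j => (lab j).elim 1 x) v - v‖ ≤ η →
    ‖ρ (row fun j => (lab j).elim 1 y) v - v‖ ≤ η →
    ∀ u : Q → Perm M, (∀ j, sign (u j) = 1) →
      ‖ρ (row u) v - v‖ ≤ 192 * η / (1 - lam - 2 * θ)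

/-! ### Part IV : rows and columns -/

/-- MATCH: a regular bipartite multigraph is a union of perfect matchings (König) -/
def ST_MATCH : Prop :=
  ∀ (Q X : Type) [Fintype Q] [DecidableEq Q] [Fintype X] [DecidableEq X] (N : ℕ) (a b : X → Q),
    (∀ i, #(univ.filter fun x => a x = i) = N) → (∀ i, #(univ.filter fun x => b x = i) = N) →
    ∃ κ : X → Fin N, (Function.Bijective fun x => (a x, κ x)) ∧
      (Function.Bijective fun x => (b x, κ x))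

/-- KON: an even permutation of `Q × Q × M` is row · column · row -/
def ST_KON : Prop :=
  ∀ (Q M : Type) [Fintype Q] [DecidableEq Q] [Fintype M] [DecidableEq M], 2 ≤ Fintype.card M →
    ∀ g : Perm (Q × (Q × M)), sign g = 1 →
    ∃ u₁ u₂ u₃ : Q → Perm (Q × M), ∏ j, sign (u₁ j) = 1 ∧ ∏ j, sign (u₂ j) = 1 ∧
      ∏ j, sign (u₃ j) = 1 ∧ g = row u₁ * (swp * row u₂ * swp) * row u₃

/-- FULL -/
def ST_FULL : Prop :=
  ∀ (Q M : Type) [Fintype Q] [DecidableEq Q] [Fintype M] [DecidableEq M] (r : ℕ),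
    Fintype.card Q = 8 * r → 2 ≤ Fintype.card M →
    ∀ τ : Perm (Q × M), sign τ = -1 → ∀ H : Finset Q, #H = 4 * r →
    ∀ (E : Type) [NormedAddCommGroup E] [InnerProductSpace ℝ E]
      (ρ : Perm (Q × (Q × M)) →* (E ≃ₗᵢ[ℝ] E)) (v : E) (η : ℝ),
    (∀ h : Perm Q, sign h = 1 → ‖ρ (blk h) v - v‖ ≤ η) →
    (∀ u : Q → Perm (Q × M), (∀ j, sign (u j) = 1) → ‖ρ (row u) v - v‖ ≤ η) →
    ‖ρ (row fun j => if j ∈ H then τ else 1) v - v‖ ≤ η → ‖ρ swp v - v‖ ≤ η →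
    ∀ g : Perm (Q × (Q × M)), sign g = 1 → ‖ρ g v - v‖ ≤ 23 * η

/-! ### Part V : the recursion -/

/-- STEP -/
def ST_STEP : Prop :=
  ∀ c₀ : ℝ, 0 < c₀ → c₀ ≤ 1 → ∃ κ₀ : ℝ, 0 < κ₀ ∧ κ₀ ≤ c₀ ∧
    ∀ (p : ℕ) [Fact p.Prime], 50 ≤ p → ∀ (s s' : ℕ) (Q M : Type) [Fintype Q] [DecidableEq Q]
      [Fintype M] [DecidableEq M], Fintype.card Q = 512000 * p ^ (2 * s') → 2 ≤ Fintype.card M →
    ∀ (T : Ix p s → Perm Q) (U : Ix p s' → Perm (Q × M)), Nb T (1 - c₀) → Nb U (1 / 2) →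
    ∃ G : Ix p (s + 1) → Perm (Q × (Q × M)), Nb G (1 - κ₀)

/-- REC -/
def ST_REC : Prop :=
  ∃ q L₀ : ℕ, 2 ≤ q ∧ 0 < L₀ ∧ ∀ m : ℕ, 4 ≤ m → m < 4 * q → ∀ j : ℕ,
    ∃ U : Fin L₀ → Perm (Fin (m * q ^ (j + 1))), Nb U (1 / 2)

/-- EXT: the extension lemma -/
def ST_EXT : Prop :=
  ∀ (X : Type) [Fintype X] [DecidableEq X] (Δ₁ Δ₂ : Finset X), #(Δ₂ \ Δ₁) + 2 ≤ #(Δ₁ ∩ Δ₂) →
    ∀ (E : Type) [NormedAddCommGroup E] [InnerProductSpace ℝ E]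
      (ρ : Perm X →* (E ≃ₗᵢ[ℝ] E)) (v : E) (η₁ η₂ : ℝ),
    NIon ρ v Δ₁ η₁ → NIon ρ v Δ₂ η₂ → NIon ρ v (Δ₁ ∪ Δ₂) (2 * η₁ + η₂)

/-- ALLN: bounded expanding sets for all `n` -/
def ST_ALLN : Prop :=
  ∃ (L₁ : ℕ) (K₁ : ℝ) (N₁ : ℕ), 0 < K₁ ∧ ∀ n, N₁ ≤ n → ∃ g : Fin L₁ → Perm (Fin n), KZ g K₁

/-! ### Part VI : pairs -/

/-- SID: Sidon sets -/
def ST_SID : Prop :=
  ∀ L : ℕ, ∃ q : ℕ, q.Prime ∧ 5 ≤ q ∧ ∃ (e : Fin L ↪ ZMod q) (j₀ : ZMod q), j₀ ∉ Set.range e ∧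
    ∀ i j k l : Fin L, i ≠ j → e i - e j = e k - e l → i = k ∧ j = l

/-- LOC: one involution and the shift of `q` blocks give the whole block group -/
def ST_LOC : Prop :=
  ∀ (L₁ : ℕ) (K₁ : ℝ), 0 < K₁ → ∃ (q : ℕ) (_ : Fact q.Prime) (K₂ : ℝ) (j₀ : ZMod q), 5 ≤ q ∧
    0 < K₂ ∧
    ∀ (B : Type) [Fintype B] [DecidableEq B], 2 ≤ Fintype.card B →
    ∀ g : Fin L₁ → Perm B, KZ g K₁ →
    ∃ u : ZMod q → Perm B, u j₀ = 1 ∧ (∀ j, u j * u j = 1) ∧ ∏ j, sign (u j) = 1 ∧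
    ∀ (E : Type) [NormedAddCommGroup E] [InnerProductSpace ℝ E]
      (ρ : Perm (ZMod q × B) →* (E ≃ₗᵢ[ℝ] E)) (v : E) (η : ℝ),
    ‖ρ (blk (Equiv.addRight 1)) v - v‖ ≤ η → ‖ρ (row u) v - v‖ ≤ η →
    ∀ (j : ZMod q) (w : Perm B), sign w = 1 → ‖ρ (rowAt j w) v - v‖ ≤ K₂ * η

/-- MOVE -/
def ST_MOVE : Prop :=
  ∀ (X : Type) [Fintype X] [DecidableEq X] (x : Perm X),
    ∃ M : Finset X, #(univ.filter fun i => x i ≠ i) ≤ 3 * #M ∧ ∀ i ∈ M, x i ∉ M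

/-- CHAIN: from the block groups on `D = range e` to `Alt(X)` with the help of `x`, the shift of the
blocks and the shift along the cycles `e₂ (i, ·)` -/
def ST_CHAIN : Prop :=
  ∀ (q p : ℕ) [Fact q.Prime] [Fact p.Prime], ∃ K₃ : ℝ, 0 < K₃ ∧
    ∀ (X : Type) [Fintype X] [DecidableEq X] (n' Nc : ℕ) (hNc : Nc ≤ n') (x : Perm X)
      (e : (ZMod q × Fin n') ↪ X) (e₂ : (Fin Nc × ZMod p) ↪ X) (j₀ : ZMod q),
    2 * Nc + 2 ≤ n' → n' + 2 ≤ Nc * (p - 1) →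
    (∀ z z', x (e z) ≠ e z') →
    (∀ i, e₂ (i, 0) = x (e (j₀, Fin.castLE hNc i))) →
    (∀ i t, t ≠ 0 → ∀ z, e₂ (i, t) ≠ e z ∧ e₂ (i, t) ≠ x (e z)) →
    (∀ z : X, (∀ y, x (e y) ≠ z) → (∀ y, e₂ y ≠ z) →
      (∃ y, x (e y) = x z) ∨ (∃ y, e₂ y = x z)) →
    3 * #(univ.filter fun z : X => (∀ y, x (e y) ≠ z) ∧ (∀ y, e₂ y ≠ z)) + 2 ≤ Fintype.card X →
    ∀ (E : Type) [NormedAddCommGroup E] [InnerProductSpace ℝ E]
      (ρ : Perm X →* (E ≃ₗᵢ[ℝ] E)) (v : E) (η : ℝ),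
    (∀ j w, sign w = 1 → ‖ρ (embP e (rowAt j w)) v - v‖ ≤ η) →
    ‖ρ x v - v‖ ≤ η → ‖ρ (embP e (blk (Equiv.addRight 1))) v - v‖ ≤ η →
    ‖ρ (embP e₂ (row fun _ => Equiv.addRight 1)) v - v‖ ≤ η →
    ∀ g : Perm X, sign g = 1 → ‖ρ g v - v‖ ≤ K₃ * η

/-- PAIR: every `x ∈ Alt(n)` moving at least `δ n` points has `R!` good partners, `R ≥ (1-δ) n` -/
def ST_PAIR : Prop :=
  ∀ δ : ℝ, 0 < δ → ∃ K : ℝ, 0 < K ∧ ∃ N : ℕ, ∀ n, N ≤ n → ∀ x : Perm (Fin n), sign x = 1 →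
    δ * n ≤ #(univ.filter fun i => x i ≠ i) →
    ∃ (R : ℕ) (F : Perm (Fin R) → Perm (Fin n)), (1 - δ) * n ≤ R ∧ Function.Injective F ∧
      ∀ f, KZ ![x, F f] K

/-- COUNT -/
def ST_COUNT : Prop :=
  ∀ δ : ℝ, 0 < δ → δ < 1 → ∀ᶠ n : ℕ in atTop, ∀ R : ℕ, (1 - δ / 2) * n ≤ R →
    (n.factorial : ℝ) ^ (1 - δ) ≤ R.factorial

end KP23
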