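import Pool.Agent.N23.KP.Stm
import Pool.Agent.H14R2.RC.Defs

/-!
Project KP (helper23), MP_75608d_al: expanding pairs in alternating groups.  Statements which use
the definition `RC14.Expanding` of the starting files, and the goal.
-/

namespace KP23
open Finset Equiv Equiv.Perm Filter Topology RC14

/-- EXPD: Kazhdan form implies spectral gap and generation -/
def ST_EXPD : Prop :=
  ∀ (n : ℕ) (x y : Alt n) (K : ℝ), 0 < K → KZ ![(x : Perm (Fin n)), (y : Perm (Fin n))] K →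
    Expanding (1 / (4 * K ^ 2)) ![x, y]

/-- NEC: in an `ε`-expanding pair both elements move a number of points proportional to `ε n` -/
def ST_NEC : Prop :=
  ∀ n : ℕ, 5 ≤ n → ∀ (x y : Alt n) (ε : ℝ), Expanding ε ![x, y] →
    (2 / 5) * ε * n ≤ #(univ.filter fun i => (x : Perm (Fin n)) i ≠ i)

/-- the goal -/
def ST_GOAL : Prop :=
  (∀ δ : ℝ, 0 < δ → ∃ ε : ℝ, 0 < ε ∧ ∀ᶠ n : ℕ in atTop, ∀ x : Alt n,
    δ * n ≤ #(univ.filter fun i => (x : Perm (Fin n)) i ≠ i) →
    (Fintype.card (Alt n) : ℝ) ^ (1 - δ) ≤ Nat.card {y : Alt n // Expanding ε ![x, y]}) ∧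
  (∀ n : ℕ, 5 ≤ n → ∀ (x y : Alt n) (ε : ℝ), Expanding ε ![x, y] →
    (2 / 5) * ε * n ≤ #(univ.filter fun i => (x : Perm (Fin n)) i ≠ i))

end KP23
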